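import Pool.Agent.LibCS68.Defs

set_option autoImplicit false
open Finset

namespace CS68

/-- Row A1. Elementary facts on `e` and the Fejer kernel. Last one: `|e(t) - 1| = 2 |sin π t| ≥ 4 |t|` for
`|t| ≤ 1/2` (`Real.mul_le_sin` or Jordan's inequality), geometric sum: `|∑_{h<H} e(ht)| |e(t) - 1| = |e(Ht) - 1| ≤ 2`,
so `Fj H t ≤ (2/(4|t|))^2 / H`. -/
theorem e_add (s t : ℝ) : e (s + t) = e s * e t := by
  unfold e
  rw [← Complex.exp_add]
  congr 1
  push_cast
  ring

theorem e_int (n : ℤ) : e n = 1 := by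
  unfold e
  rw [Complex.exp_eq_one_iff]
  refine ⟨n, ?_⟩
  push_cast
  ring

theorem norm_e (t : ℝ) : ‖e t‖ = 1 := by
  have h : e t = Complex.exp (((2 * Real.pi * t : ℝ) : ℂ) * Complex.I) := by
    unfold e
    congr 1
    push_cast
    ring
  rw [h, Complex.norm_exp_ofReal_mul_I]

theorem Fj_nonneg (H : ℕ) (t : ℝ) : 0 ≤ Fj H t := by
  unfold Fj
  positivity

theorem Fj_le (H : ℕ) (t : ℝ) : Fj H t ≤ H := by
  unfold Fj
  have h1 : ‖∑ h ∈ range H, e (h * t)‖ ≤ H := by
    refine (norm_sum_le _ _).trans (le_of_eq ?_)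
    simp only [norm_e, sum_const, card_range, nsmul_eq_mul, mul_one]
  rcases Nat.eq_zero_or_pos H with rfl | hH
  · simp
  · have hH' : (0 : ℝ) < H := by exact_mod_cast hH
    rw [div_le_iff₀ hH']
    nlinarith [norm_nonneg (∑ h ∈ range H, e (h * t))]

theorem Fj_add_int (H : ℕ) (t : ℝ) (n : ℤ) : Fj H (t + n) = Fj H t := by
  unfold Fj
  congr 3
  refine sum_congr rfl fun h _ => ?_
  have h1 : (h : ℝ) * (t + n) = h * t + (((h : ℤ) * n : ℤ) : ℝ) := by
    push_cast
    ring
  rw [h1, e_add, e_int, mul_one]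

theorem Fj_tail (H : ℕ) (hH : 0 < H) (t : ℝ) (ht : t ≠ 0) (ht2 : |t| ≤ 1 / 2) :
    Fj H t ≤ 1 / (4 * H * t ^ 2) := by
  have hgeo : (∑ h ∈ range H, e (h * t)) * (e t - 1) = e (H * t) - 1 := by
    have h1 : ∀ h : ℕ, e (h * t) = e t ^ h := by
      intro h
      induction h with
      | zero =>
        have := e_int 0
        simpa using this
      | succ h ih =>
        rw [pow_succ, ← ih, ← e_add]
        congr 1
        push_cast
        ring
    simp only [h1]
    exact geom_sum_mul (e t) H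
  have h2 : ‖e (H * t) - 1‖ ≤ 2 := by
    refine (norm_sub_le _ _).trans ?_
    rw [norm_e, norm_one]
    norm_num
  have h3 : 4 * |t| ≤ ‖e t - 1‖ := by
    have h : e t = Complex.exp (Complex.I * ((2 * Real.pi * t : ℝ) : ℂ)) := by
      unfold e
      congr 1
      push_cast
      ring
    rw [h, Complex.norm_exp_I_mul_ofReal_sub_one]
    have h4 : 2 * Real.pi * t / 2 = Real.pi * t := by ring
    rw [h4, Real.norm_eq_abs, abs_mul, abs_two]
    have h5 : |Real.sin (Real.pi * t)| = Real.sin (Real.pi * |t|) := by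
      rcases le_or_gt 0 t with h0 | h0
      · rw [abs_of_nonneg h0]
        refine abs_of_nonneg (Real.sin_nonneg_of_nonneg_of_le_pi (by positivity) ?_)
        rw [abs_of_nonneg h0] at ht2
        nlinarith [Real.pi_pos]
      · rw [abs_of_neg h0] at ht2 ⊢
        rw [mul_neg, Real.sin_neg]
        refine abs_of_nonpos ?_
        have := Real.sin_nonneg_of_nonneg_of_le_pi (x := Real.pi * -t)
          (by nlinarith [Real.pi_pos]) (by nlinarith [Real.pi_pos])
        rw [mul_neg, Real.sin_neg] at this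
        linarith
    rw [h5]
    have h6 := Real.mul_le_sin (x := Real.pi * |t|) (by positivity)
      (by nlinarith [Real.pi_pos])
    have h7 : 2 / Real.pi * (Real.pi * |t|) = 2 * |t| := by
      field_simp
    rw [h7] at h6
    linarith
  have h8 : ‖∑ h ∈ range H, e (h * t)‖ * ‖e t - 1‖ ≤ 2 := by
    rw [← norm_mul, hgeo]
    exact h2
  have ht0 : 0 < |t| := abs_pos.2 ht
  have h9 : ‖∑ h ∈ range H, e (h * t)‖ * (2 * |t|) ≤ 1 := by
    have := mul_le_mul_of_nonneg_left h3 (norm_nonneg (∑ h ∈ range H, e (h * t)))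
    linarith
  have h10 : ‖∑ h ∈ range H, e (h * t)‖ ^ 2 * (4 * t ^ 2) ≤ 1 := by
    have h11 : ‖∑ h ∈ range H, e (h * t)‖ ^ 2 * (4 * t ^ 2) =
        (‖∑ h ∈ range H, e (h * t)‖ * (2 * |t|)) ^ 2 := by
      rw [mul_pow, mul_pow, sq_abs]
      ring
    rw [h11]
    exact pow_le_one₀ (by positivity) h9
  unfold Fj
  have hH' : (0 : ℝ) < H := by exact_mod_cast hH
  have ht2' : 0 < t ^ 2 := by positivity
  rw [div_le_div_iff₀ hH' (by positivity)]
  nlinarith

end CS68
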