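import Pool.Agent.LibCS68.A1

set_option autoImplicit false
open Finset

namespace CS68

private theorem B1_conj (t : ℝ) : (starRingEnd ℂ) (e t) = e (-t) := by
  unfold e
  rw [← Complex.exp_conj]
  congr 1
  simp only [map_mul, Complex.conj_I, Complex.conj_ofReal, map_ofNat]
  push_cast
  ring

private theorem B1_sq {ι : Type} (A : Finset ι) (f : ι → ℝ) (u : ι → ℝ) :
    ((‖∑ α ∈ A, (f α : ℂ) * e (u α)‖ ^ 2 : ℝ) : ℂ) =
      ∑ α ∈ A, ∑ α' ∈ A, ((f α * f α' : ℝ) : ℂ) * e (u α - u α') := by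
  have h1 := Complex.mul_conj' (∑ α ∈ A, (f α : ℂ) * e (u α))
  push_cast
  rw [← h1, map_sum, Finset.sum_mul_sum]
  refine Finset.sum_congr rfl fun α _ => Finset.sum_congr rfl fun α' _ => ?_
  rw [map_mul, B1_conj, Complex.conj_ofReal, sub_eq_add_neg, e_add]
  ring

/-- Row B1a. Expand the square: `Fj H t = (1/H) ∑_{h,h'} e((h-h')t)`. -/
theorem Fj_eq (H : ℕ) (t : ℝ) :
    (Fj H t : ℂ) = (∑ h ∈ range H, ∑ h' ∈ range H, e (((h : ℤ) - h' : ℤ) * t)) / H := by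
  unfold Fj
  have h1 := B1_sq (range H) (fun _ => 1) (fun h : ℕ => (h : ℝ) * t)
  simp only [Complex.ofReal_one, one_mul, mul_one] at h1
  rw [Complex.ofReal_div, h1, Complex.ofReal_natCast]
  congr 1
  refine Finset.sum_congr rfl fun h _ => Finset.sum_congr rfl fun h' _ => ?_
  congr 1
  push_cast
  ring

private theorem B1_H (H : ℕ) (t : ℝ) :
    ∑ h ∈ range H, ∑ h' ∈ range H, e (((h : ℤ) - h' : ℤ) * t) = ((H * Fj H t : ℝ) : ℂ) := by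
  rcases Nat.eq_zero_or_pos H with h0 | h0
  · subst h0; simp
  · have hH : (H : ℂ) ≠ 0 := by exact_mod_cast h0.ne'
    rw [Complex.ofReal_mul, Complex.ofReal_natCast, Fj_eq, mul_div_cancel₀ _ hH]

/-- Row B1b. The trilinear sum. -/
theorem Fj_trilin {ι₁ ι₂ ι₃ : Type} (H : ℕ) (J : Finset ι₁) (A : Finset ι₂) (B : Finset ι₃)
    (a : ι₁ → ℝ) (x : ι₂ → ℝ) (y : ι₃ → ℝ) (w : ι₁ → ℝ) (f : ι₂ → ℝ) (g : ι₃ → ℝ) :
    ((∑ j ∈ J, ∑ α ∈ A, ∑ β ∈ B, w j * f α * g β * Fj H (a j + x α + y β) : ℝ) : ℂ) =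
      (∑ h ∈ range H, ∑ h' ∈ range H, (∑ j ∈ J, (w j : ℂ) * e (((h : ℤ) - h' : ℤ) * a j)) *
        (∑ α ∈ A, (f α : ℂ) * e (((h : ℤ) - h' : ℤ) * x α)) *
        (∑ β ∈ B, (g β : ℂ) * e (((h : ℤ) - h' : ℤ) * y β))) / H := by
  have hR : ∀ h h' : ℕ, (∑ j ∈ J, (w j : ℂ) * e (((h : ℤ) - h' : ℤ) * a j)) *
        (∑ α ∈ A, (f α : ℂ) * e (((h : ℤ) - h' : ℤ) * x α)) *
        (∑ β ∈ B, (g β : ℂ) * e (((h : ℤ) - h' : ℤ) * y β)) =
      ∑ j ∈ J, ∑ α ∈ A, ∑ β ∈ B, ((w j : ℂ) * f α * g β) *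
        e (((h : ℤ) - h' : ℤ) * (a j + x α + y β)) := by
    intro h h'
    rw [Finset.sum_mul_sum, Finset.sum_mul]
    refine Finset.sum_congr rfl fun j _ => ?_
    rw [Finset.sum_mul]
    refine Finset.sum_congr rfl fun α _ => ?_
    rw [Finset.mul_sum]
    refine Finset.sum_congr rfl fun β _ => ?_
    rw [mul_add, mul_add, e_add, e_add]
    ring
  simp only [hR]
  have hL : ∀ (j : ι₁) (α : ι₂) (β : ι₃),
      ((w j * f α * g β * Fj H (a j + x α + y β) : ℝ) : ℂ) =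
      (∑ h ∈ range H, ∑ h' ∈ range H, ((w j : ℂ) * f α * g β) *
        e (((h : ℤ) - h' : ℤ) * (a j + x α + y β))) / H := by
    intro j α β
    rw [Complex.ofReal_mul, Fj_eq]
    simp only [← Finset.mul_sum]
    push_cast
    ring
  rw [Complex.ofReal_sum]
  simp only [Complex.ofReal_sum, hL]
  simp only [← Finset.sum_div]
  congr 1
  -- exchange
  have h1 : ∑ j ∈ J, ∑ α ∈ A, ∑ β ∈ B, ∑ h ∈ range H, ∑ h' ∈ range H,
      ((w j : ℂ) * f α * g β) * e (((h : ℤ) - h' : ℤ) * (a j + x α + y β)) =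
      ∑ j ∈ J, ∑ α ∈ A, ∑ h ∈ range H, ∑ h' ∈ range H, ∑ β ∈ B,
      ((w j : ℂ) * f α * g β) * e (((h : ℤ) - h' : ℤ) * (a j + x α + y β)) := by
    refine Finset.sum_congr rfl fun j _ => Finset.sum_congr rfl fun α _ => ?_
    rw [Finset.sum_comm]
    exact Finset.sum_congr rfl fun h _ => Finset.sum_comm
  have h2 : ∑ j ∈ J, ∑ α ∈ A, ∑ h ∈ range H, ∑ h' ∈ range H, ∑ β ∈ B,
      ((w j : ℂ) * f α * g β) * e (((h : ℤ) - h' : ℤ) * (a j + x α + y β)) =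
      ∑ j ∈ J, ∑ h ∈ range H, ∑ h' ∈ range H, ∑ α ∈ A, ∑ β ∈ B,
      ((w j : ℂ) * f α * g β) * e (((h : ℤ) - h' : ℤ) * (a j + x α + y β)) := by
    refine Finset.sum_congr rfl fun j _ => ?_
    rw [Finset.sum_comm]
    exact Finset.sum_congr rfl fun h _ => Finset.sum_comm
  rw [h1, h2, Finset.sum_comm]
  exact Finset.sum_congr rfl fun h _ => Finset.sum_comm

private theorem B1_form {ι : Type} (H : ℕ) (A : Finset ι) (x f : ι → ℝ) :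
    ∑ h ∈ range H, ∑ h' ∈ range H, ‖∑ α ∈ A, (f α : ℂ) * e (((h : ℤ) - h' : ℤ) * x α)‖ ^ 2 =
      ∑ α ∈ A, ∑ α' ∈ A, f α * f α' * (H * Fj H (x α - x α')) := by
  have key : ((∑ h ∈ range H, ∑ h' ∈ range H,
      ‖∑ α ∈ A, (f α : ℂ) * e (((h : ℤ) - h' : ℤ) * x α)‖ ^ 2 : ℝ) : ℂ) =
      ((∑ α ∈ A, ∑ α' ∈ A, f α * f α' * (H * Fj H (x α - x α')) : ℝ) : ℂ) := by
    rw [Complex.ofReal_sum]
    simp only [Complex.ofReal_sum]
    have h1 : ∀ h h' : ℕ, ((‖∑ α ∈ A, (f α : ℂ) * e (((h : ℤ) - h' : ℤ) * x α)‖ ^ 2 : ℝ) : ℂ) =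
        ∑ α ∈ A, ∑ α' ∈ A, ((f α * f α' : ℝ) : ℂ) *
          e (((h : ℤ) - h' : ℤ) * (x α - x α')) := by
      intro h h'
      rw [B1_sq A f (fun α => (((h : ℤ) - h' : ℤ) : ℝ) * x α)]
      simp only [mul_sub]
    simp only [h1]
    have h2 : ∀ α α' : ι, ((f α * f α' * (H * Fj H (x α - x α')) : ℝ) : ℂ) =
        ∑ h ∈ range H, ∑ h' ∈ range H, ((f α * f α' : ℝ) : ℂ) *
          e (((h : ℤ) - h' : ℤ) * (x α - x α')) := by
      intro α α'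
      simp only [← Finset.mul_sum]
      rw [B1_H, Complex.ofReal_mul]
    simp only [h2]
    have h3 : ∑ α ∈ A, ∑ α' ∈ A, ∑ h ∈ range H, ∑ h' ∈ range H, ((f α * f α' : ℝ) : ℂ) *
          e (((h : ℤ) - h' : ℤ) * (x α - x α')) =
        ∑ α ∈ A, ∑ h ∈ range H, ∑ h' ∈ range H, ∑ α' ∈ A, ((f α * f α' : ℝ) : ℂ) *
          e (((h : ℤ) - h' : ℤ) * (x α - x α')) := by
      refine Finset.sum_congr rfl fun α _ => ?_
      rw [Finset.sum_comm]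
      exact Finset.sum_congr rfl fun h _ => Finset.sum_comm
    rw [h3]
    symm
    rw [Finset.sum_comm]
    exact Finset.sum_congr rfl fun h _ => Finset.sum_comm
  exact_mod_cast key

/-- Row B1c (the majorant). `∑_{h,h'} |∑ f e|^2 = H ∑_{α,α'} f f' Fj(x α - x α') ≤ H ∑_{α,α'} Fj(x α - x α')`. -/
theorem major {ι : Type} (H : ℕ) (A : Finset ι) (x f : ι → ℝ) (hf : ∀ α ∈ A, |f α| ≤ 1) :
    ∑ h ∈ range H, ∑ h' ∈ range H, ‖∑ α ∈ A, (f α : ℂ) * e (((h : ℤ) - h' : ℤ) * x α)‖ ^ 2 ≤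
      ∑ h ∈ range H, ∑ h' ∈ range H, ‖∑ α ∈ A, e (((h : ℤ) - h' : ℤ) * x α)‖ ^ 2 := by
  have h1 := B1_form H A x (fun _ => 1)
  simp only [Complex.ofReal_one, one_mul] at h1
  rw [B1_form, h1]
  refine Finset.sum_le_sum fun α hα => Finset.sum_le_sum fun α' hα' => ?_
  have h2 : 0 ≤ (H : ℝ) * Fj H (x α - x α') := mul_nonneg (Nat.cast_nonneg _) (Fj_nonneg _ _)
  refine mul_le_of_le_one_left h2 ?_
  have h3 := mul_le_one₀ (hf α hα) (abs_nonneg _) (hf α' hα')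
  rw [← abs_mul] at h3
  exact (le_abs_self _).trans h3

end CS68
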