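import Pool.Agent.LibCS68.A1

set_option autoImplicit false
open Finset

namespace CS68

private theorem C1_e_zero : e 0 = 1 := by
  have := e_int 0
  simpa using this

private theorem C1_pow (t : ℝ) (x : ℕ) : e ((x : ℝ) * t) = e t ^ x := by
  induction x with
  | zero => simp [C1_e_zero]
  | succ x ih =>
    rw [pow_succ, ← ih, ← e_add]
    congr 1
    push_cast
    ring

private theorem C1_ne_one {p : ℕ} (hp : 0 < p) {n : ℤ} (h : ¬ (p : ℤ) ∣ n) :
    e ((n : ℝ) / p) ≠ 1 := by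
  intro h1
  unfold e at h1
  rw [Complex.exp_eq_one_iff] at h1
  obtain ⟨m, hm⟩ := h1
  apply h
  refine ⟨m, ?_⟩
  have hp' : (p : ℂ) ≠ 0 := by exact_mod_cast hp.ne'
  have hpi : (2 * (Real.pi : ℂ) * Complex.I) ≠ 0 := Complex.two_pi_I_ne_zero
  have h2 : (2 * (Real.pi : ℂ) * Complex.I) * (((n : ℝ) / p : ℝ) : ℂ) =
      (2 * (Real.pi : ℂ) * Complex.I) * m := by rw [hm]; ring
  have h3 := mul_left_cancel₀ hpi h2
  push_cast at h3
  rw [div_eq_iff hp'] at h3
  have h4 : (n : ℂ) = ((p * m : ℤ) : ℂ) := by rw [h3]; push_cast; ring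
  exact_mod_cast h4

/-- Row C1a. Ramanujan sum of a prime. -/
theorem sum_U_prime (p : ℕ) (hp : p.Prime) (n : ℤ) :
    ∑ x ∈ U p, e ((n : ℝ) * ((x : ℝ) / p)) = (((if (p : ℤ) ∣ n then (p : ℝ) else 0) - 1 : ℝ) : ℂ) := by
  have hU : U p = (range p).erase 0 := by
    ext x
    unfold U
    rw [mem_filter, mem_range, mem_erase, mem_range]
    constructor
    · rintro ⟨h1, h2⟩
      refine ⟨?_, h1⟩
      rintro rfl
      rw [Nat.coprime_zero_left] at h2
      exact hp.one_lt.ne' h2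
    · rintro ⟨h1, h2⟩
      refine ⟨h2, ?_⟩
      exact ((Nat.Prime.coprime_iff_not_dvd hp).2 fun h3 =>
        h1 (Nat.eq_zero_of_dvd_of_lt h3 h2)).symm
  have hp0 : (p : ℝ) ≠ 0 := by exact_mod_cast hp.ne_zero
  have hterm : ∀ x : ℕ, e ((n : ℝ) * ((x : ℝ) / p)) = e ((n : ℝ) / p) ^ x := by
    intro x
    rw [← C1_pow]
    congr 1
    ring
  have h0 : (0 : ℕ) ∈ range p := mem_range.2 hp.pos
  have h1 := Finset.sum_erase_eq_sub (f := fun x : ℕ => e ((n : ℝ) * ((x : ℝ) / p))) h0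
  rw [hU, h1]
  have h2 : e ((n : ℝ) * (((0 : ℕ) : ℝ) / p)) = 1 := by
    rw [hterm, pow_zero]
  rw [h2]
  have h3 : ∑ x ∈ range p, e ((n : ℝ) * ((x : ℝ) / p)) = if (p : ℤ) ∣ n then (p : ℂ) else 0 := by
    rw [Finset.sum_congr rfl fun x _ => hterm x]
    split_ifs with h
    · obtain ⟨m, hm⟩ := h
      have h4 : e ((n : ℝ) / p) = 1 := by
        have : (n : ℝ) / p = (m : ℝ) := by
          rw [hm]; push_cast; field_simp
        rw [this]
        exact e_int m
      rw [h4]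
      simp
    · have h4 := C1_ne_one hp.pos h
      have h5 := geom_sum_mul (e ((n : ℝ) / p)) p
      have h6 : e ((n : ℝ) / p) ^ p = 1 := by
        rw [← C1_pow]
        have : (p : ℝ) * ((n : ℝ) / p) = (n : ℝ) := by field_simp
        rw [this]
        exact e_int n
      rw [h6, sub_self] at h5
      rcases mul_eq_zero.1 h5 with h7 | h7
      · exact h7
      · exact absurd (sub_eq_zero.1 h7) h4
  rw [h3]
  split_ifs <;> push_cast <;> ring

theorem DP_zero (P : Finset ℕ) : DP P 0 = NP P := by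
  unfold DP NP
  simp

theorem NP_ge (X : ℕ) (P : Finset ℕ) (hP : InX X P) : (X : ℝ) * #P ≤ NP P := by
  unfold NP
  have h1 : ∑ _p ∈ P, (X : ℝ) ≤ ∑ p ∈ P, ((p : ℝ) - 1) := by
    apply Finset.sum_le_sum
    intro p hp
    have h2 : X + 1 ≤ p := (hP p hp).2.1
    have h3 : (X : ℝ) + 1 ≤ p := by exact_mod_cast h2
    linarith
  rw [Finset.sum_const, nsmul_eq_mul] at h1
  linarith

theorem card_le (X : ℕ) (P : Finset ℕ) (hP : InX X P) : #P ≤ X := by
  have h1 : P ⊆ Ioc X (2 * X) := by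
    intro p hp
    rw [mem_Ioc]
    exact ⟨(hP p hp).2.1, (hP p hp).2.2⟩
  have h2 := Finset.card_le_card h1
  rw [Nat.card_Ioc] at h2
  omega

/-- the number of the `h' ≠ h` below `H` congruent to `h` -/
private theorem C1_count (d h H : ℕ) (hh : h < H) :
    d * (((range H).erase h).filter (fun h' : ℕ => (d : ℤ) ∣ (h : ℤ) - h')).card ≤ H := by
  have hsub : ((range H).erase h).filter (fun h' : ℕ => (d : ℤ) ∣ (h : ℤ) - h') ⊆
      ((Ioc 0 h).filter (fun k => d ∣ k)).image (fun k => h - k) ∪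
        ((Ioc 0 (H - 1 - h)).filter (fun k => d ∣ k)).image (fun k => h + k) := by
    intro h' hh'
    rw [mem_filter, mem_erase, mem_range] at hh'
    obtain ⟨⟨hne, hlt⟩, hd⟩ := hh'
    rw [mem_union, mem_image, mem_image]
    rcases lt_or_gt_of_ne hne with h1 | h1
    · left
      refine ⟨h - h', ?_, by omega⟩
      rw [mem_filter, mem_Ioc]
      refine ⟨⟨by omega, by omega⟩, ?_⟩
      have h2 : ((h - h' : ℕ) : ℤ) = (h : ℤ) - h' := by omega
      rw [← h2] at hd
      exact_mod_cast hd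
    · right
      refine ⟨h' - h, ?_, by omega⟩
      rw [mem_filter, mem_Ioc]
      refine ⟨⟨by omega, by omega⟩, ?_⟩
      have h2 : ((h' - h : ℕ) : ℤ) = -((h : ℤ) - h') := by omega
      have h3 : (d : ℤ) ∣ ((h' - h : ℕ) : ℤ) := by rw [h2]; exact (dvd_neg.2 hd)
      exact_mod_cast h3
  have h1 := (Finset.card_le_card hsub).trans (Finset.card_union_le _ _)
  have h2 : (((Ioc 0 h).filter (fun k => d ∣ k)).image (fun k => h - k)).card ≤ h / d := by
    refine Finset.card_image_le.trans ?_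
    rw [Nat.Ioc_filter_dvd_card_eq_div]
  have h3 : (((Ioc 0 (H - 1 - h)).filter (fun k => d ∣ k)).image (fun k => h + k)).card ≤
      (H - 1 - h) / d := by
    refine Finset.card_image_le.trans ?_
    rw [Nat.Ioc_filter_dvd_card_eq_div]
  have h4 := Nat.mul_div_le h d
  have h5 := Nat.mul_div_le (H - 1 - h) d
  calc d * (((range H).erase h).filter (fun h' : ℕ => (d : ℤ) ∣ (h : ℤ) - h')).card
      ≤ d * (h / d + (H - 1 - h) / d) := Nat.mul_le_mul_left _ (by omega)
    _ = d * (h / d) + d * ((H - 1 - h) / d) := by ring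
    _ ≤ h + (H - 1 - h) := by omega
    _ ≤ H := by omega

/-- the sum over the pairs of the indicator of `d ∣ h - h'` -/
private theorem C1_pairs (d H : ℕ) :
    (d : ℝ) * ∑ h ∈ range H, ∑ h' ∈ (range H).erase h,
      (if (d : ℤ) ∣ (h : ℤ) - h' then (1 : ℝ) else 0) ≤ (H : ℝ) ^ 2 := by
  rw [Finset.mul_sum]
  have h1 : ∀ h ∈ range H, (d : ℝ) * ∑ h' ∈ (range H).erase h,
      (if (d : ℤ) ∣ (h : ℤ) - h' then (1 : ℝ) else 0) ≤ H := by
    intro h hh
    rw [← Finset.sum_filter, Finset.sum_const, nsmul_eq_mul, mul_one]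
    exact_mod_cast C1_count d h H (mem_range.1 hh)
  calc _ ≤ ∑ _h ∈ range H, (H : ℝ) := Finset.sum_le_sum h1
    _ = (H : ℝ) ^ 2 := by simp; ring

private theorem C1_two {p p' : ℕ} (hp : p.Prime) (hp' : p'.Prime) (H : ℕ) :
    ∑ h ∈ range H, ∑ h' ∈ (range H).erase h,
      (if (p : ℤ) ∣ (h : ℤ) - h' then (p : ℝ) else 0) *
        (if (p' : ℤ) ∣ (h : ℤ) - h' then (p' : ℝ) else 0) ≤
      (if p = p' then (p : ℝ) else 1) * (H : ℝ) ^ 2 := by
  by_cases h : p = p'
  · subst h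
    rw [if_pos rfl]
    have h1 := C1_pairs p H
    have hp0 : (0 : ℝ) ≤ p := Nat.cast_nonneg _
    have h2 := mul_le_mul_of_nonneg_left h1 hp0
    refine le_trans (le_of_eq ?_) h2
    rw [Finset.mul_sum, Finset.mul_sum]
    refine Finset.sum_congr rfl fun a _ => ?_
    rw [Finset.mul_sum, Finset.mul_sum]
    refine Finset.sum_congr rfl fun b _ => ?_
    split_ifs <;> ring
  · rw [if_neg h, one_mul]
    have h1 := C1_pairs (p * p') H
    refine le_trans (le_of_eq ?_) h1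
    rw [Finset.mul_sum]
    refine Finset.sum_congr rfl fun a _ => ?_
    rw [Finset.mul_sum]
    refine Finset.sum_congr rfl fun b _ => ?_
    have hco : IsCoprime (p : ℤ) (p' : ℤ) := by
      rw [Nat.isCoprime_iff_coprime, Nat.coprime_primes hp hp']
      exact h
    by_cases h2 : (p : ℤ) ∣ (a : ℤ) - b
    · by_cases h3 : (p' : ℤ) ∣ (a : ℤ) - b
      · have h4 : ((p * p' : ℕ) : ℤ) ∣ (a : ℤ) - b := by
          push_cast
          exact hco.mul_dvd h2 h3
        rw [if_pos h2, if_pos h3, if_pos h4]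
        push_cast
        ring
      · have h4 : ¬ ((p * p' : ℕ) : ℤ) ∣ (a : ℤ) - b := fun h5 => h3 (by
          push_cast at h5
          exact dvd_trans (dvd_mul_left _ _) h5)
        rw [if_neg h3, if_neg h4]
        ring
    · have h4 : ¬ ((p * p' : ℕ) : ℤ) ∣ (a : ℤ) - b := fun h5 => h2 (by
        push_cast at h5
        exact dvd_trans (dvd_mul_right _ _) h5)
      rw [if_neg h2, if_neg h4]
      ring

/-- Row C1b. `DP^2 ≤ 2 (∑_{p ∣ n} p)^2 + 2 #P^2`; expand `(∑_{p ∣ h-h'} p)^2` and count pairs `h ≠ h' < H` with `p ∣ h - h'`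
(at most `H · H/p`: the class of `h` has at most `⌈H/p⌉` elements, minus `h` itself), resp. `p p' ∣ h - h'`
(at most `H · H/(p p')`): `∑ ≤ 2 (H^2 ∑ p + H^2 #P^2) + 2 H^2 #P^2 ≤ 8 H^2 X #P`. -/
theorem off_diag (X H : ℕ) (P : Finset ℕ) (hP : InX X P) :
    ∑ h ∈ range H, ∑ h' ∈ (range H).erase h, DP P ((h : ℤ) - h') ^ 2 ≤ 8 * (H : ℝ) ^ 2 * X * #P := by
  set A : ℤ → ℝ := fun n => ∑ p ∈ P, (if (p : ℤ) ∣ n then (p : ℝ) else 0) with hA
  have hA0 : ∀ n, 0 ≤ A n := fun n => Finset.sum_nonneg fun p _ => by split_ifs <;> positivity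
  have hDP : ∀ n, DP P n = A n - #P := by
    intro n
    unfold DP
    rw [Finset.sum_sub_distrib]
    simp [hA]
  have hsq : ∀ n, DP P n ^ 2 ≤ A n ^ 2 + (#P : ℝ) ^ 2 := by
    intro n
    rw [hDP]
    have h1 := hA0 n
    have h2 : (0 : ℝ) ≤ #P := Nat.cast_nonneg _
    nlinarith [mul_nonneg h1 h2]
  have hc : (#P : ℝ) ≤ X := by exact_mod_cast card_le X P hP
  have hc0 : (0 : ℝ) ≤ #P := Nat.cast_nonneg _
  -- the square
  have h1 : ∑ h ∈ range H, ∑ h' ∈ (range H).erase h, A ((h : ℤ) - h') ^ 2 ≤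
      (2 * X * #P + (#P : ℝ) ^ 2) * (H : ℝ) ^ 2 := by
    have h2 : ∑ h ∈ range H, ∑ h' ∈ (range H).erase h, A ((h : ℤ) - h') ^ 2 =
        ∑ p ∈ P, ∑ p' ∈ P, ∑ h ∈ range H, ∑ h' ∈ (range H).erase h,
          (if (p : ℤ) ∣ (h : ℤ) - h' then (p : ℝ) else 0) *
            (if (p' : ℤ) ∣ (h : ℤ) - h' then (p' : ℝ) else 0) := by
      have h3 : ∀ h h' : ℕ, A ((h : ℤ) - h') ^ 2 = ∑ p ∈ P, ∑ p' ∈ P,
          (if (p : ℤ) ∣ (h : ℤ) - h' then (p : ℝ) else 0) *
            (if (p' : ℤ) ∣ (h : ℤ) - h' then (p' : ℝ) else 0) := by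
        intro h h'
        simp only [hA]
        rw [sq, Finset.sum_mul_sum]
      simp only [h3]
      have h4 : ∀ h : ℕ, ∑ h' ∈ (range H).erase h, ∑ p ∈ P, ∑ p' ∈ P,
          (if (p : ℤ) ∣ (h : ℤ) - h' then (p : ℝ) else 0) *
            (if (p' : ℤ) ∣ (h : ℤ) - h' then (p' : ℝ) else 0) =
          ∑ p ∈ P, ∑ p' ∈ P, ∑ h' ∈ (range H).erase h,
          (if (p : ℤ) ∣ (h : ℤ) - h' then (p : ℝ) else 0) *
            (if (p' : ℤ) ∣ (h : ℤ) - h' then (p' : ℝ) else 0) := by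
        intro h
        rw [Finset.sum_comm]
        exact Finset.sum_congr rfl fun p _ => Finset.sum_comm
      simp only [h4]
      rw [Finset.sum_comm]
      exact Finset.sum_congr rfl fun p _ => Finset.sum_comm
    rw [h2]
    have h5 : ∀ p ∈ P, ∑ p' ∈ P, ∑ h ∈ range H, ∑ h' ∈ (range H).erase h,
          (if (p : ℤ) ∣ (h : ℤ) - h' then (p : ℝ) else 0) *
            (if (p' : ℤ) ∣ (h : ℤ) - h' then (p' : ℝ) else 0) ≤
          (2 * X + #P) * (H : ℝ) ^ 2 := by
      intro p hp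
      refine (Finset.sum_le_sum fun p' hp' => C1_two (hP p hp).1 (hP p' hp').1 H).trans ?_
      rw [← Finset.sum_mul]
      refine mul_le_mul_of_nonneg_right ?_ (by positivity)
      have h6 : ∀ p' ∈ P, (if p = p' then (p : ℝ) else 1) ≤ (if p = p' then (p : ℝ) else 0) + 1 := by
        intro p' _
        split_ifs <;> linarith
      refine (Finset.sum_le_sum h6).trans ?_
      rw [Finset.sum_add_distrib, Finset.sum_ite_eq, if_pos hp, Finset.sum_const, nsmul_eq_mul,
        mul_one]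
      have h7 : (p : ℝ) ≤ 2 * X := by exact_mod_cast (hP p hp).2.2
      linarith
    refine (Finset.sum_le_sum h5).trans ?_
    rw [Finset.sum_const, nsmul_eq_mul]
    apply le_of_eq
    ring
  have h2 : ∑ h ∈ range H, ∑ h' ∈ (range H).erase h, (#P : ℝ) ^ 2 ≤ (#P : ℝ) ^ 2 * (H : ℝ) ^ 2 := by
    have h3 : ∀ h ∈ range H, ∑ h' ∈ (range H).erase h, (#P : ℝ) ^ 2 ≤ H * (#P : ℝ) ^ 2 := by
      intro h _
      rw [Finset.sum_const, nsmul_eq_mul]
      have h4 : ((range H).erase h).card ≤ H := by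
        have := Finset.card_le_card (Finset.erase_subset h (range H))
        rwa [card_range] at this
      have h5 : (((range H).erase h).card : ℝ) ≤ H := by exact_mod_cast h4
      exact mul_le_mul_of_nonneg_right h5 (by positivity)
    refine (Finset.sum_le_sum h3).trans ?_
    rw [Finset.sum_const, nsmul_eq_mul, card_range]
    apply le_of_eq
    ring
  have h3 : ∑ h ∈ range H, ∑ h' ∈ (range H).erase h, DP P ((h : ℤ) - h') ^ 2 ≤
      ∑ h ∈ range H, ∑ h' ∈ (range H).erase h, A ((h : ℤ) - h') ^ 2 +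
      ∑ h ∈ range H, ∑ h' ∈ (range H).erase h, (#P : ℝ) ^ 2 := by
    rw [← Finset.sum_add_distrib]
    refine Finset.sum_le_sum fun h _ => ?_
    rw [← Finset.sum_add_distrib]
    exact Finset.sum_le_sum fun h' _ => hsq _
  refine h3.trans ((add_le_add h1 h2).trans ?_)
  have h4 : (#P : ℝ) ^ 2 ≤ X * #P := by nlinarith
  have h5 : (0 : ℝ) ≤ (H : ℝ) ^ 2 := by positivity
  have h6 : (0 : ℝ) ≤ X * #P := by positivity
  nlinarith [mul_le_mul_of_nonneg_right h4 h5, mul_nonneg h6 h5]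

theorem BP_le (X H : ℕ) (P : Finset ℕ) (hP : InX X P) : BP H P ≤ NP P ^ 2 + 8 * H * X * #P := by
  unfold BP
  rcases Nat.eq_zero_or_pos H with h0 | h0
  · subst h0
    simp
    positivity
  · have hH : (0 : ℝ) < H := by exact_mod_cast h0
    rw [div_le_iff₀ hH]
    have h1 : ∑ h ∈ range H, ∑ h' ∈ range H, DP P ((h : ℤ) - h') ^ 2 =
        ∑ h ∈ range H, (NP P ^ 2 + ∑ h' ∈ (range H).erase h, DP P ((h : ℤ) - h') ^ 2) := by
      refine Finset.sum_congr rfl fun h hh => ?_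
      rw [← Finset.add_sum_erase _ _ hh, sub_self, DP_zero]
    rw [h1, Finset.sum_add_distrib, Finset.sum_const, nsmul_eq_mul, card_range]
    have h2 := off_diag X H P hP
    nlinarith

end CS68
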