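import Pool.Agent.LibCS68.B1
import Pool.Agent.LibCS68.C1

set_option autoImplicit false
open Finset

namespace CS68

/-- the trilinear form as a sum over frequencies -/
private theorem D1b_TT (H d : ℕ) (P Q : Finset ℕ) (w : ℕ → ℝ) (f g : ℕ → ℕ → ℝ) :
    ((TT H d P Q w f g : ℝ) : ℂ) =
      (∑ h ∈ range H, ∑ h' ∈ range H,
        (∑ j ∈ U d, (w j : ℂ) * e (((h : ℤ) - h' : ℤ) * ((j : ℝ) / d))) *
        (∑ p ∈ P, ∑ x ∈ U p, (f p x : ℂ) * e (((h : ℤ) - h' : ℤ) * ((x : ℝ) / p))) *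
        (∑ q ∈ Q, ∑ y ∈ U q, (g q y : ℂ) * e (((h : ℤ) - h' : ℤ) * ((y : ℝ) / q)))) / H := by
  have h1 := Fj_trilin H (U d) (P.sigma U) (Q.sigma U) (fun j : ℕ => (j : ℝ) / d)
    (fun α : (_ : ℕ) × ℕ => (α.2 : ℝ) / α.1) (fun α : (_ : ℕ) × ℕ => (α.2 : ℝ) / α.1)
    w (fun α => f α.1 α.2) (fun α => g α.1 α.2)
  have h2 : TT H d P Q w f g = ∑ j ∈ U d, ∑ α ∈ P.sigma U, ∑ β ∈ Q.sigma U,
      w j * f α.1 α.2 * g β.1 β.2 *
        Fj H ((fun j : ℕ => (j : ℝ) / d) j + (fun α : (_ : ℕ) × ℕ => (α.2 : ℝ) / α.1) α +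
          (fun α : (_ : ℕ) × ℕ => (α.2 : ℝ) / α.1) β) := by
    unfold TT
    refine Finset.sum_congr rfl fun j _ => ?_
    rw [Finset.sum_sigma]
    refine Finset.sum_congr rfl fun p _ => Finset.sum_congr rfl fun x _ => ?_
    rw [Finset.sum_sigma]
  rw [h2, h1]
  congr 1
  refine Finset.sum_congr rfl fun h _ => Finset.sum_congr rfl fun h' _ => ?_
  rw [Finset.sum_sigma, Finset.sum_sigma]

private theorem D1b_DP (P : Finset ℕ) (hP : ∀ p ∈ P, p.Prime) (n : ℤ) :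
    ∑ p ∈ P, ∑ x ∈ U p, (((1 : ℝ)) : ℂ) * e ((n : ℝ) * ((x : ℝ) / p)) = ((DP P n : ℝ) : ℂ) := by
  unfold DP
  rw [Complex.ofReal_sum]
  refine Finset.sum_congr rfl fun p hp => ?_
  rw [← sum_U_prime p (hP p hp) n]
  refine Finset.sum_congr rfl fun x _ => ?_
  rw [Complex.ofReal_one, one_mul]

private theorem D1b_e_zero : e 0 = 1 := by
  have := e_int 0
  simpa using this

/-- Row D1b (total mass). Terms `h = h'`: `#(U d) NP P NP Q`; the others at most `#(U d) |DP P| |DP Q|` in absolute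
value, Cauchy-Schwarz and `off_diag`. -/
theorem TT_one (X H d : ℕ) (hH : 0 < H) (P Q : Finset ℕ) (hP : InX X P) (hQ : InX X Q) :
    (#(U d) : ℝ) * (NP P * NP Q - 8 * H * X * √((#P : ℝ) * #Q)) ≤
      TT H d P Q (fun _ => 1) (fun _ _ => 1) (fun _ _ => 1) := by
  have hH0 : (0 : ℝ) < H := by exact_mod_cast hH
  set W : ℤ → ℂ := fun n => ∑ j ∈ U d, (((1 : ℝ)) : ℂ) * e ((n : ℝ) * ((j : ℝ) / d)) with hW
  have hW0 : W 0 = ((#(U d) : ℝ) : ℂ) := by
    rw [hW]
    simp only [Int.cast_zero, zero_mul, D1b_e_zero, mul_one, Complex.ofReal_one, Finset.sum_const,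
      nsmul_eq_mul]
    push_cast
    rfl
  have hWn : ∀ n, ‖W n‖ ≤ #(U d) := by
    intro n
    rw [hW]
    refine (norm_sum_le _ _).trans ?_
    refine (Finset.sum_le_sum fun j _ => ?_).trans (by rw [Finset.sum_const, nsmul_eq_mul, mul_one])
    rw [norm_mul, norm_e, mul_one, Complex.ofReal_one, norm_one]
  -- the formula, real part
  have key : TT H d P Q (fun _ => 1) (fun _ _ => 1) (fun _ _ => 1) =
      (∑ h ∈ range H, ∑ h' ∈ range H,
        (W ((h : ℤ) - h')).re * DP P ((h : ℤ) - h') * DP Q ((h : ℤ) - h')) / H := by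
    have h1 := D1b_TT H d P Q (fun _ => 1) (fun _ _ => 1) (fun _ _ => 1)
    have h2 := congrArg Complex.re h1
    rw [Complex.ofReal_re] at h2
    rw [h2]
    have h3 : ((H : ℂ)) = ((H : ℝ) : ℂ) := by push_cast; rfl
    rw [h3, Complex.div_ofReal_re, Complex.re_sum]
    congr 1
    refine Finset.sum_congr rfl fun h _ => ?_
    rw [Complex.re_sum]
    refine Finset.sum_congr rfl fun h' _ => ?_
    rw [D1b_DP P (fun p hp => (hP p hp).1) ((h : ℤ) - h'),
      D1b_DP Q (fun p hp => (hQ p hp).1) ((h : ℤ) - h'), Complex.re_mul_ofReal,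
      Complex.re_mul_ofReal]
  -- split into diagonal and off-diagonal terms
  have split : ∑ h ∈ range H, ∑ h' ∈ range H,
      (W ((h : ℤ) - h')).re * DP P ((h : ℤ) - h') * DP Q ((h : ℤ) - h') =
      H * (#(U d) * (NP P * NP Q)) + ∑ h ∈ range H, ∑ h' ∈ (range H).erase h,
        (W ((h : ℤ) - h')).re * DP P ((h : ℤ) - h') * DP Q ((h : ℤ) - h') := by
    have h1 : ∀ h ∈ range H, ∑ h' ∈ range H,
        (W ((h : ℤ) - h')).re * DP P ((h : ℤ) - h') * DP Q ((h : ℤ) - h') =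
        #(U d) * (NP P * NP Q) + ∑ h' ∈ (range H).erase h,
          (W ((h : ℤ) - h')).re * DP P ((h : ℤ) - h') * DP Q ((h : ℤ) - h') := by
      intro h hh
      rw [← Finset.add_sum_erase _ _ hh, sub_self, hW0, DP_zero, DP_zero, Complex.ofReal_re]
      ring
    rw [Finset.sum_congr rfl h1, Finset.sum_add_distrib, Finset.sum_const, Finset.card_range,
      nsmul_eq_mul]
  have hU0 : (0 : ℝ) ≤ #(U d) := Nat.cast_nonneg _
  -- the off-diagonal terms
  have off : |∑ h ∈ range H, ∑ h' ∈ (range H).erase h,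
      (W ((h : ℤ) - h')).re * DP P ((h : ℤ) - h') * DP Q ((h : ℤ) - h')| ≤
      #(U d) * (8 * (H : ℝ) ^ 2 * X * √((#P : ℝ) * #Q)) := by
    have h1 : |∑ h ∈ range H, ∑ h' ∈ (range H).erase h,
        (W ((h : ℤ) - h')).re * DP P ((h : ℤ) - h') * DP Q ((h : ℤ) - h')| ≤
        ∑ h ∈ range H, ∑ h' ∈ (range H).erase h,
          #(U d) * (|DP P ((h : ℤ) - h')| * |DP Q ((h : ℤ) - h')|) := by
      refine (Finset.abs_sum_le_sum_abs _ _).trans (Finset.sum_le_sum fun h _ => ?_)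
      refine (Finset.abs_sum_le_sum_abs _ _).trans (Finset.sum_le_sum fun h' _ => ?_)
      rw [abs_mul, abs_mul, mul_assoc]
      refine mul_le_mul_of_nonneg_right ?_ (by positivity)
      exact (Complex.abs_re_le_norm _).trans (hWn _)
    refine h1.trans ?_
    simp only [← Finset.mul_sum]
    refine mul_le_mul_of_nonneg_left ?_ hU0
    have h2 : ∑ h ∈ range H, ∑ h' ∈ (range H).erase h,
        |DP P ((h : ℤ) - h')| * |DP Q ((h : ℤ) - h')| =
        ∑ s ∈ (range H).sigma fun h => (range H).erase h,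
          |DP P ((s.1 : ℤ) - s.2)| * |DP Q ((s.1 : ℤ) - s.2)| := by
      rw [Finset.sum_sigma]
    rw [h2]
    refine (Real.sum_mul_le_sqrt_mul_sqrt _ _ _).trans ?_
    rw [Finset.sum_sigma, Finset.sum_sigma]
    simp only [sq_abs]
    rw [← Real.sqrt_mul (Finset.sum_nonneg fun h _ => Finset.sum_nonneg fun h' _ => sq_nonneg _)]
    have h3 : 8 * (H : ℝ) ^ 2 * X * √((#P : ℝ) * #Q) =
        √((8 * (H : ℝ) ^ 2 * X * #P) * (8 * (H : ℝ) ^ 2 * X * #Q)) := by
      have h4 : (8 * (H : ℝ) ^ 2 * X * #P) * (8 * (H : ℝ) ^ 2 * X * #Q) =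
          (8 * (H : ℝ) ^ 2 * X) ^ 2 * ((#P : ℝ) * #Q) := by ring
      rw [h4, Real.sqrt_mul (sq_nonneg _), Real.sqrt_sq (by positivity)]
    rw [h3]
    refine Real.sqrt_le_sqrt ?_
    exact mul_le_mul (off_diag X H P hP) (off_diag X H Q hQ)
      (Finset.sum_nonneg fun h _ => Finset.sum_nonneg fun h' _ => sq_nonneg _) (by positivity)
  rw [key, split, le_div_iff₀ hH0]
  have h5 := (abs_le.1 off).1
  nlinarith [h5]

private theorem D1b_conj_e (t : ℝ) : (starRingEnd ℂ) (e t) = e (-t) := by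
  unfold e
  rw [← Complex.exp_conj]
  congr 1
  simp only [map_mul, Complex.conj_I, Complex.conj_ofReal, Complex.ofReal_neg]
  have : (starRingEnd ℂ) 2 = 2 := map_ofNat _ 2
  rw [this]
  ring

private theorem D1b_mem {p x : ℕ} (hp : p.Prime) : x ∈ U p ↔ 0 < x ∧ x < p := by
  unfold U
  rw [Finset.mem_filter, Finset.mem_range]
  constructor
  · rintro ⟨h1, h2⟩
    refine ⟨Nat.pos_of_ne_zero ?_, h1⟩
    rintro rfl
    rw [Nat.coprime_zero_left] at h2
    exact hp.one_lt.ne' h2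
  · rintro ⟨h1, h2⟩
    refine ⟨h2, ?_⟩
    rw [Nat.coprime_comm, hp.coprime_iff_not_dvd]
    exact fun hd => absurd (Nat.le_of_dvd h1 hd) (by omega)

private theorem D1b_real (p : ℕ) (hp : p.Prime) (f : ℕ → ℝ) (hf : ∀ x ∈ U p, f (p - x) = f x)
    (n : ℤ) : (starRingEnd ℂ) (∑ x ∈ U p, (f x : ℂ) * e ((n : ℝ) * ((x : ℝ) / p))) =
      ∑ x ∈ U p, (f x : ℂ) * e ((n : ℝ) * ((x : ℝ) / p)) := by
  rw [map_sum]
  refine Finset.sum_bij' (fun x _ => p - x) (fun x _ => p - x) ?_ ?_ ?_ ?_ ?_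
  · intro x hx
    rw [D1b_mem hp] at hx ⊢
    omega
  · intro x hx
    rw [D1b_mem hp] at hx ⊢
    omega
  · intro x hx
    rw [D1b_mem hp] at hx
    show p - (p - x) = x
    omega
  · intro x hx
    rw [D1b_mem hp] at hx
    show p - (p - x) = x
    omega
  · intro x hx
    rw [hf x hx, map_mul, Complex.conj_ofReal, D1b_conj_e]
    congr 1
    have hx' := (D1b_mem hp).1 hx
    have hp0 : (p : ℝ) ≠ 0 := by
      have := hp.pos
      exact_mod_cast this.ne'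
    have h1 : (n : ℝ) * (((p - x : ℕ) : ℝ) / p) = ((n : ℤ) : ℝ) + -((n : ℝ) * ((x : ℝ) / p)) := by
      rw [Nat.cast_sub hx'.2.le]
      field_simp
      ring
    rw [h1, e_add, e_int, one_mul]

/-- Row D1c (two equal even functions, `d = 1`). `f p (p - x) = f p x` makes `∑_x f e(n x / p)` real, so the form is
`(1/H) ∑_{h,h'} (real)^2`. (`U 1 = {0}`.) -/
theorem TT_nonneg (H : ℕ) (P : Finset ℕ) (hP : ∀ p ∈ P, p.Prime) (f : ℕ → ℕ → ℝ)
    (hf : ∀ p x, x ∈ U p → f p (p - x) = f p x) : 0 ≤ TT H 1 P P (fun _ => 1) f f := by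
  set F : ℤ → ℂ := fun n => ∑ p ∈ P, ∑ x ∈ U p, (f p x : ℂ) * e ((n : ℝ) * ((x : ℝ) / p)) with hF
  have hconj : ∀ n, (starRingEnd ℂ) (F n) = F n := by
    intro n
    rw [hF]
    simp only
    rw [map_sum]
    exact Finset.sum_congr rfl fun p hp => D1b_real p (hP p hp) (f p) (fun x hx => hf p x hx) n
  have hU : U 1 = {0} := by
    ext x
    unfold U
    rw [Finset.mem_filter, Finset.mem_range, Finset.mem_singleton]
    constructor
    · rintro ⟨h1, -⟩
      omega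
    · rintro rfl
      exact ⟨one_pos, Nat.coprime_one_right 0⟩
  have h1 := D1b_TT H 1 P P (fun _ => 1) f f
  have h2 : (∑ h ∈ range H, ∑ h' ∈ range H,
        (∑ j ∈ U 1, (((1 : ℝ)) : ℂ) * e (((h : ℤ) - h' : ℤ) * ((j : ℝ) / (1 : ℕ)))) *
        (∑ p ∈ P, ∑ x ∈ U p, (f p x : ℂ) * e (((h : ℤ) - h' : ℤ) * ((x : ℝ) / p))) *
        (∑ q ∈ P, ∑ y ∈ U q, (f q y : ℂ) * e (((h : ℤ) - h' : ℤ) * ((y : ℝ) / q)))) / (H : ℂ) =
      (((∑ h ∈ range H, ∑ h' ∈ range H, Complex.normSq (F ((h : ℤ) - h'))) / (H : ℝ) : ℝ) : ℂ) := by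
    rw [Complex.ofReal_div, Complex.ofReal_sum, Complex.ofReal_natCast]
    congr 1
    refine Finset.sum_congr rfl fun h _ => ?_
    rw [Complex.ofReal_sum]
    refine Finset.sum_congr rfl fun h' _ => ?_
    rw [hU, Finset.sum_singleton, Nat.cast_zero, zero_div, mul_zero, D1b_e_zero, mul_one,
      Complex.ofReal_one, one_mul, ← Complex.mul_conj, hconj]
  rw [h2] at h1
  rw [Complex.ofReal_inj.1 h1]
  exact div_nonneg (Finset.sum_nonneg fun h _ => Finset.sum_nonneg fun h' _ =>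
    Complex.normSq_nonneg _) (Nat.cast_nonneg _)

end CS68
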