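import Pool.Agent.LibCS68.B1
import Pool.Agent.LibCS68.C1

set_option autoImplicit false
open Finset

namespace CS68

theorem D1a_cs (H : ℕ) (F G : ℕ → ℕ → ℝ) :
    ∑ h ∈ range H, ∑ h' ∈ range H, F h h' * G h h' ≤
      √(∑ h ∈ range H, ∑ h' ∈ range H, F h h' ^ 2) * √(∑ h ∈ range H, ∑ h' ∈ range H, G h h' ^ 2) := by
  have h1 := Real.sum_mul_le_sqrt_mul_sqrt (range H ×ˢ range H) (fun z => F z.1 z.2)
    (fun z => G z.1 z.2)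
  rw [Finset.sum_product, Finset.sum_product, Finset.sum_product] at h1
  exact h1

theorem D1a_sig (H : ℕ) (P : Finset ℕ) (hP : ∀ p ∈ P, p.Prime) (f : ℕ → ℕ → ℝ)
    (hf : ∀ p x, |f p x| ≤ 1) :
    ∑ h ∈ range H, ∑ h' ∈ range H, ‖∑ α ∈ P.sigma U, (f α.1 α.2 : ℂ) *
      e (((h : ℤ) - h' : ℤ) * ((α.2 : ℝ) / (α.1 : ℝ)))‖ ^ 2 ≤ H * BP H P := by
  have h1 := major H (P.sigma U) (fun α : Σ _ : ℕ, ℕ => (α.2 : ℝ) / (α.1 : ℝ))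
    (fun α => f α.1 α.2) (fun α _ => hf α.1 α.2)
  refine h1.trans ?_
  have h2 : ∀ n : ℤ, ‖∑ α ∈ P.sigma U, e ((n : ℝ) * ((α.2 : ℝ) / (α.1 : ℝ)))‖ ^ 2 = DP P n ^ 2 := by
    intro n
    rw [Finset.sum_sigma]
    have h3 : ∑ p ∈ P, ∑ x ∈ U p, e ((n : ℝ) * ((x : ℝ) / (p : ℝ))) = ((DP P n : ℝ) : ℂ) := by
      unfold DP
      rw [Complex.ofReal_sum]
      exact Finset.sum_congr rfl fun p hp => sum_U_prime p (hP p hp) n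
    rw [h3, Complex.norm_real, Real.norm_eq_abs, sq_abs]
  have h4 : ∑ h ∈ range H, ∑ h' ∈ range H,
      ‖∑ α ∈ P.sigma U, e ((((h : ℤ) - h' : ℤ) : ℝ) * ((α.2 : ℝ) / (α.1 : ℝ)))‖ ^ 2 =
      ∑ h ∈ range H, ∑ h' ∈ range H, DP P ((h : ℤ) - h') ^ 2 :=
    Finset.sum_congr rfl fun h _ => Finset.sum_congr rfl fun h' _ => h2 _
  rw [h4]
  unfold BP
  rcases Nat.eq_zero_or_pos H with h0 | h0
  · subst h0
    simp
  · have : (0 : ℝ) < H := by exact_mod_cast h0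
    rw [mul_div_cancel₀ _ this.ne']

/-- Row D1a (upper bound, arbitrary functions). `Fj_trilin` with `ι₂ = ι₃ = Σ _ : ℕ, ℕ`, `A = P.sigma U`
(`Finset.sum_sigma`), Cauchy-Schwarz over `(h, h')`, `major`, `sum_U_prime`. -/
theorem TT_le (H d : ℕ) (P Q : Finset ℕ) (hP : ∀ p ∈ P, p.Prime) (hQ : ∀ q ∈ Q, q.Prime)
    (w : ℕ → ℝ) (f g : ℕ → ℕ → ℝ) (hf : ∀ p x, |f p x| ≤ 1) (hg : ∀ q y, |g q y| ≤ 1)
    (ρ : ℝ) (hρ : ∀ n : ℤ, ‖∑ j ∈ U d, (w j : ℂ) * e ((n : ℝ) * ((j : ℝ) / d))‖ ≤ ρ) :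
    |TT H d P Q w f g| ≤ ρ * (√(BP H P) * √(BP H Q)) := by
  have hρ0 : 0 ≤ ρ := (norm_nonneg _).trans (hρ 0)
  have h1 := Fj_trilin H (U d) (P.sigma U) (Q.sigma U) (fun j => (j : ℝ) / d)
    (fun α : Σ _ : ℕ, ℕ => (α.2 : ℝ) / (α.1 : ℝ)) (fun β : Σ _ : ℕ, ℕ => (β.2 : ℝ) / (β.1 : ℝ))
    w (fun α => f α.1 α.2) (fun β => g β.1 β.2)
  have h2 : (∑ j ∈ U d, ∑ α ∈ P.sigma U, ∑ β ∈ Q.sigma U, w j * f α.1 α.2 * g β.1 β.2 *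
      Fj H ((j : ℝ) / d + (α.2 : ℝ) / (α.1 : ℝ) + (β.2 : ℝ) / (β.1 : ℝ))) =
      TT H d P Q w f g := by
    unfold TT
    refine Finset.sum_congr rfl fun j _ => ?_
    rw [Finset.sum_sigma]
    refine Finset.sum_congr rfl fun p _ => Finset.sum_congr rfl fun x _ => ?_
    rw [Finset.sum_sigma]
  rw [h2] at h1
  have h3 : |TT H d P Q w f g| = ‖((TT H d P Q w f g : ℝ) : ℂ)‖ := by
    rw [Complex.norm_real, Real.norm_eq_abs]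
  rw [h3, h1, norm_div, Complex.norm_natCast]
  set FF : ℕ → ℕ → ℝ := fun h h' => ‖∑ α ∈ P.sigma U, (f α.1 α.2 : ℂ) *
      e (((h : ℤ) - h' : ℤ) * ((α.2 : ℝ) / (α.1 : ℝ)))‖ with hFF
  set GG : ℕ → ℕ → ℝ := fun h h' => ‖∑ α ∈ Q.sigma U, (g α.1 α.2 : ℂ) *
      e (((h : ℤ) - h' : ℤ) * ((α.2 : ℝ) / (α.1 : ℝ)))‖ with hGG
  have h4 : ‖∑ h ∈ range H, ∑ h' ∈ range H,
      (∑ j ∈ U d, (w j : ℂ) * e (((h : ℤ) - h' : ℤ) * ((j : ℝ) / d))) *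
        (∑ α ∈ P.sigma U, (f α.1 α.2 : ℂ) * e (((h : ℤ) - h' : ℤ) * ((α.2 : ℝ) / (α.1 : ℝ)))) *
        (∑ β ∈ Q.sigma U, (g β.1 β.2 : ℂ) * e (((h : ℤ) - h' : ℤ) * ((β.2 : ℝ) / (β.1 : ℝ))))‖ ≤
      ρ * ∑ h ∈ range H, ∑ h' ∈ range H, FF h h' * GG h h' := by
    rw [Finset.mul_sum]
    refine (norm_sum_le _ _).trans (Finset.sum_le_sum fun h _ => ?_)
    rw [Finset.mul_sum]
    refine (norm_sum_le _ _).trans (Finset.sum_le_sum fun h' _ => ?_)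
    rw [norm_mul, norm_mul, mul_assoc]
    exact mul_le_mul_of_nonneg_right (hρ ((h : ℤ) - h')) (mul_nonneg (norm_nonneg _) (norm_nonneg _))
  have h5 := D1a_cs H FF GG
  have h6 : √(∑ h ∈ range H, ∑ h' ∈ range H, FF h h' ^ 2) ≤ √(H * BP H P) :=
    Real.sqrt_le_sqrt (D1a_sig H P hP f hf)
  have h7 : √(∑ h ∈ range H, ∑ h' ∈ range H, GG h h' ^ 2) ≤ √(H * BP H Q) :=
    Real.sqrt_le_sqrt (D1a_sig H Q hQ g hg)
  have h8 : ∑ h ∈ range H, ∑ h' ∈ range H, FF h h' * GG h h' ≤ H * (√(BP H P) * √(BP H Q)) := by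
    refine h5.trans ((mul_le_mul h6 h7 (Real.sqrt_nonneg _) (Real.sqrt_nonneg _)).trans (le_of_eq ?_))
    rw [Real.sqrt_mul (Nat.cast_nonneg H), Real.sqrt_mul (Nat.cast_nonneg H)]
    have h9 : √(H : ℝ) * √(H : ℝ) = H := Real.mul_self_sqrt (Nat.cast_nonneg H)
    linear_combination (√(BP H P) * √(BP H Q)) * h9
  rcases Nat.eq_zero_or_pos H with h0 | h0
  · subst h0
    simp only [Nat.cast_zero, div_zero]
    positivity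
  · have hH : (0 : ℝ) < H := by exact_mod_cast h0
    rw [div_le_iff₀ hH]
    refine h4.trans ((mul_le_mul_of_nonneg_left h8 hρ0).trans (le_of_eq ?_))
    ring

end CS68
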