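import Pool.Agent.LibCS68.S1

/-!
# Board CS68, second part: ALMOST ALL moduli `c = dpq` (as `d → ∞`)

For `a ∈ AA d` (half system), `V = ∑_a φ_d(a j) s_p(a x) s_q(a y)`; its second moment over the pairs of fractions is
small because `∑_j φ_d(a j) φ_d(a' j) e(nj/d) ≪ d^(3/4)` for `a' ≠ ± a`, while `∑_a |φ_d(a j)| ≥ d/5` always.
-/

set_option autoImplicit false
open Finset

namespace CS68

/-- normalised Kloosterman sum `S(b r^2,1;d)/√d` -/
noncomputable def ph (d : ℕ) (b r : ℤ) : ℝ := (kl (b * r ^ 2) 1 d).re / √(d : ℝ)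

/-- the multipliers -/
def AA (d : ℕ) : Finset ℕ := Icc 1 ((d - 1) / 2)

/-- `∑_{a} φ_d(a j) s_p(a x) s_q(a y)` -/
noncomputable def VV (d p q : ℕ) (b : ℤ) (j x y : ℕ) : ℝ :=
  ∑ a ∈ AA d, ph d b (a * j) * sg p b (a * x) * sg q b (a * y)

end CS68
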