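import Mathlib

/-!
# Board CS68: signs of conjugate Kloosterman sums for products of three primes (MP_6ea630_nt)

NOTATION. `e t = exp(2 π i t)`; `U c` reduced residues `0 ≤ x < c`; `Fj H` the Fejer kernel
`|∑_{h<H} e(ht)|^2 / H ≥ 0`; points `x/p`, `p ∈ P` (primes in `(X, 2X]`), `x ∈ U p`.
-/

set_option autoImplicit false
open Finset

namespace CS68

/-- `e(t) = exp(2 π i t)` -/
noncomputable def e (t : ℝ) : ℂ := Complex.exp (2 * Real.pi * Complex.I * t)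

/-- the reduced residues modulo `c` -/
def U (c : ℕ) : Finset ℕ := (range c).filter (fun x => x.Coprime c)

/-- the Fejer kernel -/
noncomputable def Fj (H : ℕ) (t : ℝ) : ℝ := ‖∑ h ∈ range H, e (h * t)‖ ^ 2 / H

/-- `∑_{p ∈ P} c_p(n)`, Ramanujan sums of primes -/
noncomputable def DP (P : Finset ℕ) (n : ℤ) : ℝ :=
  ∑ p ∈ P, ((if (p : ℤ) ∣ n then (p : ℝ) else 0) - 1)

/-- number of the points `x/p` -/
noncomputable def NP (P : Finset ℕ) : ℝ := ∑ p ∈ P, ((p : ℝ) - 1)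

/-- `(1/H) ∑_{h,h' < H} (∑_{p ∈ P} c_p(h - h'))^2` -/
noncomputable def BP (H : ℕ) (P : Finset ℕ) : ℝ :=
  (∑ h ∈ range H, ∑ h' ∈ range H, DP P ((h : ℤ) - h') ^ 2) / H

/-- all members of `P` are primes in `(X, 2X]` -/
def InX (X : ℕ) (P : Finset ℕ) : Prop := ∀ p ∈ P, p.Prime ∧ X < p ∧ p ≤ 2 * X

/-- the trilinear form -/
noncomputable def TT (H d : ℕ) (P Q : Finset ℕ) (w : ℕ → ℝ) (f g : ℕ → ℕ → ℝ) : ℝ :=
  ∑ j ∈ U d, ∑ p ∈ P, ∑ x ∈ U p, ∑ q ∈ Q, ∑ y ∈ U q,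
    w j * f p x * g q y * Fj H ((j : ℝ) / d + (x : ℝ) / p + (y : ℝ) / q)

/-- the integers `r`, `|r| ≤ M`, with `r/(dpq) = j/d + x/p + y/q` mod 1 for some `(j,x,y)` with `Bad j x y` -/
noncomputable def RS (M d p q : ℕ) (Bad : ℕ → ℕ → ℕ → Prop) : Finset ℤ := by
  classical
  exact (Icc (-(M : ℤ)) M).filter (fun r => ∃ j ∈ U d, ∃ x ∈ U p, ∃ y ∈ U q, Bad j x y ∧
    ((d * p * q : ℕ) : ℤ) ∣ r - ((j * (p * q) + x * (d * q) + y * (d * p) : ℕ) : ℤ))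

/-- The Kloosterman sum `S(m,n;c)`, `c ≥ 1`: the sum over `0 ≤ x < c` coprime to `c` of
`exp(2 π i (m x + n x⁻¹) / c)`, where `x⁻¹` is the inverse modulo `c`. -/
noncomputable def kl (m n : ℤ) (c : ℕ) : ℂ :=
  ∑ x ∈ (range c).filter (fun x => x.Coprime c),
    Complex.exp (2 * Real.pi * Complex.I *
      ((((m : ZMod c) * (x : ZMod c) + (n : ZMod c) * (x : ZMod c)⁻¹).val : ℕ) : ℂ) / c)

/-- the sign of `S(b r^2, 1; c)` -/
noncomputable def sg (c : ℕ) (b r : ℤ) : ℝ := if 0 < (kl (b * r ^ 2) 1 c).re then 1 else -1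

end CS68
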