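import Pool.Agent.LibCS68.B1

set_option autoImplicit false
open Finset

namespace CS68

private theorem E1_root (n : ℤ) (p : ℕ) (hp : 0 < p) (hn : ¬ (p : ℤ) ∣ n) :
    e ((n : ℝ) / p) ≠ 1 := by
  intro h
  unfold e at h
  rw [Complex.exp_eq_one_iff] at h
  obtain ⟨m, hm⟩ := h
  apply hn
  refine ⟨m, ?_⟩
  have hpi : (2 * Real.pi * Complex.I : ℂ) ≠ 0 := Complex.two_pi_I_ne_zero
  have h1 : (2 * Real.pi * Complex.I : ℂ) * (((n : ℝ) / p : ℝ) : ℂ) =
      (2 * Real.pi * Complex.I) * m := by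
    rw [hm]
    ring
  have h2 := mul_left_cancel₀ hpi h1
  push_cast at h2
  have hp' : (p : ℂ) ≠ 0 := by exact_mod_cast hp.ne'
  rw [div_eq_iff hp'] at h2
  have h3 : (n : ℂ) = ((m * p : ℤ) : ℂ) := by
    push_cast
    exact h2
  have h4 : n = m * p := by exact_mod_cast h3
  rw [h4, mul_comm]

private theorem E1_geom (n : ℤ) (p : ℕ) (hp : 0 < p) (t : ℝ) :
    ‖∑ k ∈ range p, e ((n : ℝ) * (t + (k : ℝ) / p))‖ ≤ if (p : ℤ) ∣ n then (p : ℝ) else 0 := by
  have hterm : ∀ k : ℕ, e ((n : ℝ) * (t + (k : ℝ) / p)) = e ((n : ℝ) * t) * e ((n : ℝ) / p) ^ k := by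
    intro k
    have h1 : e ((n : ℝ) / p) ^ k = e ((n : ℝ) / p * k) := by
      unfold e
      rw [← Complex.exp_nat_mul]
      congr 1
      push_cast
      ring
    rw [h1, ← e_add]
    congr 1
    ring
  split_ifs with hn
  · refine (norm_sum_le _ _).trans ?_
    rw [Finset.sum_congr rfl fun k _ => norm_e _]
    simp
  · rw [Finset.sum_congr rfl fun k _ => hterm k, ← Finset.mul_sum]
    have h1 := mul_geom_sum (e ((n : ℝ) / p)) p
    have h2 : e ((n : ℝ) / p) ^ p = 1 := by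
      have h3 : e ((n : ℝ) / p) ^ p = e n := by
        unfold e
        rw [← Complex.exp_nat_mul]
        congr 1
        push_cast
        have hp' : (p : ℂ) ≠ 0 := by exact_mod_cast hp.ne'
        field_simp
      rw [h3, e_int]
    rw [h2, sub_self] at h1
    rcases mul_eq_zero.1 h1 with h3 | h3
    · exact absurd (sub_eq_zero.1 h3) (E1_root n p hp hn)
    · rw [h3, mul_zero, norm_zero]

private theorem E1_count (H p : ℕ) (hp : 0 < p) (h : ℕ) :
    ((range H).filter fun h' : ℕ => (p : ℤ) ∣ (h : ℤ) - h').card ≤ H / p + 1 := by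
  have h1 : ((range H).filter fun h' : ℕ => (p : ℤ) ∣ (h : ℤ) - h').card =
      Nat.count (· ≡ h [MOD p]) H := by
    rw [Nat.count_eq_card_filter_range]
    congr 1
    ext a
    simp only [mem_filter]
    refine and_congr_right fun _ => ?_
    rw [← Int.natCast_modEq_iff, Int.modEq_iff_dvd]
  rw [h1, Nat.count_modEq_card _ hp]
  split_ifs <;> omega

private theorem E1_sum (H p : ℕ) (hH : 0 < H) (hp : 0 < p) (t : ℝ) :
    ∑ k ∈ range p, Fj H (t + (k : ℝ) / p) ≤ (p : ℝ) + H := by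
  have hH' : (0 : ℝ) < H := by exact_mod_cast hH
  have h0 : 0 ≤ ∑ k ∈ range p, Fj H (t + (k : ℝ) / p) := Finset.sum_nonneg fun k _ => Fj_nonneg _ _
  have h1 : ((∑ k ∈ range p, Fj H (t + (k : ℝ) / p) : ℝ) : ℂ) =
      (∑ h ∈ range H, ∑ h' ∈ range H, ∑ k ∈ range p,
        e ((((h : ℤ) - h' : ℤ) : ℝ) * (t + (k : ℝ) / p))) / H := by
    push_cast
    rw [Finset.sum_congr rfl fun k _ => Fj_eq H _, ← Finset.sum_div]
    congr 1
    rw [Finset.sum_comm]
    refine Finset.sum_congr rfl fun h _ => ?_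
    rw [Finset.sum_comm]
    push_cast
    rfl
  have h2 : ∑ k ∈ range p, Fj H (t + (k : ℝ) / p) =
      ‖(∑ h ∈ range H, ∑ h' ∈ range H, ∑ k ∈ range p,
        e ((((h : ℤ) - h' : ℤ) : ℝ) * (t + (k : ℝ) / p)))‖ / H := by
    have h3 := congrArg norm h1
    rw [Complex.norm_real, Real.norm_of_nonneg h0, norm_div, Complex.norm_natCast] at h3
    exact h3
  rw [h2, div_le_iff₀ hH']
  have h4 : ‖(∑ h ∈ range H, ∑ h' ∈ range H, ∑ k ∈ range p,
        e ((((h : ℤ) - h' : ℤ) : ℝ) * (t + (k : ℝ) / p)))‖ ≤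
      ∑ h ∈ range H, ∑ h' ∈ range H, if (p : ℤ) ∣ (h : ℤ) - h' then (p : ℝ) else 0 := by
    refine (norm_sum_le _ _).trans (Finset.sum_le_sum fun h _ => ?_)
    refine (norm_sum_le _ _).trans (Finset.sum_le_sum fun h' _ => ?_)
    exact E1_geom _ p hp t
  refine h4.trans ?_
  have h5 : ∀ h ∈ range H, (∑ h' ∈ range H, if (p : ℤ) ∣ (h : ℤ) - h' then (p : ℝ) else 0) ≤
      (p : ℝ) + H := by
    intro h _
    rw [← Finset.sum_filter, Finset.sum_const, nsmul_eq_mul]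
    have h6 : (((range H).filter fun h' : ℕ => (p : ℤ) ∣ (h : ℤ) - h').card : ℝ) ≤
        ((H / p + 1 : ℕ) : ℝ) := by exact_mod_cast E1_count H p hp h
    have h7 : ((H / p : ℕ) : ℝ) * p ≤ H := by exact_mod_cast Nat.div_mul_le_self H p
    have hp0 : (0 : ℝ) ≤ p := Nat.cast_nonneg _
    calc _ ≤ ((H / p + 1 : ℕ) : ℝ) * p := mul_le_mul_of_nonneg_right h6 hp0
      _ = ((H / p : ℕ) : ℝ) * p + p := by push_cast; ring
      _ ≤ _ := by linarith
  refine (Finset.sum_le_sum h5).trans ?_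
  rw [Finset.sum_const, card_range, nsmul_eq_mul]
  linarith

/-- Row E1 (pairs with the same prime). `Fj ≥ 0`: extend to all `x, y < p`; for each residue `k` of `x + y` there are
`p` pairs; `∑_{k<p} Fj H (t + k/p) = (1/H) ∑_{h,h'} e((h-h')t) p 1[p ∣ h - h'] ≤ (p/H) · H (H/p + 1)`. -/
theorem diag_le (H p : ℕ) (hp : p.Prime) (t : ℝ) :
    ∑ x ∈ U p, ∑ y ∈ U p, Fj H (t + (x : ℝ) / p + (y : ℝ) / p) ≤ (p : ℝ) ^ 2 + H * p := by
  rcases Nat.eq_zero_or_pos H with rfl | hH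
  · have h1 : ∀ t : ℝ, Fj 0 t = 0 := fun t => by simp [Fj]
    simp only [h1, Finset.sum_const_zero]
    positivity
  · have h1 : ∀ x ∈ U p, ∑ y ∈ U p, Fj H (t + (x : ℝ) / p + (y : ℝ) / p) ≤ (p : ℝ) + H := by
      intro x _
      refine (Finset.sum_le_sum_of_subset_of_nonneg (Finset.filter_subset _ _)
        fun y _ _ => Fj_nonneg _ _).trans ?_
      exact E1_sum H p hH hp.pos (t + (x : ℝ) / p)
    refine (Finset.sum_le_sum h1).trans ?_
    rw [Finset.sum_const, nsmul_eq_mul]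
    have h2 : ((U p).card : ℝ) ≤ p := by
      have : (U p).card ≤ p := (Finset.card_filter_le _ _).trans (by rw [card_range])
      exact_mod_cast this
    calc _ ≤ (p : ℝ) * ((p : ℝ) + H) := mul_le_mul_of_nonneg_right h2 (by positivity)
      _ = _ := by ring

end CS68
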