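import Pool.Agent.LibCS68.A1

set_option autoImplicit false
open Finset

namespace CS68

private theorem F1_nat (M : ℕ) (hM : 0 < M) (T : Finset ℕ) (hT : ∀ n ∈ T, M < n) :
    ∑ n ∈ T, 1 / (n : ℝ) ^ 2 ≤ 1 / (M : ℝ) := by
  have h1 : T ⊆ Ioc M (max M (T.sup id)) := by
    intro n hn
    rw [mem_Ioc]
    exact ⟨hT n hn, (Finset.le_sup (f := id) hn).trans (le_max_right _ _)⟩
  calc ∑ n ∈ T, 1 / (n : ℝ) ^ 2 ≤ ∑ n ∈ Ioc M (max M (T.sup id)), 1 / (n : ℝ) ^ 2 :=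
        Finset.sum_le_sum_of_subset_of_nonneg h1 fun n _ _ => by positivity
    _ = ∑ n ∈ Ioc M (max M (T.sup id)), ((n : ℝ) ^ 2)⁻¹ := by simp only [one_div]
    _ ≤ (M : ℝ)⁻¹ - ((max M (T.sup id) : ℕ) : ℝ)⁻¹ :=
        sum_Ioc_inv_sq_le_sub hM.ne' (le_max_left _ _)
    _ ≤ 1 / (M : ℝ) := by
        rw [one_div]
        have : 0 ≤ ((max M (T.sup id) : ℕ) : ℝ)⁻¹ := by positivity
        linarith

private theorem F1_half (M : ℕ) (hM : 0 < M) (S : Finset ℤ) (hS : ∀ r ∈ S, (M : ℤ) < |r|)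
    (hinj : Set.InjOn Int.natAbs (S : Set ℤ)) : ∑ r ∈ S, 1 / (r : ℝ) ^ 2 ≤ 1 / (M : ℝ) := by
  have h1 : ∑ r ∈ S, 1 / (r : ℝ) ^ 2 = ∑ n ∈ S.image Int.natAbs, 1 / (n : ℝ) ^ 2 := by
    rw [Finset.sum_image hinj]
    refine Finset.sum_congr rfl fun r _ => ?_
    have h2 : ((r.natAbs : ℕ) : ℝ) = |(r : ℝ)| := by rw [Nat.cast_natAbs, Int.cast_abs]
    rw [h2, sq_abs]
  rw [h1]
  refine F1_nat M hM _ fun n hn => ?_
  obtain ⟨r, hr, rfl⟩ := Finset.mem_image.1 hn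
  have := hS r hr
  rw [Int.abs_eq_natAbs] at this
  exact_mod_cast this

/-- Row F1a. Tail of `∑ 1/r^2`. -/
theorem sum_inv_sq (M : ℕ) (hM : 0 < M) (S : Finset ℤ) (hS : ∀ r ∈ S, (M : ℤ) < |r|) :
    ∑ r ∈ S, 1 / (r : ℝ) ^ 2 ≤ 2 / (M : ℝ) := by
  rw [← Finset.sum_filter_add_sum_filter_not S (fun r => 0 ≤ r)]
  have h1 := F1_half M hM (S.filter fun r => 0 ≤ r) (fun r hr => hS r (Finset.mem_filter.1 hr).1) (by
    intro a ha b hb hab
    have ha' := (Finset.mem_filter.1 (Finset.mem_coe.1 ha)).2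
    have hb' := (Finset.mem_filter.1 (Finset.mem_coe.1 hb)).2
    omega)
  have h2 := F1_half M hM (S.filter fun r => ¬ 0 ≤ r) (fun r hr => hS r (Finset.mem_filter.1 hr).1)
    (by
    intro a ha b hb hab
    have ha' := (Finset.mem_filter.1 (Finset.mem_coe.1 ha)).2
    have hb' := (Finset.mem_filter.1 (Finset.mem_coe.1 hb)).2
    omega)
  calc _ ≤ 1 / (M : ℝ) + 1 / (M : ℝ) := add_le_add h1 h2
    _ = _ := by ring

private theorem F1_eq {d p q j x y j' x' y' : ℕ} (hd : 0 < d) (hp : 0 < p) (hq : 0 < q)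
    (hdp : d.Coprime p) (hdq : d.Coprime q) (hj : j < d) (hj' : j' < d)
    (h : ((d * p * q : ℕ) : ℤ) ∣ ((j * (p * q) + x * (d * q) + y * (d * p) : ℕ) : ℤ) -
      ((j' * (p * q) + x' * (d * q) + y' * (d * p) : ℕ) : ℤ)) : j = j' := by
  have h1 : (d : ℤ) ∣ ((j * (p * q) + x * (d * q) + y * (d * p) : ℕ) : ℤ) -
      ((j' * (p * q) + x' * (d * q) + y' * (d * p) : ℕ) : ℤ) :=
    (Int.natCast_dvd_natCast.2 ⟨p * q, by ring⟩).trans h
  have h2 : (d : ℤ) ∣ ((j : ℤ) - j') * ((p * q : ℕ) : ℤ) := by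
    have h3 : ((j : ℤ) - j') * ((p * q : ℕ) : ℤ) =
        (((j * (p * q) + x * (d * q) + y * (d * p) : ℕ) : ℤ) -
      ((j' * (p * q) + x' * (d * q) + y' * (d * p) : ℕ) : ℤ)) -
        d * ((x - x') * q + (y - y') * p) := by
      push_cast
      ring
    rw [h3]
    exact dvd_sub h1 (dvd_mul_right _ _)
  have h4 : IsCoprime (d : ℤ) ((p * q : ℕ) : ℤ) :=
    Nat.isCoprime_iff_coprime.2 (hdp.mul_right hdq)
  have h5 := h4.dvd_of_dvd_mul_right h2
  have h6 : (j : ℤ) - j' = 0 := by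
    refine Int.eq_zero_of_abs_lt_dvd h5 ?_
    rw [abs_lt]
    constructor <;> omega
  omega

private theorem F1_mem (M d p q : ℕ) (Bad : ℕ → ℕ → ℕ → Prop) (ρ : ℤ)
    (h1 : -(M : ℤ) ≤ ρ ∧ ρ ≤ M) (h2 : ∃ j ∈ U d, ∃ x ∈ U p, ∃ y ∈ U q, Bad j x y ∧
      ((d * p * q : ℕ) : ℤ) ∣ ρ - ((j * (p * q) + x * (d * q) + y * (d * p) : ℕ) : ℤ)) :
    ρ ∈ RS M d p q Bad := by
  classical
  unfold RS
  refine (@Finset.mem_filter _ _ _ _ _).2 ⟨Finset.mem_Icc.2 h1, h2⟩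

/-- Row F1b (Chinese remainder theorem). With `c = d p q` map `(j,x,y)` to the balanced residue `r`, `|r| ≤ c/2`, of
`j p q + x d q + y d p` mod `c` (`Int.bmod` or `Int.emod_emod_of_dvd`, `ZMod.valMinAbs`); this map is injective on
`U d × U p × U q` and `Fj H (j/d + x/p + y/q) = Fj H (r/c)` (`Fj_add_int`). Terms with `|r| ≤ M` lie in `RS` and are `≤ H`
(`Fj_le`); the others are `≤ c^2/(4 H r^2)` (`Fj_tail`), in total `≤ c^2/(2 H M)` (`sum_inv_sq`). -/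
theorem pair_count (H M d p q : ℕ) (hH : 0 < H) (hM : 0 < M) (hd : 0 < d) (hp : 0 < p) (hq : 0 < q)
    (hdp : d.Coprime p) (hdq : d.Coprime q) (hpq : p.Coprime q) (Bad : ℕ → ℕ → ℕ → Prop)
    [∀ j x y, Decidable (Bad j x y)] :
    ∑ j ∈ U d, ∑ x ∈ U p, ∑ y ∈ U q,
      (if Bad j x y then Fj H ((j : ℝ) / d + (x : ℝ) / p + (y : ℝ) / q) else 0) ≤
      H * (#(RS M d p q Bad) : ℝ) + ((d * p * q : ℕ) : ℝ) ^ 2 / (2 * H * M) := by
  classical
  set c : ℕ := d * p * q with hc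
  have hc0 : 0 < c := by positivity
  have hcR : (0 : ℝ) < c := by exact_mod_cast hc0
  have hHR : (0 : ℝ) < H := by exact_mod_cast hH
  have hMR : (0 : ℝ) < M := by exact_mod_cast hM
  set s : ℕ × ℕ × ℕ → ℤ := fun τ =>
    ((τ.1 * (p * q) + τ.2.1 * (d * q) + τ.2.2 * (d * p) : ℕ) : ℤ) with hs
  set r : ℕ × ℕ × ℕ → ℤ := fun τ => Int.bmod (s τ) c with hr
  have hrs : ∀ τ, ((c : ℕ) : ℤ) ∣ r τ - s τ := by
    intro τ
    have h1 : (r τ) % (c : ℤ) = (s τ) % (c : ℤ) := Int.bmod_emod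
    exact Int.ModEq.dvd (Int.ModEq.symm h1)
  have hr2 : ∀ τ, |((r τ : ℤ) : ℝ) / c| ≤ 1 / 2 := by
    intro τ
    have h1 : -(c : ℤ) ≤ 2 * r τ := by
      have := Int.le_bmod (x := s τ) (m := c) hc0
      simp only [hr]
      omega
    have h2 : 2 * r τ ≤ c := by
      have := Int.bmod_le (x := s τ) (m := c) hc0
      simp only [hr]
      omega
    have h1' : -(c : ℝ) ≤ 2 * (r τ : ℝ) := by exact_mod_cast h1
    have h2' : 2 * (r τ : ℝ) ≤ c := by exact_mod_cast h2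
    rw [abs_div, abs_of_pos hcR, div_le_iff₀ hcR, abs_le]
    constructor <;> linarith
  set T := (U d ×ˢ (U p ×ˢ U q)).filter (fun τ => Bad τ.1 τ.2.1 τ.2.2) with hT
  have hTmem : ∀ τ ∈ T, τ.1 ∈ U d ∧ τ.2.1 ∈ U p ∧ τ.2.2 ∈ U q ∧ Bad τ.1 τ.2.1 τ.2.2 := by
    intro τ hτ
    have h1 := Finset.mem_filter.1 hτ
    have h2 := Finset.mem_product.1 h1.1
    have h3 := Finset.mem_product.1 h2.2
    exact ⟨h2.1, h3.1, h3.2, h1.2⟩
  have hlt : ∀ {n z : ℕ}, z ∈ U n → z < n := fun {n z} hz =>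
    Finset.mem_range.1 (Finset.mem_filter.1 hz).1
  have hinj : Set.InjOn r (T : Set (ℕ × ℕ × ℕ)) := by
    rintro ⟨j, x, y⟩ ha ⟨j', x', y'⟩ hb hab
    obtain ⟨a1, a2, a3, -⟩ := hTmem _ (Finset.mem_coe.1 ha)
    obtain ⟨b1, b2, b3, -⟩ := hTmem _ (Finset.mem_coe.1 hb)
    have h1 : ((c : ℕ) : ℤ) ∣ s (j, x, y) - s (j', x', y') := by
      have h2 := dvd_sub (hrs (j', x', y')) (hrs (j, x, y))
      have h3 : r (j', x', y') - s (j', x', y') - (r (j, x, y) - s (j, x, y)) =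
          s (j, x, y) - s (j', x', y') := by
        rw [hab]
        ring
      rwa [h3] at h2
    have e1 : j = j' := F1_eq hd hp hq hdp hdq (hlt a1) (hlt b1) h1
    have e2 : x = x' := by
      refine F1_eq (d := p) (p := d) (q := q) (j := x) (j' := x') (x := j) (x' := j') (y := y)
        (y' := y') hp hd hq hdp.symm hpq (hlt a2) (hlt b2) ?_
      have h4 : ((p * d * q : ℕ) : ℤ) = ((c : ℕ) : ℤ) := by
        rw [hc]
        push_cast
        ring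
      rw [h4]
      convert h1 using 1
      simp only [hs]
      push_cast
      ring
    have e3 : y = y' := by
      refine F1_eq (d := q) (p := d) (q := p) (j := y) (j' := y') (x := j) (x' := j') (y := x)
        (y' := x') hq hd hp hdq.symm hpq.symm (hlt a3) (hlt b3) ?_
      have h4 : ((q * d * p : ℕ) : ℤ) = ((c : ℕ) : ℤ) := by
        rw [hc]
        push_cast
        ring
      rw [h4]
      convert h1 using 1
      simp only [hs]
      push_cast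
      ring
    rw [e1, e2, e3]
  have hval : ∀ τ : ℕ × ℕ × ℕ, Fj H ((τ.1 : ℝ) / d + (τ.2.1 : ℝ) / p + (τ.2.2 : ℝ) / q) =
      Fj H ((r τ : ℝ) / c) := by
    intro τ
    obtain ⟨m, hm⟩ := hrs τ
    have h1 : (τ.1 : ℝ) / d + (τ.2.1 : ℝ) / p + (τ.2.2 : ℝ) / q = (r τ : ℝ) / c + ((-m : ℤ) : ℝ) := by
      have h2 : (r τ : ℝ) = (s τ : ℝ) + c * m := by
        have : r τ = s τ + c * m := by linarith
        exact_mod_cast this
      have h3 : (s τ : ℝ) = (τ.1 : ℝ) * (p * q) + τ.2.1 * (d * q) + τ.2.2 * (d * p) := by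
        simp only [hs]
        push_cast
        ring
      have hd' : (d : ℝ) ≠ 0 := by exact_mod_cast hd.ne'
      have hp' : (p : ℝ) ≠ 0 := by exact_mod_cast hp.ne'
      have hq' : (q : ℝ) ≠ 0 := by exact_mod_cast hq.ne'
      rw [h2, h3, hc]
      push_cast
      field_simp
      ring
    rw [h1, Fj_add_int]
  have hsum : ∑ j ∈ U d, ∑ x ∈ U p, ∑ y ∈ U q,
      (if Bad j x y then Fj H ((j : ℝ) / d + (x : ℝ) / p + (y : ℝ) / q) else 0) =
      ∑ ρ ∈ T.image r, Fj H ((ρ : ℝ) / c) := by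
    rw [Finset.sum_image hinj, hT, Finset.sum_filter, Finset.sum_product]
    refine Finset.sum_congr rfl fun j _ => ?_
    rw [Finset.sum_product]
    refine Finset.sum_congr rfl fun x _ => Finset.sum_congr rfl fun y _ => ?_
    split_ifs with hB
    · exact hval (j, x, y)
    · rfl
  rw [hsum, ← Finset.sum_filter_add_sum_filter_not (T.image r) (fun ρ => |ρ| ≤ (M : ℤ))]
  refine add_le_add ?_ ?_
  · have h1 : (T.image r).filter (fun ρ => |ρ| ≤ (M : ℤ)) ⊆ RS M d p q Bad := by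
      intro ρ hρ
      obtain ⟨h2, h3⟩ := Finset.mem_filter.1 hρ
      obtain ⟨τ, hτ, rfl⟩ := Finset.mem_image.1 h2
      obtain ⟨a1, a2, a3, a4⟩ := hTmem τ hτ
      exact F1_mem M d p q Bad _ (abs_le.1 h3) ⟨τ.1, a1, τ.2.1, a2, τ.2.2, a3, a4, hrs τ⟩
    calc _ ≤ ∑ ρ ∈ (T.image r).filter (fun ρ => |ρ| ≤ (M : ℤ)), (H : ℝ) :=
          Finset.sum_le_sum fun ρ _ => Fj_le H _
      _ = (((T.image r).filter (fun ρ => |ρ| ≤ (M : ℤ))).card : ℝ) * H := by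
          rw [Finset.sum_const, nsmul_eq_mul]
      _ ≤ (#(RS M d p q Bad) : ℝ) * H := by
          refine mul_le_mul_of_nonneg_right ?_ hHR.le
          exact_mod_cast Finset.card_le_card h1
      _ = _ := by ring
  · have h1 : ∀ ρ ∈ (T.image r).filter (fun ρ => ¬ |ρ| ≤ (M : ℤ)), Fj H ((ρ : ℝ) / c) ≤
        (c : ℝ) ^ 2 / (4 * H) * (1 / (ρ : ℝ) ^ 2) := by
      intro ρ hρ
      obtain ⟨h2, h3⟩ := Finset.mem_filter.1 hρ
      obtain ⟨τ, hτ, rfl⟩ := Finset.mem_image.1 h2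
      have h4 : r τ ≠ 0 := by
        intro h5
        apply h3
        rw [h5]
        simp
      have h5 : (r τ : ℝ) ≠ 0 := by exact_mod_cast h4
      refine (Fj_tail H hH _ (div_ne_zero h5 hcR.ne') (hr2 τ)).trans (le_of_eq ?_)
      field_simp
    refine (Finset.sum_le_sum h1).trans ?_
    rw [← Finset.mul_sum]
    have h2 := sum_inv_sq M hM ((T.image r).filter (fun ρ => ¬ |ρ| ≤ (M : ℤ))) (fun ρ hρ =>
      not_le.1 (Finset.mem_filter.1 hρ).2)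
    calc _ ≤ (c : ℝ) ^ 2 / (4 * H) * (2 / (M : ℝ)) :=
          mul_le_mul_of_nonneg_left h2 (by positivity)
      _ = _ := by
          field_simp
          ring

end CS68
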