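import Pool.Agent.LibCS68.S1

set_option autoImplicit false
open Finset

namespace CS68

/-- the sign modulo `c q` in terms of the signs modulo `c` and `q` -/
private theorem J1a_two (c q : ℕ) (hc : Squarefree c) (hq : Squarefree q) (hcq : c.Coprime q)
    (b r j y : ℤ) (h : ((c * q : ℕ) : ℤ) ∣ r - (j * q + y * c)) :
    sg (c * q) b r = sg c b j * sg q b y := by
  have hcd : (c : ℤ) ∣ ((c * q : ℕ) : ℤ) := by
    push_cast
    exact dvd_mul_right _ _
  have hqd : (q : ℤ) ∣ ((c * q : ℕ) : ℤ) := by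
    push_cast
    exact dvd_mul_left _ _
  refine sg_mul b c q hcq hc hq r j y ?_ ?_
  · have h1 : ((r - (j * q + y * c) : ℤ) : ZMod c) = 0 :=
      (ZMod.intCast_zmod_eq_zero_iff_dvd _ _).2 (hcd.trans h)
    push_cast at h1
    rw [ZMod.natCast_self, mul_zero, add_zero] at h1
    exact sub_eq_zero.1 h1
  · have h1 : ((r - (j * q + y * c) : ℤ) : ZMod q) = 0 :=
      (ZMod.intCast_zmod_eq_zero_iff_dvd _ _).2 (hqd.trans h)
    push_cast at h1
    rw [ZMod.natCast_self, mul_zero, zero_add] at h1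
    exact sub_eq_zero.1 h1

private theorem J1a_three (d p q : ℕ) (hd : Squarefree d) (hp : p.Prime) (hq : q.Prime)
    (hdp : d.Coprime p) (hdq : d.Coprime q) (hpq : p ≠ q) (b r j x y : ℤ)
    (h : ((d * p * q : ℕ) : ℤ) ∣ r - (j * (p * q) + x * (d * q) + y * (d * p))) :
    sg (d * p * q) b r = sg d b j * sg p b x * sg q b y := by
  have hp1 : Squarefree p := hp.squarefree
  have hq1 : Squarefree q := hq.squarefree
  have hpq1 : p.Coprime q := (Nat.coprime_primes hp hq).2 hpq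
  have h1 : sg (d * p * q) b r = sg (d * p) b (j * p + x * d) * sg q b y := by
    refine J1a_two (d * p) q ((Nat.squarefree_mul hdp).2 ⟨hd, hp1⟩) hq1
      (Nat.Coprime.mul_left hdq hpq1) b r _ y ?_
    have h2 : r - (j * (p * q) + x * (d * q) + y * (d * p)) =
        r - ((j * p + x * d) * q + y * ((d * p : ℕ) : ℤ)) := by
      push_cast
      ring
    rw [← h2]
    exact h
  have h3 : sg (d * p) b (j * p + x * d) = sg d b j * sg p b x :=
    J1a_two d p hd hp1 hdp b _ j x (by rw [sub_self]; exact dvd_zero _)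
  rw [h1, h3]

/-- Row J1a. From `RS` to signs (`sg_mul` twice; `c = d p q`). -/
theorem RS_sign (M d p q k : ℕ) (hd : Squarefree d) (hp : p.Prime) (hq : q.Prime)
    (hdp : d.Coprime p) (hdq : d.Coprime q) (hpq : p ≠ q) (b : ℤ) (r : ℤ)
    (hr : r ∈ RS M d p q (fun j x y => sg d b j * sg d b (k * j) * (sg p b x * sg p b (k * x)) *
      (sg q b y * sg q b (k * y)) = -1)) :
    |r| ≤ M ∧ sg (d * p * q) b r * sg (d * p * q) b (k * r) = -1 := by
  classical
  unfold RS at hr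
  rw [Finset.mem_filter, Finset.mem_Icc] at hr
  obtain ⟨hM, j, -, x, -, y, -, hbad, hdvd⟩ := hr
  refine ⟨abs_le.2 hM, ?_⟩
  have h0 : ((d * p * q : ℕ) : ℤ) ∣ r - ((j : ℤ) * (p * q) + x * (d * q) + y * (d * p)) := by
    have h1 : ((j * (p * q) + x * (d * q) + y * (d * p) : ℕ) : ℤ) =
        (j : ℤ) * (p * q) + x * (d * q) + y * (d * p) := by push_cast; rfl
    rw [← h1]
    exact hdvd
  have h2 : ((d * p * q : ℕ) : ℤ) ∣ (k : ℤ) * r -
      ((k * j : ℤ) * (p * q) + (k * x) * (d * q) + (k * y) * (d * p)) := by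
    have h3 := h0.mul_left (k : ℤ)
    have h4 : (k : ℤ) * (r - ((j : ℤ) * (p * q) + x * (d * q) + y * (d * p))) = (k : ℤ) * r -
      ((k * j : ℤ) * (p * q) + (k * x) * (d * q) + (k * y) * (d * p)) := by ring
    rwa [h4] at h3
  rw [J1a_three d p q hd hp hq hdp hdq hpq b r j x y h0,
    J1a_three d p q hd hp hq hdp hdq hpq b (k * r) (k * j) (k * x) (k * y) h2, ← hbad]
  ring

/-- Row J1b. Same for two primes. -/
theorem RS_sign2 (M p q : ℕ) (hp : p.Prime) (hq : q.Prime) (hpq : p ≠ q) (b : ℤ) (r : ℤ)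
    (hr : r ∈ RS M 1 p q (fun _ x y => sg p b x * sg q b y = 1)) :
    |r| ≤ M ∧ sg (p * q) b r = 1 := by
  classical
  unfold RS at hr
  rw [Finset.mem_filter, Finset.mem_Icc] at hr
  obtain ⟨hM, j, -, x, -, y, -, hbad, hdvd⟩ := hr
  refine ⟨abs_le.2 hM, ?_⟩
  rw [← hbad]
  refine J1a_two p q hp.squarefree hq.squarefree ((Nat.coprime_primes hp hq).2 hpq) b r x y ?_
  have h1 : r - ((x : ℤ) * q + y * p) =
      (r - ((j * (p * q) + x * (1 * q) + y * (1 * p) : ℕ) : ℤ)) + ((p * q : ℕ) : ℤ) * j := by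
    push_cast
    ring
  rw [h1]
  refine dvd_add ?_ (dvd_mul_right _ _)
  have h2 : ((1 * p * q : ℕ) : ℤ) = ((p * q : ℕ) : ℤ) := by rw [one_mul]
  rw [h2] at hdvd
  exact hdvd

end CS68
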