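import Mathlib

set_option autoImplicit false
open Finset

namespace CS68

/-- Row J1c (pure combinatorics). `s` even and `±1`; `R` a set of integers `|r| ≤ M'` with `s(r) s(k r) = -1` (so `r ≠ 0`);
`k M' ≤ M`: at least `#R/4` of the `m ∈ [1, M]` have `s m = 1`, and at least `#R/4` have `s m = -1`
(`#R ≤ 2 #{m}`, and `m ↦ m or k m` is at most two to one). -/
theorem two_signs (s : ℤ → ℝ) (hs : ∀ r, s r = 1 ∨ s r = -1) (hev : ∀ r, s (-r) = s r) (k M M' : ℕ)
    (hk : 0 < k) (hM : k * M' ≤ M) (R : Finset ℤ) (hR : ∀ r ∈ R, |r| ≤ M' ∧ s r * s (k * r) = -1) :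
    (#R : ℝ) ≤ 4 * #((Icc 1 M).filter (fun m : ℕ => s m = 1)) ∧
    (#R : ℝ) ≤ 4 * #((Icc 1 M).filter (fun m : ℕ => s m = -1)) := by
  have habs : ∀ r : ℤ, s ((r.natAbs : ℕ) : ℤ) = s r := by
    intro r
    rcases Int.natAbs_eq r with h | h
    · rw [← h]
    · conv_rhs => rw [h]
      rw [hev]
  have key : ∀ ε : ℝ, (ε = 1 ∨ ε = -1) →
      (#R : ℝ) ≤ 4 * #((Icc 1 M).filter (fun m : ℕ => s m = ε)) := by
    intro ε hε
    classical
    have h1 : #R ≤ 4 * #((Icc 1 M).filter (fun m : ℕ => s m = ε)) := by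
      refine Finset.card_le_mul_card_image_of_maps_to
        (f := fun r : ℤ => if s r = ε then r.natAbs else k * r.natAbs) ?_ 4 ?_
      · intro r hr
        obtain ⟨h2, h3⟩ := hR r hr
        have hr0 : r ≠ 0 := by
          rintro rfl
          rw [mul_zero] at h3
          rcases hs 0 with h4 | h4 <;> rw [h4] at h3 <;> norm_num at h3
        have hpos : 0 < r.natAbs := Int.natAbs_pos.2 hr0
        have hle : r.natAbs ≤ M' := by
          rw [Int.abs_eq_natAbs] at h2
          exact_mod_cast h2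
        have hkle : k * r.natAbs ≤ M := (Nat.mul_le_mul_left k hle).trans hM
        simp only [Finset.mem_filter, Finset.mem_Icc]
        by_cases h4 : s r = ε
        · rw [if_pos h4]
          refine ⟨⟨hpos, ?_⟩, ?_⟩
          · exact (Nat.le_mul_of_pos_left _ hk).trans hkle
          · rw [habs, h4]
        · rw [if_neg h4]
          refine ⟨⟨Nat.mul_pos hk hpos, hkle⟩, ?_⟩
          have h5 : s ((k * r.natAbs : ℕ) : ℤ) = s (k * r) := by
            rw [← habs (k * r), Int.natAbs_mul, Int.natAbs_natCast]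
          rw [h5]
          rcases hs r with h6 | h6 <;> rcases hs (k * r) with h7 | h7 <;> rcases hε with h8 | h8 <;>
            rw [h6, h7] at h3 <;> rw [h6] at h4 <;> rw [h7] <;> rw [h8] at h4 ⊢ <;>
            first
            | rfl
            | exact absurd rfl h4
            | (exfalso; norm_num at h3)
      · intro m _
        have hsub : {r ∈ R | (if s r = ε then r.natAbs else k * r.natAbs) = m} ⊆
            ({(m : ℤ), -(m : ℤ), ((m / k : ℕ) : ℤ), -((m / k : ℕ) : ℤ)} : Finset ℤ) := by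
          intro r hr
          rw [Finset.mem_filter] at hr
          obtain ⟨-, hr⟩ := hr
          simp only [Finset.mem_insert, Finset.mem_singleton]
          by_cases h4 : s r = ε
          · rw [if_pos h4] at hr
            rcases Int.natAbs_eq r with h5 | h5
            · left
              rw [h5, hr]
            · right; left
              rw [h5, hr]
          · rw [if_neg h4] at hr
            have h6 : m / k = r.natAbs := by rw [← hr, Nat.mul_div_cancel_left _ hk]
            rcases Int.natAbs_eq r with h5 | h5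
            · right; right; left
              rw [h6]
              exact h5
            · right; right; right
              rw [h6]
              exact h5
        exact (Finset.card_le_card hsub).trans Finset.card_le_four
    exact_mod_cast h1
  exact ⟨key 1 (Or.inl rfl), key (-1) (Or.inr rfl)⟩

/-- Row J1d (averaging). -/
theorem many_pairs (P Q : Finset ℕ) (M δ : ℝ) (hM : 0 < M) (c : ℕ → ℕ → ℝ)
    (hc : ∀ p ∈ P, ∀ q ∈ Q, c p q ≤ 3 * M) (h : δ * M * #P * #Q ≤ ∑ p ∈ P, ∑ q ∈ Q.erase p, c p q) :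
    δ / 6 * (#P * #Q) ≤ #((P ×ˢ Q).filter (fun z : ℕ × ℕ => z.1 ≠ z.2 ∧ δ / 2 * M ≤ c z.1 z.2)) := by
  classical
  rcases lt_or_ge δ 0 with hδ | hδ
  · refine le_trans ?_ (Nat.cast_nonneg _)
    have h1 : (0 : ℝ) ≤ #P * #Q := by positivity
    nlinarith
  · have h1 : ∑ p ∈ P, ∑ q ∈ Q.erase p, c p q =
        ∑ z ∈ P ×ˢ Q, if z.1 ≠ z.2 then c z.1 z.2 else 0 := by
      rw [Finset.sum_product]
      refine Finset.sum_congr rfl fun p _ => ?_
      rw [← Finset.sum_filter]
      refine Finset.sum_congr ?_ fun _ _ => rfl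
      ext q
      simp only [Finset.mem_erase, Finset.mem_filter]
      constructor
      · rintro ⟨h2, h3⟩
        exact ⟨h3, fun h4 => h2 h4.symm⟩
      · rintro ⟨h2, h3⟩
        exact ⟨fun h4 => h3 h4.symm, h2⟩
    have h2 : ∑ z ∈ P ×ˢ Q, (if z.1 ≠ z.2 then c z.1 z.2 else 0) ≤
        ∑ z ∈ P ×ˢ Q, ((if z.1 ≠ z.2 ∧ δ / 2 * M ≤ c z.1 z.2 then 3 * M else 0) +
          δ / 2 * M) := by
      refine Finset.sum_le_sum fun z hz => ?_
      rw [Finset.mem_product] at hz
      have h3 : 0 ≤ δ / 2 * M := by positivity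
      by_cases h4 : z.1 ≠ z.2
      · rw [if_pos h4]
        by_cases h5 : δ / 2 * M ≤ c z.1 z.2
        · rw [if_pos ⟨h4, h5⟩]
          have := hc z.1 hz.1 z.2 hz.2
          linarith
        · rw [if_neg (fun h6 => h5 h6.2)]
          push Not at h5
          linarith
      · rw [if_neg h4, if_neg (fun h6 => h4 h6.1)]
        linarith
    have h6 : (∑ x ∈ P ×ˢ Q, if x.1 ≠ x.2 ∧ δ / 2 * M ≤ c x.1 x.2 then 3 * M else 0) =
        #((P ×ˢ Q).filter (fun z : ℕ × ℕ => z.1 ≠ z.2 ∧ δ / 2 * M ≤ c z.1 z.2)) * (3 * M) := by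
      rw [← Finset.sum_filter, Finset.sum_const, nsmul_eq_mul]
    rw [Finset.sum_add_distrib, h6, Finset.sum_const, Finset.card_product, nsmul_eq_mul] at h2
    rw [h1] at h
    have h3 := h.trans h2
    push_cast at h3
    have h4 : M * (δ / 6 * (#P * #Q)) ≤ M *
        #((P ×ˢ Q).filter (fun z : ℕ × ℕ => z.1 ≠ z.2 ∧ δ / 2 * M ≤ c z.1 z.2)) := by
      linarith
    exact le_of_mul_le_mul_left h4 hM

end CS68
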