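import Pool.Agent.LibCS68.S2b

set_option autoImplicit false
open Finset

namespace CS68

private theorem S2c_two (x y : ℂ) (hx : ‖x‖ = 1) (hy : ‖y‖ = 1) (h : x ≠ y) : ‖x + y‖ < 2 := by
  have h1 := parallelogram_law_with_norm ℝ x y
  rw [hx, hy] at h1
  have h2 : 0 < ‖x - y‖ := norm_pos_iff.2 (sub_ne_zero.2 h)
  have h3 := norm_nonneg (x + y)
  nlinarith

private theorem S2c_strict {ι : Type} [DecidableEq ι] (s : Finset ι) (f : ι → ℂ)
    (hf : ∀ i ∈ s, ‖f i‖ = 1) {a c : ι} (ha : a ∈ s) (hc : c ∈ s) (hne : f a ≠ f c) :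
    ‖∑ i ∈ s, f i‖ < #s := by
  have hac : a ≠ c := fun h => hne (by rw [h])
  have hc' : c ∈ s.erase a := Finset.mem_erase.2 ⟨hac.symm, hc⟩
  rw [← Finset.add_sum_erase s f ha, ← Finset.add_sum_erase (s.erase a) f hc', ← add_assoc]
  have h1 : ‖∑ i ∈ (s.erase a).erase c, f i‖ ≤ #((s.erase a).erase c) := by
    refine (norm_sum_le _ _).trans ?_
    rw [Finset.sum_congr rfl fun i hi =>
      hf i (Finset.mem_of_mem_erase (Finset.mem_of_mem_erase hi))]
    simp
  have h2 : ‖f a + f c‖ < 2 := S2c_two _ _ (hf a ha) (hf c hc) hne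
  have h3 : (#((s.erase a).erase c) : ℝ) = #s - 2 := by
    have e1 := Finset.card_erase_add_one ha
    have e2 := Finset.card_erase_add_one hc'
    have e3 : #((s.erase a).erase c) + 2 = #s := by omega
    have e4 : ((#((s.erase a).erase c) + 2 : ℕ) : ℝ) = #s := by rw [e3]
    push_cast at e4
    linarith
  have h4 := norm_add_le (f a + f c) (∑ i ∈ (s.erase a).erase c, f i)
  linarith

private theorem S2c_mem {d : ℕ} [Fact d.Prime] {x : ℕ} : x ∈ U d ↔ x < d ∧ x.Coprime d := by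
  rw [U, Finset.mem_filter, Finset.mem_range]

private theorem S2c_nonconst (d : ℕ) [Fact d.Prime] (h3 : d % 4 = 3) (h7 : 3 < d) (b : ℤ)
    (hb : ¬ (d : ℤ) ∣ b) :
    ∃ k ∈ U d, ∃ j₁ ∈ U d, ∃ j₂ ∈ U d, sg d b j₁ * sg d b (k * j₁) = 1 ∧
      sg d b j₂ * sg d b (k * j₂) = -1 := by
  have hd : d.Prime := Fact.out
  have h1U : 1 ∈ U d := S2c_mem.2 ⟨hd.one_lt, Nat.coprime_one_left d⟩
  by_contra hcon
  push Not at hcon
  have hw : ∀ k j : ℕ, sg d b j * sg d b ((k : ℤ) * j) = 1 ∨ sg d b j * sg d b ((k : ℤ) * j) = -1 := by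
    intro k j
    rcases sg_or d b j with e1 | e1 <;> rcases sg_or d b ((k : ℤ) * j) with e2 | e2 <;>
      rw [e1, e2] <;> norm_num
  have hconst : ∀ k ∈ U d, ∀ j ∈ U d, ∀ j' ∈ U d,
      sg d b j * sg d b ((k : ℤ) * j) = sg d b j' * sg d b ((k : ℤ) * j') := by
    intro k hk j hj j' hj'
    rcases hw k j with e1 | e1 <;> rcases hw k j' with e2 | e2
    · rw [e1, e2]
    · exact absurd e2 (hcon k hk j hj j' hj' e1)
    · exact absurd e1 (hcon k hk j' hj' j hj e2)
    · rw [e1, e2]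
  have hsq : ∀ k ∈ U d, sg d b ((k : ℤ) * k) = sg d b 1 := by
    intro k hk
    have e1 := hconst k hk k hk 1 h1U
    rw [Nat.cast_one, mul_one] at e1
    rcases sg_or d b k with e2 | e2 <;> rw [e2] at e1 <;> linarith
  have hall : ∀ j ∈ U d, sg d b j = sg d b 1 := by
    intro j hj
    obtain ⟨hj1, hj2⟩ := S2c_mem.1 hj
    have hj0 : (j : ZMod d) ≠ 0 := by
      intro h
      rw [ZMod.natCast_eq_zero_iff] at h
      have := Nat.eq_one_of_dvd_coprimes hj2 h dvd_rfl
      exact hd.one_lt.ne' this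
    have hroot : ∀ r : ZMod d, r ≠ 0 → sg d b ((r.val : ℤ) * r.val) = sg d b 1 := by
      intro r hr
      refine hsq _ (S2c_mem.2 ⟨ZMod.val_lt r, ?_⟩)
      rw [Nat.coprime_comm, hd.coprime_iff_not_dvd]
      intro h
      have h5 : (r.val : ZMod d) = 0 := (ZMod.natCast_eq_zero_iff _ _).2 h
      rw [ZMod.natCast_zmod_val] at h5
      exact hr h5
    rcases quadraticChar_dichotomy hj0 with h5 | h5
    · rw [quadraticChar_one_iff_isSquare hj0] at h5
      obtain ⟨r, hr⟩ := h5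
      have hr0 : r ≠ 0 := by
        rintro rfl
        rw [mul_zero] at hr
        exact hj0 hr
      rw [← hroot r hr0]
      apply sg_congr
      push_cast
      rw [ZMod.natCast_zmod_val, hr]
    · have h6 : ¬ IsSquare (-1 : ZMod d) := by
        rw [ZMod.exists_sq_eq_neg_one_iff]
        omega
      have h7 : quadraticChar (ZMod d) (-1) = -1 := quadraticChar_neg_one_iff_not_isSquare.2 h6
      have h8 : quadraticChar (ZMod d) (-(j : ZMod d)) = 1 := by
        rw [neg_eq_neg_one_mul, map_mul, h7, h5]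
        norm_num
      rw [quadraticChar_one_iff_isSquare (neg_ne_zero.2 hj0)] at h8
      obtain ⟨r, hr⟩ := h8
      have hr0 : r ≠ 0 := by
        rintro rfl
        rw [mul_zero, neg_eq_zero] at hr
        exact hj0 hr
      rw [← hroot r hr0, ← sg_neg]
      apply sg_congr
      push_cast
      rw [ZMod.natCast_zmod_val, hr]
  obtain ⟨j₁, hj₁, j₂, hj₂, e1, e2⟩ := sg_not_const d h3 h7 b hb
  rw [hall j₁ hj₁] at e1
  rw [hall j₂ hj₂] at e2
  rw [e1] at e2
  norm_num at e2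

/-- Row S2c. The multiplier `k`. Otherwise `s(kj) = ε_k s(j)` for all `k, j`, so `s(j^2) s(1) = s(j) s(j) = 1` for all units,
and `s` is even; as `d = 3` mod 4 every unit is `±` a square, so `s` is constant: contradiction to `sg_not_const`.
Then `ρ`: for `n = 0` mod `d` the sum of the `±1` with both signs occurring is `≤ #(U d) - 2`; for `n ≠ 0` the terms
`w_j e(nj/d)` for `j` and `d - j` are not both equal to the same number (squares `e(2nj/d) ≠ e(-2nj/d)`), so the sum is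
`< #(U d)`; finitely many `n` mod `d`. -/
theorem exists_k (d : ℕ) [Fact d.Prime] (h3 : d % 4 = 3) (h7 : 3 < d) (b : ℤ) (hb : ¬ (d : ℤ) ∣ b) :
    ∃ k ∈ U d, ∃ ρ : ℝ, 0 ≤ ρ ∧ ρ < #(U d) ∧ ∀ n : ℤ,
      ‖∑ j ∈ U d, ((sg d b j * sg d b (k * j) : ℝ) : ℂ) * e ((n : ℝ) * ((j : ℝ) / d))‖ ≤ ρ := by
  classical
  have hd : d.Prime := Fact.out
  have hd0 : (d : ℝ) ≠ 0 := by exact_mod_cast hd.ne_zero
  obtain ⟨k, hk, j₁, hj₁, j₂, hj₂, e1, e2⟩ := S2c_nonconst d h3 h7 b hb
  refine ⟨k, hk, ?_⟩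
  set w : ℕ → ℝ := fun j => sg d b j * sg d b (k * j) with hw
  have hw1 : ∀ j, w j = 1 ∨ w j = -1 := by
    intro j
    simp only [hw]
    rcases sg_or d b j with e1 | e1 <;> rcases sg_or d b ((k : ℤ) * j) with e2 | e2 <;>
      rw [e1, e2] <;> norm_num
  set T : ℤ → ℕ → ℂ := fun n j => ((w j : ℝ) : ℂ) * e ((n : ℝ) * ((j : ℝ) / d)) with hT
  have hTn : ∀ n j, ‖T n j‖ = 1 := by
    intro n j
    simp only [hT]
    rw [norm_mul, norm_e, mul_one, Complex.norm_real]
    rcases hw1 j with e3 | e3 <;> rw [e3] <;> norm_num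
  -- periodicity
  have hper : ∀ n : ℤ, ∀ j, T n j = T (n % d) j := by
    intro n j
    simp only [hT]
    congr 1
    have e3 : (n : ℝ) * ((j : ℝ) / d) = ((n % d : ℤ) : ℝ) * ((j : ℝ) / d) + ((n / d * j : ℤ) : ℝ) := by
      have e4 : (n : ℝ) = ((n % d : ℤ) : ℝ) + (d : ℝ) * ((n / d : ℤ) : ℝ) := by
        have e5 := Int.emod_add_mul_ediv n d
        exact_mod_cast e5.symm
      rw [e4]
      push_cast
      field_simp
    rw [e3, e_add, e_int, mul_one]
  -- strict inequality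
  have hstrict : ∀ n : ℤ, ‖∑ j ∈ U d, T n j‖ < #(U d) := by
    intro n
    by_cases hn : (d : ℤ) ∣ n
    · refine S2c_strict (U d) (T n) (fun j _ => hTn n j) hj₁ hj₂ ?_
      have e3 : ∀ j : ℕ, e ((n : ℝ) * ((j : ℝ) / d)) = 1 := by
        intro j
        obtain ⟨m, rfl⟩ := hn
        have e4 : (((d : ℤ) * m : ℤ) : ℝ) * ((j : ℝ) / d) = ((m * j : ℤ) : ℝ) := by
          push_cast
          field_simp
        rw [e4, e_int]
      simp only [hT]
      rw [e3, e3, mul_one, mul_one]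
      have e5 : w j₁ = 1 := e1
      have e6 : w j₂ = -1 := e2
      rw [e5, e6]
      norm_num
    · have h1U : 1 ∈ U d := S2c_mem.2 ⟨hd.one_lt, Nat.coprime_one_left d⟩
      have h2U : d - 1 ∈ U d := by
        refine S2c_mem.2 ⟨Nat.sub_lt hd.pos one_pos, ?_⟩
        rw [Nat.coprime_comm, hd.coprime_iff_not_dvd]
        intro h
        have := Nat.le_of_dvd (by have := hd.two_le; omega) h
        have := hd.two_le
        omega
      refine S2c_strict (U d) (T n) (fun j _ => hTn n j) h1U h2U ?_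
      intro heq
      apply hn
      have hsq : T n 1 ^ 2 = T n (d - 1) ^ 2 := by rw [heq]
      have hTsq : ∀ j, T n j ^ 2 = e (2 * ((n : ℝ) * ((j : ℝ) / d))) := by
        intro j
        simp only [hT]
        rw [mul_pow]
        have e3 : ((w j : ℝ) : ℂ) ^ 2 = 1 := by
          rcases hw1 j with e3 | e3 <;> rw [e3] <;> norm_num
        rw [e3, one_mul, sq, ← e_add]
        congr 1
        ring
      rw [hTsq, hTsq] at hsq
      have e4 : (2 : ℝ) * ((n : ℝ) * (((d - 1 : ℕ) : ℝ) / d)) =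
          ((2 * n : ℤ) : ℝ) + -(2 * ((n : ℝ) * ((1 : ℝ) / d))) := by
        rw [Nat.cast_sub hd.one_lt.le]
        push_cast
        field_simp
        ring
      rw [e4, e_add, e_int, one_mul, Nat.cast_one] at hsq
      have e5 : e (4 * ((n : ℝ) * ((1 : ℝ) / d))) = 1 := by
        have e6 : (4 : ℝ) * ((n : ℝ) * ((1 : ℝ) / d)) =
            2 * ((n : ℝ) * ((1 : ℝ) / d)) + 2 * ((n : ℝ) * ((1 : ℝ) / d)) := by ring
        rw [e6, e_add]
        nth_rewrite 1 [hsq]
        rw [← e_add]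
        have e7 : -(2 * ((n : ℝ) * ((1 : ℝ) / d))) + 2 * ((n : ℝ) * ((1 : ℝ) / d)) = ((0 : ℤ) : ℝ) := by
          push_cast
          ring
        rw [e7, e_int]
      rw [e, Complex.exp_eq_one_iff] at e5
      obtain ⟨m, hm⟩ := e5
      have hpi : (2 * (Real.pi : ℂ) * Complex.I) ≠ 0 := by
        simp [Real.pi_ne_zero]
      have e8 : ((4 * ((n : ℝ) * ((1 : ℝ) / d)) : ℝ) : ℂ) = (m : ℂ) := by
        apply mul_left_cancel₀ hpi
        rw [hm]
        ring
      have e9 : (4 * ((n : ℝ) * ((1 : ℝ) / d)) : ℝ) = (m : ℝ) := by exact_mod_cast e8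
      have e10 : (4 : ℝ) * n = d * m := by
        rw [← e9]
        field_simp
      have e11 : (4 : ℤ) * n = d * m := by exact_mod_cast e10
      have e12 : (d : ℤ) ∣ 4 * n := ⟨m, e11⟩
      have hcop : IsCoprime (d : ℤ) 4 := by
        rw [Int.isCoprime_iff_gcd_eq_one]
        have : Nat.Coprime d 4 := by
          rw [hd.coprime_iff_not_dvd]
          intro h
          have := Nat.le_of_dvd (by norm_num) h
          have h8 : d = 4 := by omega
          rw [h8] at h3
          norm_num at h3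
        exact_mod_cast this
      exact hcop.dvd_of_dvd_mul_left e12
  have hne : (range d).Nonempty := ⟨0, Finset.mem_range.2 hd.pos⟩
  refine ⟨(range d).sup' hne fun n => ‖∑ j ∈ U d, T (n : ℤ) j‖, ?_, ?_, ?_⟩
  · exact (norm_nonneg _).trans (Finset.le_sup' (fun n : ℕ => ‖∑ j ∈ U d, T (n : ℤ) j‖)
      (Finset.mem_range.2 hd.pos))
  · rw [Finset.sup'_lt_iff]
    intro n _
    exact hstrict n
  · intro n
    have e3 : ∑ j ∈ U d, T n j = ∑ j ∈ U d, T ((n % d).toNat : ℤ) j := by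
      refine Finset.sum_congr rfl fun j _ => ?_
      rw [hper n j, Int.toNat_of_nonneg (Int.emod_nonneg _ (by exact_mod_cast hd.ne_zero))]
    have e4 : (n % d).toNat ∈ range d := by
      rw [Finset.mem_range]
      have := Int.emod_lt_of_pos n (by exact_mod_cast hd.pos : (0 : ℤ) < d)
      have := Int.emod_nonneg n (by exact_mod_cast hd.ne_zero : (d : ℤ) ≠ 0)
      omega
    have e5 := Finset.le_sup' (fun n : ℕ => ‖∑ j ∈ U d, T (n : ℤ) j‖) e4
    change ‖∑ j ∈ U d, T n j‖ ≤ _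
    rw [e3]
    exact e5

end CS68
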