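import Pool.Agent.LibCS68.I1
import Pool.Agent.LibCS68.S2c
import Pool.Agent.LibCS68.J1a
import Pool.Agent.LibCS68.J1c

set_option autoImplicit false
open Finset

namespace CS68

/-- `S(m,n;c)` is a positive real number. -/
def Pos (m n : ℤ) (c : ℕ) : Prop := ∃ r : ℝ, 0 < r ∧ kl m n c = r

/-- `S(m,n;c)` is a negative real number. -/
def Neg (m n : ℤ) (c : ℕ) : Prop := ∃ r : ℝ, r < 0 ∧ kl m n c = r

theorem card_RS_le (M d p q : ℕ) (Bad : ℕ → ℕ → ℕ → Prop) : #(RS M d p q Bad) ≤ 2 * M + 1 := by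
  classical
  unfold RS
  refine (card_filter_le _ _).trans ?_
  rw [Int.card_Icc]
  omega

theorem sq3 {d p q : ℕ} (hd : d.Prime) (hp : p.Prime) (hq : q.Prime) (h1 : d ≠ p) (h2 : d ≠ q) (h3 : p ≠ q) :
    Squarefree (d * p * q) := by
  have c1 : d.Coprime p := (Nat.coprime_primes hd hp).2 h1
  have c2 : d.Coprime q := (Nat.coprime_primes hd hq).2 h2
  have c3 : p.Coprime q := (Nat.coprime_primes hp hq).2 h3
  rw [Nat.squarefree_mul (c2.mul_left c3), Nat.squarefree_mul c1]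
  exact ⟨⟨hd.prime.squarefree, hp.prime.squarefree⟩, hq.prime.squarefree⟩

theorem count_one (s : ℤ → ℝ) (hev : ∀ r, s (-r) = s r) (M : ℕ) (R : Finset ℤ)
    (hR : ∀ r ∈ R, |r| ≤ M ∧ s r = 1) :
    (#R : ℝ) ≤ 2 * #((Icc 1 M).filter (fun m : ℕ => s m = 1)) + 1 := by
  classical
  set A := (Icc 1 M).filter (fun m : ℕ => s m = 1) with hA
  have hsub : R ⊆ (A.image (fun m : ℕ => (m : ℤ)) ∪ A.image (fun m : ℕ => -(m : ℤ))) ∪ {0} := by
    intro r hr
    obtain ⟨h1, h2⟩ := hR r hr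
    rcases lt_trichotomy r 0 with h | h | h
    · rw [abs_of_neg h] at h1
      refine mem_union_left _ (mem_union_right _ (mem_image.2 ⟨r.natAbs, ?_, by omega⟩))
      rw [hA, mem_filter, mem_Icc]
      refine ⟨⟨by omega, by omega⟩, ?_⟩
      have h3 : ((r.natAbs : ℕ) : ℤ) = -r := by omega
      rw [h3, hev, h2]
    · exact mem_union_right _ (by simp [h])
    · rw [abs_of_pos h] at h1
      refine mem_union_left _ (mem_union_left _ (mem_image.2 ⟨r.natAbs, ?_, by omega⟩))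
      rw [hA, mem_filter, mem_Icc]
      refine ⟨⟨by omega, by omega⟩, ?_⟩
      have h3 : ((r.natAbs : ℕ) : ℤ) = r := by omega
      rw [h3, h2]
  have h1 : #R ≤ #A + #A + 1 := by
    refine (card_le_card hsub).trans ((card_union_le _ _).trans ?_)
    rw [card_singleton]
    have := (card_union_le (A.image (fun m : ℕ => (m : ℤ))) (A.image (fun m : ℕ => -(m : ℤ)))).trans
      (add_le_add card_image_le card_image_le)
    omega
  have h2 : (#R : ℝ) ≤ #A + #A + 1 := by exact_mod_cast h1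
  linarith

open Classical in
theorem three_primes (d : ℕ) (hd : d.Prime) (h3 : d % 4 = 3) (h7 : 3 < d) :
    ∃ C δ : ℝ, 0 < C ∧ 0 < δ ∧ ∀ (b : ℤ) (X M : ℕ) (P Q : Finset ℕ), ¬ (d : ℤ) ∣ b →
      d ≤ X → M ≤ X → InX X P → InX X Q → C * X ≤ M * #P → C * X ≤ M * #Q →
      δ * (#P * #Q) ≤ #((P ×ˢ Q).filter (fun z : ℕ × ℕ => z.1 ≠ z.2 ∧
        δ * M ≤ #((Icc 1 M).filter (fun m : ℕ => Pos (b * (m : ℤ) ^ 2) 1 (d * z.1 * z.2))) ∧
        δ * M ≤ #((Icc 1 M).filter (fun m : ℕ => Neg (b * (m : ℤ) ^ 2) 1 (d * z.1 * z.2))))) := by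
  have : Fact d.Prime := ⟨hd⟩
  have hd0 : 0 < d := hd.pos
  have hdR : (0 : ℝ) < d := by exact_mod_cast hd0
  have hUpos : (0 : ℝ) < #(U d) := by
    have : 0 < #(U d) := card_pos.2 ⟨1, by
      unfold U
      rw [mem_filter, mem_range]
      exact ⟨hd.one_lt, Nat.coprime_one_left d⟩⟩
    exact_mod_cast this
  have hβ : ∀ β ∈ range d, ∃ ρ : ℝ, 0 ≤ ρ ∧ ρ < #(U d) ∧ (¬ (d : ℤ) ∣ (β : ℤ) → ∃ k ∈ U d, ∀ n : ℤ,
      ‖∑ j ∈ U d, ((sg d β j * sg d β (k * j) : ℝ) : ℂ) * e ((n : ℝ) * ((j : ℝ) / d))‖ ≤ ρ) := by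
    intro β _
    by_cases hb : (d : ℤ) ∣ (β : ℤ)
    · exact ⟨0, le_refl _, hUpos, fun h => absurd hb h⟩
    · obtain ⟨k, hk, ρ, h0, h1, h2⟩ := exists_k d h3 h7 β hb
      exact ⟨ρ, h0, h1, fun _ => ⟨k, hk, h2⟩⟩
  choose! ρ hρ0 hρ1 hρ2 using hβ
  have hne : (range d).Nonempty := ⟨0, mem_range.2 hd0⟩
  set ρm : ℝ := (range d).sup' hne ρ with hρm
  have hρm1 : ρm < #(U d) := (Finset.sup'_lt_iff hne).2 hρ1
  have hρm0 : 0 ≤ ρm := (hρ0 0 (mem_range.2 hd0)).trans (Finset.le_sup' ρ (mem_range.2 hd0))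
  obtain ⟨C₀, δ₀, hC₀, hδ₀, hcore⟩ := core d hd0 ρm hρm0 hρm1
  refine ⟨2 * d * C₀ + 2 * d, min (δ₀ / 6) (δ₀ / (16 * d)), by positivity, lt_min (by positivity) (by positivity), ?_⟩
  intro b X M P Q hb hdX hMX hP hQ hCP hCQ
  have hX : 0 < X := by omega
  have hXR : (0 : ℝ) < X := by exact_mod_cast hX
  have hPX : (#P : ℝ) ≤ X := by exact_mod_cast card_le X P hP
  have hM2 : (2 : ℝ) * d ≤ M := by
    have h1 : (2 * d * C₀ + 2 * d) * X ≤ M * X := hCP.trans (mul_le_mul_of_nonneg_left hPX (Nat.cast_nonneg M))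
    have h2 := le_of_mul_le_mul_right h1 hXR
    have h4 : 0 ≤ 2 * d * C₀ := by positivity
    linarith
  have hM2' : 2 * d ≤ M := by exact_mod_cast hM2
  set M' : ℕ := M / d with hM'
  have hM'1 : 1 ≤ M' := by
    rw [hM', Nat.le_div_iff_mul_le hd0]
    omega
  have hM'R : (1 : ℝ) ≤ M' := by exact_mod_cast hM'1
  have hM'd : M' * d ≤ M := Nat.div_mul_le_self M d
  have hM'2 : (M : ℝ) ≤ 2 * d * M' := by
    have h1 : M < d * (M' + 1) := Nat.lt_mul_div_succ M hd0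
    have h2 : M ≤ 2 * d * M' := by nlinarith
    exact_mod_cast h2
  have hC : ∀ S : Finset ℕ, (2 * d * C₀ + 2 * d) * (X : ℝ) ≤ M * #S → C₀ * X ≤ M' * #S := by
    intro S hS
    have h1 : (M : ℝ) * #S ≤ 2 * d * M' * #S := mul_le_mul_of_nonneg_right hM'2 (Nat.cast_nonneg _)
    have h2 : 2 * d * (C₀ * X) ≤ 2 * d * (M' * #S) := by
      have h4 : 0 ≤ 2 * (d : ℝ) * X := by positivity
      nlinarith
    exact le_of_mul_le_mul_left h2 (by positivity)
  -- the residue of `b`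
  set β : ℕ := (b % d).toNat with hβ
  have hβ1 : ((β : ℕ) : ℤ) = b % d := by
    rw [hβ, Int.toNat_of_nonneg (Int.emod_nonneg b (by exact_mod_cast hd0.ne'))]
  have hβr : β ∈ range d := by
    rw [mem_range]
    have := Int.emod_lt_of_pos b (show (0 : ℤ) < d by exact_mod_cast hd0)
    omega
  have hβb : ((b : ℤ) : ZMod d) = (((β : ℕ) : ℤ) : ZMod d) := by
    rw [hβ1]
    simp
  have hβd : ¬ (d : ℤ) ∣ (β : ℤ) := by
    rw [hβ1]
    intro h
    have h5 := Int.emod_eq_zero_of_dvd h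
    rw [Int.emod_emod_of_dvd _ (dvd_refl _)] at h5
    exact hb (Int.dvd_of_emod_eq_zero h5)
  obtain ⟨k, hkU, hk⟩ := hρ2 β hβr hβd
  have hkd : k < d := by
    unfold U at hkU
    exact mem_range.1 (mem_filter.1 hkU).1
  have hk0 : 0 < k := by
    rcases Nat.eq_zero_or_pos k with h | h
    · subst h
      unfold U at hkU
      have := (mem_filter.1 hkU).2
      rw [Nat.coprime_zero_left] at this
      exact absurd this hd.one_lt.ne'
    · exact h
  have hkn : ∀ n : ℤ, ‖∑ j ∈ U d, ((sg d b j * sg d b (k * j) : ℝ) : ℂ) * e ((n : ℝ) * ((j : ℝ) / d))‖ ≤ ρm := by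
    intro n
    have h1 : ∀ r : ℤ, sg d b r = sg d β r := fun r => sg_congr' d b β r hβb
    simp only [h1]
    exact (hk n).trans (Finset.le_sup' ρ hβr)
  have hpm : ∀ x y : ℝ, (x = 1 ∨ x = -1) → (y = 1 ∨ y = -1) → (x * y = 1 ∨ x * y = -1) := by
    rintro x y (rfl | rfl) (rfl | rfl) <;> norm_num
  have h1 := hcore X M' P Q (fun j => sg d b j * sg d b (k * j)) (fun p x => sg p b x * sg p b (k * x))
    (fun q y => sg q b y * sg q b (k * y)) hdX (by omega) (by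
      have : M' ≤ M := Nat.div_le_self M d
      omega) hP hQ (hC P hCP) (hC Q hCQ)
    (fun j => hpm _ _ (sg_or _ _ _) (sg_or _ _ _)) (fun p x => hpm _ _ (sg_or _ _ _) (sg_or _ _ _))
    (fun q y => hpm _ _ (sg_or _ _ _) (sg_or _ _ _)) hkn
  have h2 := many_pairs P Q M' δ₀ (by linarith) (fun p q => (#(RS M' d p q (fun j x y =>
      sg d b j * sg d b (k * j) * (sg p b x * sg p b (k * x)) * (sg q b y * sg q b (k * y)) = -1)) : ℝ))
    (fun p _ q _ => by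
      have h5 : (#(RS M' d p q (fun j x y =>
        sg d b j * sg d b (k * j) * (sg p b x * sg p b (k * x)) * (sg q b y * sg q b (k * y)) = -1)) : ℝ)
          ≤ 2 * M' + 1 := by exact_mod_cast card_RS_le _ _ _ _ _
      linarith) h1
  have hPQ : (0 : ℝ) ≤ #P * #Q := by positivity
  refine (mul_le_mul_of_nonneg_right (min_le_left _ _) hPQ).trans (h2.trans ?_)
  have h3' : #((P ×ˢ Q).filter (fun z : ℕ × ℕ => z.1 ≠ z.2 ∧ δ₀ / 2 * M' ≤
      (#(RS M' d z.1 z.2 (fun j x y => sg d b j * sg d b (k * j) * (sg z.1 b x * sg z.1 b (k * x)) *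
        (sg z.2 b y * sg z.2 b (k * y)) = -1)) : ℝ))) ≤
      #((P ×ˢ Q).filter (fun z : ℕ × ℕ => z.1 ≠ z.2 ∧
        min (δ₀ / 6) (δ₀ / (16 * d)) * M ≤
          #((Icc 1 M).filter (fun m : ℕ => Pos (b * (m : ℤ) ^ 2) 1 (d * z.1 * z.2))) ∧
        min (δ₀ / 6) (δ₀ / (16 * d)) * M ≤
          #((Icc 1 M).filter (fun m : ℕ => Neg (b * (m : ℤ) ^ 2) 1 (d * z.1 * z.2))))) := by
    apply card_le_card
    rintro ⟨p, q⟩ hz
    rw [mem_filter, mem_product] at hz ⊢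
    simp only at hz ⊢
    obtain ⟨⟨hpP, hqQ⟩, hpq, hRS⟩ := hz
    obtain ⟨hpp, hpX, -⟩ := hP p hpP
    obtain ⟨hqp, hqX, -⟩ := hQ q hqQ
    have hdp : d ≠ p := by omega
    have hdq : d ≠ q := by omega
    have hsq := sq3 hd hpp hqp hdp hdq hpq
    have h4 := two_signs (fun r => sg (d * p * q) b r) (fun r => sg_or _ _ _) (fun r => sg_neg _ _ _) k M M' hk0
      (by
        have : k * M' ≤ d * M' := Nat.mul_le_mul_right _ hkd.le
        have h6 : d * M' = M' * d := Nat.mul_comm _ _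
        omega)
      (RS M' d p q (fun j x y => sg d b j * sg d b (k * j) * (sg p b x * sg p b (k * x)) *
        (sg q b y * sg q b (k * y)) = -1))
      (fun r hr => RS_sign M' d p q k hd.prime.squarefree hpp hqp ((Nat.coprime_primes hd hpp).2 hdp)
        ((Nat.coprime_primes hd hqp).2 hdq) hpq b r hr)
    have hmin : min (δ₀ / 6) (δ₀ / (16 * d)) * M ≤ δ₀ / 8 * M' := by
      calc min (δ₀ / 6) (δ₀ / (16 * d)) * M ≤ δ₀ / (16 * d) * M :=
            mul_le_mul_of_nonneg_right (min_le_right _ _) (Nat.cast_nonneg _)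
        _ ≤ δ₀ / (16 * d) * (2 * d * M') := mul_le_mul_of_nonneg_left hM'2 (by positivity)
        _ = δ₀ / 8 * M' := by field_simp; norm_num
    have e1 : ((Icc 1 M).filter (fun m : ℕ => Pos (b * (m : ℤ) ^ 2) 1 (d * p * q))) =
        (Icc 1 M).filter (fun m : ℕ => sg (d * p * q) b m = 1) :=
      filter_congr fun m _ => (sg_pos_iff _ hsq b m).symm
    have e2 : ((Icc 1 M).filter (fun m : ℕ => Neg (b * (m : ℤ) ^ 2) 1 (d * p * q))) =
        (Icc 1 M).filter (fun m : ℕ => sg (d * p * q) b m = -1) :=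
      filter_congr fun m _ => (sg_neg_iff _ hsq b m).symm
    rw [e1, e2]
    refine ⟨⟨hpP, hqQ⟩, hpq, ?_, ?_⟩
    · have := h4.1
      linarith
    · have := h4.2
      linarith
  exact_mod_cast h3'

open Classical in
theorem two_primes : ∃ C δ : ℝ, 0 < C ∧ 0 < δ ∧ ∀ (b : ℤ) (X M : ℕ) (P : Finset ℕ),
      M ≤ X → InX X P → C * X ≤ M * #P →
      δ * (#P * #P) ≤ #((P ×ˢ P).filter (fun z : ℕ × ℕ => z.1 ≠ z.2 ∧
        δ * M ≤ #((Icc 1 M).filter (fun m : ℕ => Pos (b * (m : ℤ) ^ 2) 1 (z.1 * z.2))))) := by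
  obtain ⟨C₀, δ₀, hC₀, hδ₀, hcore⟩ := core2
  refine ⟨C₀ + 4 / δ₀, δ₀ / 8, by positivity, by positivity, ?_⟩
  intro b X M P hMX hP hCP
  rcases P.eq_empty_or_nonempty with rfl | ⟨p₀, hp₀⟩
  · simp
  have hX : 0 < X := by
    obtain ⟨h1, h2, h3⟩ := hP p₀ hp₀
    have := h1.pos
    omega
  have hXR : (0 : ℝ) < X := by exact_mod_cast hX
  have hPX : (#P : ℝ) ≤ X := by exact_mod_cast card_le X P hP
  have hMC : C₀ + 4 / δ₀ ≤ M := by
    have h1 : (C₀ + 4 / δ₀) * X ≤ M * X := hCP.trans (mul_le_mul_of_nonneg_left hPX (Nat.cast_nonneg M))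
    exact le_of_mul_le_mul_right h1 hXR
  have h4δ : 0 < 4 / δ₀ := by positivity
  have hMR : (0 : ℝ) < M := by linarith
  have hM0 : 0 < M := by exact_mod_cast hMR
  have hM1 : (1 : ℝ) ≤ M := by exact_mod_cast hM0
  have hMδ : 4 ≤ δ₀ * M := by
    have h1 : 4 / δ₀ ≤ M := by linarith
    rwa [div_le_iff₀ hδ₀, mul_comm] at h1
  have hC : C₀ * X ≤ M * #P := by
    have h1 : 0 ≤ 4 / δ₀ * (X : ℝ) := by positivity
    nlinarith
  have h1 := hcore X M P (fun p x => sg p b x) hM0 hMX hP hC (fun p x => sg_or _ _ _) (by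
    intro p x hx
    have hxp : x ≤ p := by
      unfold U at hx
      exact (mem_range.1 (mem_filter.1 hx).1).le
    have h2 : ((((p - x : ℕ) : ℕ) : ℤ) : ZMod p) = ((-(x : ℤ) : ℤ) : ZMod p) := by
      push_cast [Nat.cast_sub hxp]
      simp
    show sg p b ((p - x : ℕ) : ℤ) = sg p b x
    rw [sg_congr p b _ _ h2, sg_neg])
  have h2 := many_pairs P P M δ₀ hMR (fun p q => (#(RS M 1 p q (fun _ x y => sg p b x * sg q b y = 1)) : ℝ))
    (fun p _ q _ => by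
      have h5 : (#(RS M 1 p q (fun _ x y => sg p b x * sg q b y = 1)) : ℝ) ≤ 2 * M + 1 := by
        exact_mod_cast card_RS_le _ _ _ _ _
      linarith) h1
  have hPQ : (0 : ℝ) ≤ #P * #P := by positivity
  have h8 : δ₀ / 8 * ((#P : ℝ) * #P) ≤ δ₀ / 6 * (#P * #P) :=
    mul_le_mul_of_nonneg_right (by linarith) hPQ
  refine h8.trans (h2.trans ?_)
  have h3' : #((P ×ˢ P).filter (fun z : ℕ × ℕ => z.1 ≠ z.2 ∧ δ₀ / 2 * M ≤
      (#(RS M 1 z.1 z.2 (fun _ x y => sg z.1 b x * sg z.2 b y = 1)) : ℝ))) ≤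
      #((P ×ˢ P).filter (fun z : ℕ × ℕ => z.1 ≠ z.2 ∧
        δ₀ / 8 * M ≤ #((Icc 1 M).filter (fun m : ℕ => Pos (b * (m : ℤ) ^ 2) 1 (z.1 * z.2))))) := by
    apply card_le_card
    rintro ⟨p, q⟩ hz
    rw [mem_filter, mem_product] at hz ⊢
    simp only at hz ⊢
    obtain ⟨⟨hpP, hqP⟩, hpq, hRS⟩ := hz
    obtain ⟨hpp, hpX, -⟩ := hP p hpP
    obtain ⟨hqp, hqX, -⟩ := hP q hqP
    have hsq : Squarefree (p * q) := by
      rw [Nat.squarefree_mul ((Nat.coprime_primes hpp hqp).2 hpq)]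
      exact ⟨hpp.prime.squarefree, hqp.prime.squarefree⟩
    have h4 := count_one (fun r => sg (p * q) b r) (fun r => sg_neg _ _ _) M
      (RS M 1 p q (fun _ x y => sg p b x * sg q b y = 1))
      (fun r hr => RS_sign2 M p q hpp hqp hpq b r hr)
    have e1 : ((Icc 1 M).filter (fun m : ℕ => Pos (b * (m : ℤ) ^ 2) 1 (p * q))) =
        (Icc 1 M).filter (fun m : ℕ => sg (p * q) b m = 1) :=
      filter_congr fun m _ => (sg_pos_iff _ hsq b m).symm
    rw [e1]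
    refine ⟨⟨hpP, hqP⟩, hpq, ?_⟩
    linarith
  exact_mod_cast h3'

end CS68
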