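import Pool.Agent.LibCS68.A1

set_option autoImplicit false
open Finset

namespace CS68

theorem K4_norm (t : ℝ) : ‖e t - 1‖ = 2 * |Real.sin (Real.pi * t)| := by
  have h : e t = Complex.exp (Complex.I * ((2 * Real.pi * t : ℝ) : ℂ)) := by
    unfold e
    congr 1
    push_cast
    ring
  rw [h, Complex.norm_exp_I_mul_ofReal_sub_one]
  have h4 : 2 * Real.pi * t / 2 = Real.pi * t := by ring
  rw [h4, Real.norm_eq_abs, abs_mul, abs_two]

theorem K4_geo (H : ℕ) (t : ℝ) :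
    (∑ h ∈ range H, e (h * t)) * (e t - 1) = e (H * t) - 1 := by
  have h1 : ∀ h : ℕ, e (h * t) = e t ^ h := by
    intro h
    induction h with
    | zero =>
      have := e_int 0
      simpa using this
    | succ h ih =>
      rw [pow_succ, ← ih, ← e_add]
      congr 1
      push_cast
      ring
  simp only [h1]
  exact geom_sum_mul (e t) H

/-- Row K4a. `|∑_{h<H} e(ht)| = |sin πHt|/|sin πt| ≥ 2H|t|/(π|t|)` for `0 < H|t| ≤ 1/2` (Jordan), and `4/π^2 ≥ 2/5`; `t = 0`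
trivial. -/
theorem Fj_lower (H : ℕ) (hH : 0 < H) (t : ℝ) (ht : H * |t| ≤ 1 / 2) : 2 / 5 * (H : ℝ) ≤ Fj H t := by
  have hH' : (0 : ℝ) < H := by exact_mod_cast hH
  rcases eq_or_ne t 0 with rfl | h0
  · have h1 : Fj H 0 = H := by
      unfold Fj
      have h2 : ∀ h : ℕ, e (h * 0) = 1 := by
        intro h
        have := e_int 0
        simpa using this
      simp only [h2, Finset.sum_const, Finset.card_range, nsmul_eq_mul, mul_one]
      rw [Complex.norm_natCast]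
      field_simp
    rw [h1]
    linarith
  · have hpi := Real.pi_pos
    have ht0 : 0 < |t| := abs_pos.2 h0
    have h1 := K4_geo H t
    have h2 : ‖∑ h ∈ range H, e (h * t)‖ * ‖e t - 1‖ = ‖e (H * t) - 1‖ := by
      rw [← norm_mul, h1]
    rw [K4_norm, K4_norm] at h2
    have h3 : |Real.sin (Real.pi * t)| ≤ Real.pi * |t| := by
      refine Real.abs_sin_le_abs.trans (le_of_eq ?_)
      rw [abs_mul, abs_of_pos hpi]
    have h4 : 2 * (H * |t|) ≤ |Real.sin (Real.pi * (H * t))| := by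
      have h5 : |Real.sin (Real.pi * (H * t))| = Real.sin (Real.pi * (H * |t|)) := by
        rcases le_or_gt 0 t with h6 | h6
        · rw [abs_of_nonneg h6] at ht ⊢
          refine abs_of_nonneg (Real.sin_nonneg_of_nonneg_of_le_pi (by positivity) ?_)
          nlinarith
        · rw [abs_of_neg h6] at ht ⊢
          rw [mul_neg, mul_neg, Real.sin_neg]
          refine abs_of_nonpos ?_
          have := Real.sin_nonneg_of_nonneg_of_le_pi (x := Real.pi * (H * -t))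
            (by nlinarith [mul_pos hpi (mul_pos hH' (neg_pos.2 h6))]) (by nlinarith)
          rw [mul_neg, mul_neg, Real.sin_neg] at this
          linarith
      rw [h5]
      have h6 := Real.mul_le_sin (x := Real.pi * (H * |t|)) (by positivity) (by nlinarith)
      have h7 : 2 / Real.pi * (Real.pi * (H * |t|)) = 2 * (H * |t|) := by
        field_simp
      rw [h7] at h6
      exact h6
    set N0 : ℝ := ‖∑ h ∈ range H, e (h * t)‖ with hN
    have hN0 : 0 ≤ N0 := norm_nonneg _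
    have h5 : 2 * (H * |t|) ≤ N0 * (Real.pi * |t|) := by
      have h6 : N0 * |Real.sin (Real.pi * t)| ≤ N0 * (Real.pi * |t|) :=
        mul_le_mul_of_nonneg_left h3 hN0
      linarith
    have h6 : 2 * (H : ℝ) ≤ N0 * Real.pi := by
      have h7 : (2 * (H : ℝ)) * |t| ≤ (N0 * Real.pi) * |t| := by linarith
      exact le_of_mul_le_mul_right h7 ht0
    have h7 : 4 * (H : ℝ) ^ 2 ≤ N0 ^ 2 * Real.pi ^ 2 := by
      have h8 : (2 * (H : ℝ)) ^ 2 ≤ (N0 * Real.pi) ^ 2 :=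
        pow_le_pow_left₀ (by positivity) h6 2
      nlinarith
    have h8 : Real.pi ^ 2 ≤ 10 := by
      have := Real.pi_lt_d2
      nlinarith
    have h9 : 4 * (H : ℝ) ^ 2 ≤ N0 ^ 2 * 10 :=
      h7.trans (mul_le_mul_of_nonneg_left h8 (by positivity))
    unfold Fj
    rw [← hN, le_div_iff₀ hH']
    nlinarith

theorem K4_mem (M d p q : ℕ) (Bad : ℕ → ℕ → ℕ → Prop) (ρ : ℤ) (h : ρ ∈ RS M d p q Bad) :
    (-(M : ℤ) ≤ ρ ∧ ρ ≤ M) ∧ ∃ j ∈ U d, ∃ x ∈ U p, ∃ y ∈ U q, Bad j x y ∧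
      ((d * p * q : ℕ) : ℤ) ∣ ρ - ((j * (p * q) + x * (d * q) + y * (d * p) : ℕ) : ℤ) := by
  classical
  unfold RS at h
  obtain ⟨h1, h2⟩ := (@Finset.mem_filter _ _ _ _ _).1 h
  exact ⟨Finset.mem_Icc.1 h1, h2⟩

/-- Row K4b (reverse of `pair_count` in F1.lean). For `r ∈ RS` choose `(j,x,y)`; `2 G < d p q`, so different `r` have
different `(j,x,y)`; `Fj H (j/d + x/p + y/q) = Fj H (r/(dpq))` (`Fj_add_int`), and `H |r|/(dpq) ≤ 1/2`. -/
theorem pair_lower (H G d p q : ℕ) (hH : 0 < H) (hd : 0 < d) (hp : 0 < p) (hq : 0 < q)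
    (hHG : 2 * (H * G) ≤ d * p * q) (hG : 2 * G < d * p * q) (Bad : ℕ → ℕ → ℕ → Prop)
    [∀ j x y, Decidable (Bad j x y)] :
    2 / 5 * (H : ℝ) * (#(RS G d p q Bad) : ℝ) ≤ ∑ j ∈ U d, ∑ x ∈ U p, ∑ y ∈ U q,
      (if Bad j x y then Fj H ((j : ℝ) / d + (x : ℝ) / p + (y : ℝ) / q) else 0) := by
  classical
  set c : ℕ := d * p * q with hc
  have hc0 : 0 < c := by positivity
  have hcR : (0 : ℝ) < c := by exact_mod_cast hc0
  have hHR : (0 : ℝ) < H := by exact_mod_cast hH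
  set s : ℕ × ℕ × ℕ → ℤ := fun τ =>
    ((τ.1 * (p * q) + τ.2.1 * (d * q) + τ.2.2 * (d * p) : ℕ) : ℤ) with hs
  set f : ℕ × ℕ × ℕ → ℝ := fun τ =>
    Fj H ((τ.1 : ℝ) / d + (τ.2.1 : ℝ) / p + (τ.2.2 : ℝ) / q) with hf
  set T := (U d ×ˢ (U p ×ˢ U q)).filter (fun τ => Bad τ.1 τ.2.1 τ.2.2) with hT
  have hsum : ∑ j ∈ U d, ∑ x ∈ U p, ∑ y ∈ U q,
      (if Bad j x y then Fj H ((j : ℝ) / d + (x : ℝ) / p + (y : ℝ) / q) else 0) =
      ∑ τ ∈ T, f τ := by
    rw [hT, Finset.sum_filter, Finset.sum_product]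
    refine Finset.sum_congr rfl fun j _ => ?_
    rw [Finset.sum_product]
  have hex : ∀ ρ ∈ RS G d p q Bad, ∃ τ ∈ T, ((c : ℕ) : ℤ) ∣ ρ - s τ := by
    intro ρ hρ
    obtain ⟨-, j, hj, x, hx, y, hy, hB, hdv⟩ := K4_mem G d p q Bad ρ hρ
    refine ⟨(j, x, y), ?_, hdv⟩
    rw [hT, Finset.mem_filter, Finset.mem_product, Finset.mem_product]
    exact ⟨⟨hj, hx, hy⟩, hB⟩
  choose! τ hτT hτd using hex
  have hinj : Set.InjOn τ (RS G d p q Bad : Set ℤ) := by
    intro ρ hρ ρ' hρ' e1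
    have h1 := hτd ρ hρ
    have h2 := hτd ρ' hρ'
    rw [← e1] at h2
    have h3 : ((c : ℕ) : ℤ) ∣ ρ - ρ' := by
      have h4 := dvd_sub h1 h2
      have h5 : ρ - s (τ ρ) - (ρ' - s (τ ρ)) = ρ - ρ' := by ring
      rwa [h5] at h4
    have k1 := (K4_mem G d p q Bad ρ hρ).1
    have k2 := (K4_mem G d p q Bad ρ' hρ').1
    have h4 : ρ - ρ' = 0 := by
      refine Int.eq_zero_of_abs_lt_dvd h3 ?_
      rw [abs_lt]
      have h5 : 2 * (G : ℤ) < c := by exact_mod_cast hG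
      constructor <;> linarith [k1.1, k1.2, k2.1, k2.2]
    linarith
  have hval : ∀ ρ ∈ RS G d p q Bad, 2 / 5 * (H : ℝ) ≤ f (τ ρ) := by
    intro ρ hρ
    obtain ⟨m, hm⟩ := hτd ρ hρ
    have h1 : ((τ ρ).1 : ℝ) / d + ((τ ρ).2.1 : ℝ) / p + ((τ ρ).2.2 : ℝ) / q =
        (ρ : ℝ) / c + ((-m : ℤ) : ℝ) := by
      have h2 : (ρ : ℝ) = (s (τ ρ) : ℝ) + c * m := by
        have : ρ = s (τ ρ) + c * m := by linarith
        exact_mod_cast this
      have h3 : (s (τ ρ) : ℝ) = ((τ ρ).1 : ℝ) * (p * q) + (τ ρ).2.1 * (d * q) +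
          (τ ρ).2.2 * (d * p) := by
        simp only [hs]
        push_cast
        ring
      have hd' : (d : ℝ) ≠ 0 := by exact_mod_cast hd.ne'
      have hp' : (p : ℝ) ≠ 0 := by exact_mod_cast hp.ne'
      have hq' : (q : ℝ) ≠ 0 := by exact_mod_cast hq.ne'
      rw [h2, h3, hc]
      push_cast
      field_simp
      ring
    have h2 : f (τ ρ) = Fj H ((ρ : ℝ) / c) := by
      simp only [hf]
      rw [h1, Fj_add_int]
    rw [h2]
    refine Fj_lower H hH _ ?_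
    have k1 := (K4_mem G d p q Bad ρ hρ).1
    have h3 : |(ρ : ℝ)| ≤ G := by
      rw [abs_le]
      constructor
      · exact_mod_cast k1.1
      · exact_mod_cast k1.2
    rw [abs_div, abs_of_pos hcR, ← mul_div_assoc, div_le_iff₀ hcR]
    have h4 : 2 * ((H : ℝ) * G) ≤ c := by exact_mod_cast hHG
    have h5 : (H : ℝ) * |(ρ : ℝ)| ≤ H * G := mul_le_mul_of_nonneg_left h3 hHR.le
    linarith
  rw [hsum]
  calc 2 / 5 * (H : ℝ) * (#(RS G d p q Bad) : ℝ)
      = ∑ _ρ ∈ RS G d p q Bad, 2 / 5 * (H : ℝ) := by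
        rw [Finset.sum_const, nsmul_eq_mul]
        ring
    _ ≤ ∑ ρ ∈ RS G d p q Bad, f (τ ρ) := Finset.sum_le_sum hval
    _ = ∑ t ∈ (RS G d p q Bad).image τ, f t := (Finset.sum_image hinj).symm
    _ ≤ ∑ t ∈ T, f t := by
        refine Finset.sum_le_sum_of_subset_of_nonneg ?_ (fun t _ _ => Fj_nonneg H _)
        intro t ht
        obtain ⟨ρ, hρ, rfl⟩ := Finset.mem_image.1 ht
        exact hτT ρ hρ

end CS68
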