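import Pool.Agent.LibCS68.K2b
import Pool.Agent.LibCS68.DV
import Pool.Agent.LibCS68.A1

set_option autoImplicit false
open Finset

namespace CS68

private theorem K2c_e (d : ℕ) [NeZero d] (n : ℤ) (j : ℕ) :
    e ((n : ℝ) * ((j : ℝ) / d)) = (ZMod.stdAddChar ((n : ZMod d) * (j : ZMod d)) : ℂ) := by
  have h1 : ((n : ZMod d) * (j : ZMod d)) = (((n * j : ℤ) : ℤ) : ZMod d) := by push_cast; rfl
  rw [h1, ZMod.stdAddChar_coe]
  unfold e
  congr 1
  push_cast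
  ring

private theorem K2c_ph (d : ℕ) (hd : 0 < d) (b r : ℤ) :
    haveI : NeZero d := ⟨hd.ne'⟩
    ((ph d b r : ℝ) : ℂ) = Kloo.K d ((b : ZMod d) * (r : ZMod d) ^ 2) / ((√(d : ℝ) : ℝ) : ℂ) := by
  have : NeZero d := ⟨hd.ne'⟩
  have h1 : kl (b * r ^ 2) 1 d = Kloo.K d ((b : ZMod d) * (r : ZMod d) ^ 2) := by
    rw [S1_kl]
    push_cast
    rfl
  obtain ⟨s, hs⟩ := Complex.conj_eq_iff_real.1 (Kloo.K_conj d ((b : ZMod d) * (r : ZMod d) ^ 2))
  show ((ph d b r : ℝ) : ℂ) = Kloo.K d ((b : ZMod d) * (r : ZMod d) ^ 2) / ((√(d : ℝ) : ℝ) : ℂ)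
  unfold ph
  rw [h1, hs, Complex.ofReal_re, Complex.ofReal_div]

private theorem K2c_K0 (d : ℕ) [hd : Fact d.Prime] : Kloo.K d 0 = -1 := by
  unfold Kloo.K
  have h1 := Kloo.sum_units_eq (d := d) (fun x => (ZMod.stdAddChar (1 * x) : ℂ))
  rw [Kloo.sum_psi_zero 1 one_ne_zero] at h1
  simp only [mul_zero, AddChar.map_zero_eq_one, one_mul] at h1
  have h2 : ∑ u : (ZMod d)ˣ, (ZMod.stdAddChar (0 * (u : ZMod d) + ((u⁻¹ : (ZMod d)ˣ) : ZMod d)) : ℂ) =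
      ∑ u : (ZMod d)ˣ, (ZMod.stdAddChar (u : ZMod d) : ℂ) :=
    Fintype.sum_equiv (Equiv.inv _) _ _ fun u => by rw [zero_mul, zero_add]; rfl
  rw [h2]
  linear_combination -h1

private theorem K2c_sumU (d : ℕ) [hd : Fact d.Prime] (F : ZMod d → ℂ) :
    ∑ j ∈ U d, F (j : ZMod d) = ∑ u : ZMod d, F u - F 0 := by
  classical
  rw [eq_sub_iff_add_eq, ← Finset.sum_erase_add _ _ (Finset.mem_univ (0 : ZMod d))]
  congr 1
  refine sum_bij (fun (j : ℕ) _ => (j : ZMod d)) ?_ ?_ ?_ ?_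
  · intro j hj
    unfold U at hj
    rw [mem_filter, mem_range] at hj
    rw [mem_erase]
    refine ⟨?_, mem_univ _⟩
    rw [Ne, ZMod.natCast_eq_zero_iff]
    intro h
    have h1 := Nat.Coprime.eq_one_of_dvd (Nat.Coprime.symm hj.2) h
    exact hd.out.one_lt.ne' h1
  · intro i hi j hj h
    unfold U at hi hj
    rw [mem_filter, mem_range] at hi hj
    have h1 := (ZMod.natCast_eq_natCast_iff' i j d).1 h
    rwa [Nat.mod_eq_of_lt hi.1, Nat.mod_eq_of_lt hj.1] at h1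
  · intro u hu
    rw [mem_erase] at hu
    refine ⟨u.val, ?_, ?_⟩
    · unfold U
      rw [mem_filter, mem_range]
      refine ⟨ZMod.val_lt u, ?_⟩
      rw [Nat.coprime_comm, hd.out.coprime_iff_not_dvd]
      intro h
      apply hu.1
      have h1 := ZMod.val_lt u
      have h2 : u.val = 0 := Nat.eq_zero_of_dvd_of_lt h h1
      exact (ZMod.val_eq_zero u).1 h2
    · exact ZMod.natCast_zmod_val u
  · intro j _
    rfl

/-- Row K2c. From `corr_K` (`α = b`, `l = a'/a`, substitution `u = a j`; the term `u = 0` is `Kloo.K d 0 ^ 2 = 1`;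
`kl = Kloo.K` as in S1.lean; `ph` real so `(ph : ℂ) = kl/√d`; `e(nj/d) = ψ(nj)`, `ZMod.stdAddChar`): the sum is at most
`(1 + d (3 d^(3/4) + 3))/d ≤ 8 d^(3/4)`. -/
theorem ph_corr (d : ℕ) (hd : d.Prime) (h3 : 3 < d) (b : ℤ) (hb : ¬ (d : ℤ) ∣ b) (a a' : ℕ)
    (ha : a ∈ AA d) (ha' : a' ∈ AA d) (haa : a ≠ a') (n : ℤ) :
    ‖∑ j ∈ U d, ((ph d b (a * j) * ph d b (a' * j) : ℝ) : ℂ) * e ((n : ℝ) * ((j : ℝ) / d))‖ ≤
      8 * (d : ℝ) ^ (3 / 4 : ℝ) := by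
  have : Fact d.Prime := ⟨hd⟩
  have hd0 : (0 : ℝ) < d := by exact_mod_cast hd.pos
  have hd1 : (1 : ℝ) ≤ d := by exact_mod_cast hd.one_lt.le
  unfold AA at ha ha'
  rw [mem_Icc] at ha ha'
  have hnz : ∀ k : ℕ, 0 < k → k < d → ((k : ℕ) : ZMod d) ≠ 0 := by
    intro k hk hkd h
    rw [ZMod.natCast_eq_zero_iff] at h
    have := Nat.le_of_dvd hk h
    omega
  have haz : ((a : ℕ) : ZMod d) ≠ 0 := hnz a (by omega) (by omega)
  have haz' : ((a' : ℕ) : ZMod d) ≠ 0 := hnz a' (by omega) (by omega)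
  have hbz : ((b : ℤ) : ZMod d) ≠ 0 := by
    intro h
    exact hb ((ZMod.intCast_zmod_eq_zero_iff_dvd b d).1 h)
  set l : ZMod d := (a' : ZMod d) * ((a : ZMod d))⁻¹ with hl
  have hl0 : l ≠ 0 := mul_ne_zero haz' (inv_ne_zero haz)
  have hl2 : l ^ 2 ≠ 1 := by
    intro h
    have h1 : ((a' : ZMod d) - a) * ((a' : ZMod d) + a) = 0 := by
      have h2 : (a' : ZMod d) ^ 2 = (a : ZMod d) ^ 2 := by
        have h4 : l * (a : ZMod d) = a' := by
          rw [hl, mul_assoc, inv_mul_cancel₀ haz, mul_one]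
        rw [← h4, mul_pow, h, one_mul]
      linear_combination h2
    rcases mul_eq_zero.1 h1 with h2 | h2
    · have h4 : ((a' : ℕ) : ZMod d) = ((a : ℕ) : ZMod d) := sub_eq_zero.1 h2
      rw [ZMod.natCast_eq_natCast_iff', Nat.mod_eq_of_lt (by omega), Nat.mod_eq_of_lt (by omega)] at h4
      exact haa h4.symm
    · have h4 : (((a' + a : ℕ) : ℕ) : ZMod d) = 0 := by push_cast; exact h2
      exact hnz (a' + a) (by omega) (by omega) h4
  set s : ℂ := ((√(d : ℝ) : ℝ) : ℂ) with hs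
  have hss : s * s = (d : ℂ) := by
    rw [hs, ← Complex.ofReal_mul, Real.mul_self_sqrt hd0.le]
    simp
  set F : ZMod d → ℂ := fun u => Kloo.K d ((b : ZMod d) * ((a : ZMod d) * u) ^ 2) *
    Kloo.K d ((b : ZMod d) * ((a' : ZMod d) * u) ^ 2) * ZMod.stdAddChar ((n : ZMod d) * u) with hF
  have h1 : ∑ j ∈ U d, ((ph d b (a * j) * ph d b (a' * j) : ℝ) : ℂ) * e ((n : ℝ) * ((j : ℝ) / d)) =
      (∑ u : ZMod d, F u - F 0) / d := by
    rw [← K2c_sumU, Finset.sum_div]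
    refine sum_congr rfl fun j _ => ?_
    rw [K2c_e, Complex.ofReal_mul, K2c_ph d hd.pos, K2c_ph d hd.pos, ← hs]
    rw [hF]
    push_cast
    rw [← hss, div_mul_div_comm, div_mul_eq_mul_div]
  have hF0 : F 0 = 1 := by
    rw [hF]
    simp only [mul_zero, ne_eq, OfNat.ofNat_ne_zero, not_false_eq_true, zero_pow,
      AddChar.map_zero_eq_one, mul_one, K2c_K0]
    norm_num
  have h2 : ∑ u : ZMod d, F u = ∑ u : ZMod d, Kloo.K d ((b : ZMod d) * u ^ 2) *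
      Kloo.K d ((b : ZMod d) * (l * u) ^ 2) * ZMod.stdAddChar (((n : ZMod d) * (a : ZMod d)⁻¹) * u) := by
    refine Fintype.sum_equiv (Equiv.mulLeft₀ (a : ZMod d) haz) _ _ fun u => ?_
    change F u = Kloo.K d ((b : ZMod d) * ((a : ZMod d) * u) ^ 2) *
      Kloo.K d ((b : ZMod d) * (l * ((a : ZMod d) * u)) ^ 2) *
      ZMod.stdAddChar (((n : ZMod d) * (a : ZMod d)⁻¹) * ((a : ZMod d) * u))
    rw [hF]
    have e1 : l * ((a : ZMod d) * u) = a' * u := by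
      rw [hl]
      field_simp
    have e2 : (n : ZMod d) * (a : ZMod d)⁻¹ * ((a : ZMod d) * u) = n * u := by
      field_simp
    rw [e1, e2]
  have h4 := corr_K d h3 (b : ZMod d) l ((n : ZMod d) * (a : ZMod d)⁻¹) hbz hl0 hl2
  rw [← h2] at h4
  rw [h1, norm_div, hF0]
  have h5 : ‖((d : ℕ) : ℂ)‖ = d := by simp
  rw [h5, div_le_iff₀ hd0]
  have h6 : ‖∑ u : ZMod d, F u - 1‖ ≤ (d : ℝ) * (3 * (d : ℝ) ^ (3 / 4 : ℝ) + 3) + 1 := by
    refine (norm_sub_le _ _).trans ?_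
    rw [norm_one]
    linarith
  refine h6.trans ?_
  have h7 : (1 : ℝ) ≤ (d : ℝ) ^ (3 / 4 : ℝ) := Real.one_le_rpow hd1 (by norm_num)
  nlinarith

end CS68
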