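import Pool.Agent.LibCS68.S1
import Pool.Agent.LibKloosterman.Negative

set_option autoImplicit false
open Finset

namespace CS68

variable {d : ℕ} [hd : Fact d.Prime]

/-- Row K2a. The lemmas of `Pool/Agent/LibKloosterman/Negative.lean` for ALL odd primes `d` (there `d % 4 = 3` is assumed;
copy the proofs; `Kloo.chi`, `Kloo.gs`, `Kloo.sum_chi_psi`, `Kloo.chi_mul_self`, `Kloo.sum_psi_zero` are general). -/
theorem gs_sq (h2 : d ≠ 2) : Kloo.gs d ^ 2 = Kloo.chi d (-1) * (d : ℂ) := by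
  have hr : ringChar (ZMod d) ≠ 2 := by
    rw [ZMod.ringChar_zmod_n]
    exact h2
  have h1 : Kloo.chi d ≠ 1 := by
    unfold Kloo.chi
    rw [MulChar.ringHomComp_ne_one_iff (Int.cast_injective)]
    exact quadraticChar_ne_one hr
  unfold Kloo.gs
  rw [gaussSum_sq (χ := Kloo.chi d) h1 Kloo.chi_quad (ZMod.isPrimitive_stdAddChar d), ZMod.card]

private lemma K2a_ringChar (h2 : d ≠ 2) : ringChar (ZMod d) ≠ 2 := by
  rw [ZMod.ringChar_zmod_n]
  exact h2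

private lemma K2a_two (h2 : d ≠ 2) : (2 : ZMod d) ≠ 0 := by
  intro h
  have : ((2 : ℕ) : ZMod d) = 0 := by exact_mod_cast h
  rw [ZMod.natCast_eq_zero_iff] at this
  have := Nat.le_of_dvd (by norm_num) this
  have := hd.out.two_le
  omega

private lemma K2a_sum_chi (h2 : d ≠ 2) : ∑ y : ZMod d, Kloo.chi d y = 0 := by
  have h1 : Kloo.chi d ≠ 1 := by
    unfold Kloo.chi
    rw [MulChar.ringHomComp_ne_one_iff (Int.cast_injective)]
    exact quadraticChar_ne_one (K2a_ringChar h2)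
  exact MulChar.sum_eq_zero_of_ne_one h1

private lemma K2a_sum_chi_psi (h2 : d ≠ 2) (m : ZMod d) :
    ∑ y : ZMod d, Kloo.chi d y * (ZMod.stdAddChar (m * y) : ℂ) = Kloo.chi d m * Kloo.gs d := by
  by_cases hm : m = 0
  · subst hm
    rw [MulChar.map_zero, zero_mul]
    simp only [zero_mul, AddChar.map_zero_eq_one, mul_one]
    exact K2a_sum_chi h2
  · exact Kloo.sum_chi_psi m hm

private lemma K2a_sum_psi_sq (h2 : d ≠ 2) (c : ZMod d) (hc : c ≠ 0) :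
    ∑ u : ZMod d, (ZMod.stdAddChar (c * u ^ 2) : ℂ) = Kloo.chi d c * Kloo.gs d := by
  classical
  have h1 : ∑ u : ZMod d, (ZMod.stdAddChar (c * u ^ 2) : ℂ) =
      ∑ y : ZMod d, ∑ u ∈ univ.filter (fun u : ZMod d => u ^ 2 = y),
        (ZMod.stdAddChar (c * u ^ 2) : ℂ) := by
    rw [sum_fiberwise]
  have h3 : ∀ y : ZMod d, ∑ u ∈ univ.filter (fun u : ZMod d => u ^ 2 = y),
        (ZMod.stdAddChar (c * u ^ 2) : ℂ) = (Kloo.chi d y + 1) * ZMod.stdAddChar (c * y) := by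
    intro y
    have h4 : ∀ u ∈ univ.filter (fun u : ZMod d => u ^ 2 = y),
        (ZMod.stdAddChar (c * u ^ 2) : ℂ) = ZMod.stdAddChar (c * y) := by
      intro u hu
      rw [(mem_filter.1 hu).2]
    rw [sum_congr rfl h4, sum_const, nsmul_eq_mul]
    congr 1
    have h5 := quadraticChar_card_sqrts (K2a_ringChar h2) y
    have h6 : #{x : ZMod d | x ^ 2 = y}.toFinset =
        #(univ.filter (fun u : ZMod d => u ^ 2 = y)) := by
      congr 1
      ext u; simp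
    rw [h6] at h5
    rw [Kloo.chi_apply]
    exact_mod_cast congrArg (fun z : ℤ => (z : ℂ)) h5
  rw [h1, sum_congr rfl fun y _ => h3 y]
  simp_rw [add_mul, one_mul]
  rw [sum_add_distrib, Kloo.sum_psi_zero c hc, add_zero, Kloo.sum_chi_psi c hc]

/-- completing the square -/
theorem sum_psi_quad (h2 : d ≠ 2) (c k : ZMod d) (hc : c ≠ 0) :
    ∑ u : ZMod d, (ZMod.stdAddChar (c * u ^ 2 + k * u) : ℂ) =
      ZMod.stdAddChar (-(k ^ 2 * (4 * c)⁻¹)) * (Kloo.chi d c * Kloo.gs d) := by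
  have h20 : (2 : ZMod d) ≠ 0 := K2a_two h2
  have h4 : (4 : ZMod d) ≠ 0 := by
    have : (4 : ZMod d) = 2 * 2 := by norm_num
    rw [this]; exact mul_ne_zero h20 h20
  rw [← K2a_sum_psi_sq h2 c hc, mul_sum]
  refine Fintype.sum_equiv (Equiv.addRight (k * (2 * c)⁻¹)) _ _ fun u => ?_
  rw [Equiv.coe_addRight, ← AddChar.map_add_eq_mul]
  congr 1
  field_simp
  ring

/-- `∑_{u mod d} S(α u^2, 1; d) ψ(k u) = d χ(k^2 - 4α)` (`Kloo.K d 0 = -1` at `u = 0`). -/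
theorem sum_K (h2 : d ≠ 2) (α k : ZMod d) (hα : α ≠ 0) :
    ∑ u : ZMod d, Kloo.K d (α * u ^ 2) * ZMod.stdAddChar (k * u) = d * Kloo.chi d (k ^ 2 - 4 * α) := by
  have h20 : (2 : ZMod d) ≠ 0 := K2a_two h2
  have h40 : (4 : ZMod d) ≠ 0 := by
    have : (4 : ZMod d) = 2 * 2 := by norm_num
    rw [this]; exact mul_ne_zero h20 h20
  have e1 : ∑ u : ZMod d, Kloo.K d (α * u ^ 2) * ZMod.stdAddChar (k * u) =
      ∑ x : (ZMod d)ˣ, ZMod.stdAddChar (((x⁻¹ : (ZMod d)ˣ)) : ZMod d) *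
        ∑ u : ZMod d, (ZMod.stdAddChar (α * (x : ZMod d) * u ^ 2 + k * u) : ℂ) := by
    unfold Kloo.K
    simp_rw [sum_mul, mul_sum]
    rw [sum_comm]
    refine sum_congr rfl fun x _ => sum_congr rfl fun u _ => ?_
    rw [← AddChar.map_add_eq_mul, ← AddChar.map_add_eq_mul]
    congr 1; ring
  rw [e1]
  have e2 : ∀ x : (ZMod d)ˣ, ZMod.stdAddChar (((x⁻¹ : (ZMod d)ˣ)) : ZMod d) *
        ∑ u : ZMod d, (ZMod.stdAddChar (α * (x : ZMod d) * u ^ 2 + k * u) : ℂ) =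
      (Kloo.chi d α * Kloo.gs d) * (Kloo.chi d (((x⁻¹ : (ZMod d)ˣ)) : ZMod d) *
        ZMod.stdAddChar ((1 - k ^ 2 * (4 * α)⁻¹) * (((x⁻¹ : (ZMod d)ˣ)) : ZMod d))) := by
    intro x
    rw [sum_psi_quad h2 (α * (x : ZMod d)) k (mul_ne_zero hα x.ne_zero)]
    have e3 : Kloo.chi d (α * (x : ZMod d)) =
        Kloo.chi d α * Kloo.chi d (((x⁻¹ : (ZMod d)ˣ)) : ZMod d) := by
      rw [map_mul]
      congr 1
      have e4 := Kloo.chi_mul_self (x : ZMod d) x.ne_zero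
      have e5 : Kloo.chi d (x : ZMod d) * Kloo.chi d (((x⁻¹ : (ZMod d)ˣ)) : ZMod d) = 1 := by
        rw [← map_mul, Units.mul_inv, map_one]
      have e6 : Kloo.chi d (x : ZMod d) ≠ 0 := by
        intro h; rw [h, zero_mul] at e4; exact zero_ne_one e4
      exact mul_left_cancel₀ e6 (e4.trans e5.symm)
    rw [e3]
    have e4 : (ZMod.stdAddChar ((1 - k ^ 2 * (4 * α)⁻¹) * (((x⁻¹ : (ZMod d)ˣ)) : ZMod d)) : ℂ) =
        ZMod.stdAddChar (((x⁻¹ : (ZMod d)ˣ)) : ZMod d) *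
          ZMod.stdAddChar (-(k ^ 2 * (4 * (α * (x : ZMod d)))⁻¹)) := by
      rw [← AddChar.map_add_eq_mul]
      congr 1
      rw [Units.val_inv_eq_inv_val, mul_inv, mul_inv, mul_inv]
      ring
    rw [e4]
    ring
  rw [sum_congr rfl fun x _ => e2 x, ← mul_sum]
  have e5 : ∑ x : (ZMod d)ˣ, (Kloo.chi d (((x⁻¹ : (ZMod d)ˣ)) : ZMod d) *
        ZMod.stdAddChar ((1 - k ^ 2 * (4 * α)⁻¹) * (((x⁻¹ : (ZMod d)ˣ)) : ZMod d))) =
      Kloo.chi d (1 - k ^ 2 * (4 * α)⁻¹) * Kloo.gs d := by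
    rw [← K2a_sum_chi_psi h2, Kloo.sum_units_eq]
    rw [MulChar.map_zero, zero_mul, zero_add]
    exact Fintype.sum_equiv (Equiv.inv _) _ _ fun u => rfl
  rw [e5]
  have e6 := gs_sq (d := d) h2
  have e7 : Kloo.chi d (k ^ 2 - 4 * α) =
      Kloo.chi d α * Kloo.chi d (1 - k ^ 2 * (4 * α)⁻¹) * Kloo.chi d (-1) := by
    have h5 : k ^ 2 - 4 * α = (2 * 2) * (α * (1 - k ^ 2 * (4 * α)⁻¹) * (-1)) := by
      field_simp
      ring
    have h6 : Kloo.chi d ((2 : ZMod d) * 2) = 1 := by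
      rw [map_mul]
      exact Kloo.chi_mul_self 2 h20
    rw [h5, map_mul, h6, one_mul, map_mul, map_mul]
  rw [e7]
  linear_combination (Kloo.chi d α * Kloo.chi d (1 - k ^ 2 * (4 * α)⁻¹)) * e6

end CS68
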