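import Pool.Agent.LibCS68.DV
import Pool.Agent.LibCS68.K2a
import Pool.Agent.LibKlVar.KV_Main

set_option autoImplicit false
open Finset

namespace CS68

/-- Row K3a. Weil's bound: `Pool.KV.kl_le p hp (Pool.KV.weilBd p hp) a` (`Pool.KV.kl a p` is `kl a 1 p`: the same sum, with
`1 * x⁻¹`). -/
theorem ph_le (d : ℕ) (hd : d.Prime) (b r : ℤ) : |ph d b r| ≤ 2 := by
  have h1 : kl (b * r ^ 2) 1 d = Pool.KV.kl (b * r ^ 2) d := by
    unfold kl Pool.KV.kl
    simp only [Int.cast_one, one_mul]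
  have h2 := Pool.KV.kl_le d hd (Pool.KV.weilBd d hd) (b * r ^ 2)
  have hd0 : (0 : ℝ) < d := by exact_mod_cast hd.pos
  have hs : 0 < Real.sqrt d := Real.sqrt_pos.2 hd0
  unfold ph
  rw [abs_div, abs_of_pos hs, div_le_iff₀ hs, h1]
  exact (Complex.abs_re_le_norm _).trans h2

theorem ph_sg (d : ℕ) (hd : d.Prime) (b r : ℤ) : ph d b r = |ph d b r| * sg d b r ∧ ph d b r ≠ 0 := by
  have : NeZero d := ⟨hd.ne_zero⟩
  obtain ⟨s, hs0, hs⟩ := S1_real d hd.prime.squarefree b r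
  have hd0 : (0 : ℝ) < d := by exact_mod_cast hd.pos
  have hq : 0 < Real.sqrt d := Real.sqrt_pos.2 hd0
  have hph : ph d b r = s / Real.sqrt d := by
    unfold ph
    rw [hs, Complex.ofReal_re]
  rw [hph, S1_sg hs]
  refine ⟨?_, div_ne_zero hs0 hq.ne'⟩
  rcases lt_or_gt_of_ne hs0 with h | h
  · rw [if_neg (not_lt.2 h.le), abs_of_neg (div_neg_of_neg_of_pos h hq)]
    ring
  · rw [if_pos h, abs_of_pos (div_pos h hq), mul_one]

/-- the value `|S(b u^2,1;d)|/√d` as a function of a residue class -/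
noncomputable def K3_g (d : ℕ) [NeZero d] (b : ℤ) (u : ZMod d) : ℝ :=
  |(Kloo.K d ((b : ZMod d) * u ^ 2)).re| / Real.sqrt d

lemma K3_ph (d : ℕ) [NeZero d] (b r : ℤ) : |ph d b r| = K3_g d b (r : ZMod d) := by
  unfold ph K3_g
  rw [abs_div, abs_of_nonneg (Real.sqrt_nonneg _), S1_kl]
  push_cast
  rfl

lemma K3_neg (d : ℕ) [NeZero d] (b : ℤ) (u : ZMod d) : K3_g d b (-u) = K3_g d b u := by
  unfold K3_g
  rw [neg_sq]

lemma K3_nonneg (d : ℕ) [NeZero d] (b : ℤ) (u : ZMod d) : 0 ≤ K3_g d b u := by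
  unfold K3_g
  positivity

/-- Parseval -/
lemma K3_parseval (d : ℕ) [NeZero d] [hp : Fact d.Prime] (f : ZMod d → ℂ)
    (hf : ∀ u, (starRingEnd ℂ) (f u) = f u) :
    ∑ k : ZMod d, (∑ u : ZMod d, f u * ZMod.stdAddChar (k * u)) *
      (starRingEnd ℂ) (∑ u : ZMod d, f u * ZMod.stdAddChar (k * u)) =
      d * ∑ u : ZMod d, f u ^ 2 := by
  have hconj : ∀ x : ZMod d, (starRingEnd ℂ) (ZMod.stdAddChar x : ℂ) = ZMod.stdAddChar (-x) := by
    intro x
    rw [AddChar.map_neg_eq_conj]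
  have h1 : ∀ k : ZMod d, (∑ u : ZMod d, f u * ZMod.stdAddChar (k * u)) *
      (starRingEnd ℂ) (∑ u : ZMod d, f u * ZMod.stdAddChar (k * u)) =
      ∑ u : ZMod d, ∑ v : ZMod d, f u * f v * ZMod.stdAddChar (k * (u - v)) := by
    intro k
    rw [map_sum, sum_mul_sum]
    refine sum_congr rfl fun u _ => sum_congr rfl fun v _ => ?_
    have e1 : (starRingEnd ℂ) (f v * ZMod.stdAddChar (k * v)) = f v * ZMod.stdAddChar (-(k * v)) := by
      rw [map_mul (starRingEnd ℂ), hf, hconj]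
    have e2 : (ZMod.stdAddChar (k * (u - v)) : ℂ) = ZMod.stdAddChar (k * u) * ZMod.stdAddChar (-(k * v)) := by
      rw [mul_sub, sub_eq_add_neg, AddChar.map_add_eq_mul]
    rw [e1, e2]
    ring
  simp_rw [h1]
  rw [sum_comm, mul_sum]
  refine sum_congr rfl fun u _ => ?_
  rw [sum_comm]
  have h2 : ∀ v : ZMod d, ∑ k : ZMod d, f u * f v * (ZMod.stdAddChar (k * (u - v)) : ℂ) =
      if u = v then (d : ℂ) * f u ^ 2 else 0 := by
    intro v
    rw [← mul_sum, AddChar.sum_mulShift (u - v) (ZMod.isPrimitive_stdAddChar d)]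
    by_cases h : u = v
    · subst h
      rw [if_pos (sub_self _), if_pos rfl, ZMod.card]
      ring
    · rw [if_neg (sub_ne_zero.2 h), if_neg h, Nat.cast_zero, mul_zero]
  simp_rw [h2]
  rw [sum_ite_eq, if_pos (mem_univ _)]

/-- second moment -/
lemma K3_sq (d : ℕ) [NeZero d] [hp : Fact d.Prime] (h2 : d ≠ 2) (b : ℤ) (hb : ¬ (d : ℤ) ∣ b) :
    (d : ℝ) - 2 ≤ ∑ u : ZMod d, K3_g d b u ^ 2 := by
  have hd0 : (0 : ℝ) < d := by exact_mod_cast hp.out.pos
  have hα : (b : ZMod d) ≠ 0 := by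
    intro h
    exact hb ((ZMod.intCast_zmod_eq_zero_iff_dvd b d).1 h)
  have hre : ∀ α : ZMod d, Kloo.K d α = ((Kloo.K d α).re : ℂ) := fun α =>
    (Complex.conj_eq_iff_re.1 (Kloo.K_conj d α)).symm
  have hP := K3_parseval d (fun u => Kloo.K d ((b : ZMod d) * u ^ 2)) (fun u => Kloo.K_conj d _)
  simp only [sum_K h2 _ _ hα] at hP
  -- left side
  have hchi : ∀ x : ZMod d, x ≠ 0 → (d * Kloo.chi d x : ℂ) * (starRingEnd ℂ) (d * Kloo.chi d x) =
      ((d : ℝ) ^ 2 : ℝ) := by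
    intro x hx
    have e1 : (starRingEnd ℂ) (Kloo.chi d x) = Kloo.chi d x := by
      rw [Kloo.chi_apply]
      exact Complex.conj_eq_iff_real.2 ⟨((quadraticChar (ZMod d) x : ℤ) : ℝ), by push_cast; rfl⟩
    rw [map_mul, e1, Complex.conj_natCast]
    have e2 := Kloo.chi_mul_self x hx
    push_cast
    linear_combination (d : ℂ) ^ 2 * e2
  have hchi0 : ∀ x : ZMod d, ∃ t : ℝ, 0 ≤ t ∧ (d * Kloo.chi d x : ℂ) * (starRingEnd ℂ) (d * Kloo.chi d x) =
      (t : ℂ) := by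
    intro x
    refine ⟨Complex.normSq (d * Kloo.chi d x), Complex.normSq_nonneg _, ?_⟩
    rw [Complex.mul_conj]
  choose t ht0 ht using hchi0
  have hP' : ∑ k : ZMod d, t (k ^ 2 - 4 * (b : ZMod d)) =
      d * ∑ u : ZMod d, ((Kloo.K d ((b : ZMod d) * u ^ 2)).re) ^ 2 := by
    have e1 : ((∑ k : ZMod d, t (k ^ 2 - 4 * (b : ZMod d)) : ℝ) : ℂ) =
        ((d * ∑ u : ZMod d, ((Kloo.K d ((b : ZMod d) * u ^ 2)).re) ^ 2 : ℝ) : ℂ) := by
      push_cast
      simp_rw [← hre, ← ht]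
      exact hP
    exact_mod_cast e1
  -- the exceptional k
  have hexc : ((univ.filter (fun k : ZMod d => k ^ 2 - 4 * (b : ZMod d) = 0)).card) ≤ 2 := by
    by_cases hne : (univ.filter (fun k : ZMod d => k ^ 2 - 4 * (b : ZMod d) = 0)).Nonempty
    · obtain ⟨k0, hk0⟩ := hne
      rw [mem_filter] at hk0
      have hsub : univ.filter (fun k : ZMod d => k ^ 2 - 4 * (b : ZMod d) = 0) ⊆ {k0, -k0} := by
        intro k hk
        rw [mem_filter] at hk
        rw [mem_insert, mem_singleton]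
        have : (k - k0) * (k + k0) = 0 := by linear_combination hk.2 - hk0.2
        rcases mul_eq_zero.1 this with h | h
        · left; exact sub_eq_zero.1 h
        · right; exact eq_neg_of_add_eq_zero_left h
      exact (card_le_card hsub).trans card_le_two
    · rw [not_nonempty_iff_eq_empty] at hne
      rw [hne]; simp
  have hlow : (d : ℝ) ^ 2 * (d - 2) ≤ ∑ k : ZMod d, t (k ^ 2 - 4 * (b : ZMod d)) := by
    have e1 : ∑ k ∈ univ.filter (fun k : ZMod d => ¬ (k ^ 2 - 4 * (b : ZMod d) = 0)),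
        t (k ^ 2 - 4 * (b : ZMod d)) ≤ ∑ k : ZMod d, t (k ^ 2 - 4 * (b : ZMod d)) :=
      sum_le_sum_of_subset_of_nonneg (filter_subset _ _) (fun k _ _ => ht0 _)
    refine le_trans ?_ e1
    have e2 : ∀ k ∈ univ.filter (fun k : ZMod d => ¬ (k ^ 2 - 4 * (b : ZMod d) = 0)),
        t (k ^ 2 - 4 * (b : ZMod d)) = (d : ℝ) ^ 2 := by
      intro k hk
      rw [mem_filter] at hk
      have := (ht (k ^ 2 - 4 * (b : ZMod d))).symm.trans (hchi _ hk.2)
      exact_mod_cast this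
    rw [sum_congr rfl e2, sum_const, nsmul_eq_mul]
    have e3 : (univ.filter (fun k : ZMod d => k ^ 2 - 4 * (b : ZMod d) = 0)).card +
        (univ.filter (fun k : ZMod d => ¬ (k ^ 2 - 4 * (b : ZMod d) = 0))).card = d := by
      rw [card_filter_add_card_filter_not, card_univ, ZMod.card]
    have e4 : (d : ℝ) - 2 ≤ ((univ.filter (fun k : ZMod d => ¬ (k ^ 2 - 4 * (b : ZMod d) = 0))).card : ℝ) := by
      have e5 : (((univ.filter (fun k : ZMod d => k ^ 2 - 4 * (b : ZMod d) = 0)).card : ℕ) : ℝ) ≤ 2 := by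
        exact_mod_cast hexc
      have e6 : (((univ.filter (fun k : ZMod d => k ^ 2 - 4 * (b : ZMod d) = 0)).card : ℕ) : ℝ) +
        (((univ.filter (fun k : ZMod d => ¬ (k ^ 2 - 4 * (b : ZMod d) = 0))).card : ℕ) : ℝ) = d := by
        exact_mod_cast e3
      linarith
    nlinarith [sq_nonneg (d : ℝ)]
  rw [hP'] at hlow
  have hg : ∀ u : ZMod d, K3_g d b u ^ 2 = ((Kloo.K d ((b : ZMod d) * u ^ 2)).re) ^ 2 / d := by
    intro u
    unfold K3_g
    rw [div_pow, sq_abs, Real.sq_sqrt hd0.le]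
  simp_rw [hg]
  rw [← sum_div, le_div_iff₀ hd0]
  have h3 : (d : ℝ) * ((d - 2) * d) ≤ d * ∑ u : ZMod d, ((Kloo.K d ((b : ZMod d) * u ^ 2)).re) ^ 2 := by
    calc (d : ℝ) * ((d - 2) * d) = (d : ℝ) ^ 2 * (d - 2) := by ring
      _ ≤ _ := hlow
  exact le_of_mul_le_mul_left h3 hd0

lemma K3_K0 (d : ℕ) [NeZero d] [hp : Fact d.Prime] (b : ℤ) : K3_g d b 0 ^ 2 = 1 / d := by
  have hd0 : (0 : ℝ) < d := by exact_mod_cast hp.out.pos
  have h0 : Kloo.K d 0 = -1 := by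
    unfold Kloo.K
    have h1 := Kloo.sum_psi_zero (d := d) 1 one_ne_zero
    have h2 := Kloo.sum_units_eq (d := d) (fun x => (ZMod.stdAddChar (1 * x) : ℂ))
    rw [h1, mul_zero, AddChar.map_zero_eq_one] at h2
    have h3 : ∑ u : (ZMod d)ˣ, (ZMod.stdAddChar (0 * (u : ZMod d) + ((u⁻¹ : (ZMod d)ˣ) : ZMod d)) : ℂ) =
        ∑ u : (ZMod d)ˣ, (ZMod.stdAddChar (1 * (u : ZMod d)) : ℂ) := by
      refine Fintype.sum_equiv (Equiv.inv (ZMod d)ˣ) _ _ (fun u => ?_)
      rw [Equiv.inv_apply, zero_mul, zero_add, one_mul]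
    rw [h3]
    linear_combination -h2
  unfold K3_g
  rw [zero_pow two_ne_zero, mul_zero, h0, div_pow, sq_abs, Real.sq_sqrt hd0.le]
  simp

/-- sum over residues as a sum over a half system -/
lemma K3_half (d : ℕ) [NeZero d] [hp : Fact d.Prime] (h2 : d ≠ 2) (g : ZMod d → ℝ)
    (hg : ∀ u, g (-u) = g u) (j : ZMod d) (hj : j ≠ 0) :
    ∑ u : ZMod d, g u = g 0 + 2 * ∑ a ∈ AA d, g ((a : ZMod d) * j) := by
  obtain ⟨m, hm⟩ : ∃ m, d = 2 * m + 1 := by
    rcases hp.out.eq_two_or_odd' with h | h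
    · exact absurd h h2
    · exact h
  -- multiplication by j
  have h1 : ∑ u : ZMod d, g u = ∑ u : ZMod d, g (u * j) :=
    (Fintype.sum_equiv (Equiv.mulRight₀ j hj) (fun u => g (u * j)) g (fun u => rfl)).symm
  -- sum over a range
  have h3 : ∑ u : ZMod d, g (u * j) = ∑ a ∈ range d, g ((a : ZMod d) * j) := by
    symm
    refine sum_bij (fun (a : ℕ) _ => (a : ZMod d)) (fun _ _ => mem_univ _) ?_ ?_ (fun _ _ => rfl)
    · intro a ha b hb h
      rw [mem_range] at ha hb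
      have := congrArg ZMod.val h
      rwa [ZMod.val_natCast, ZMod.val_natCast, Nat.mod_eq_of_lt ha, Nat.mod_eq_of_lt hb] at this
    · intro u _
      exact ⟨u.val, mem_range.2 (ZMod.val_lt u), ZMod.natCast_zmod_val u⟩
  have hAA : AA d = Icc 1 m := by
    unfold AA
    rw [hm]
    congr 1
    omega
  have h4 : range d = insert 0 (Icc 1 m ∪ Icc (m + 1) (2 * m)) := by
    ext a
    simp only [mem_range, mem_insert, mem_union, mem_Icc]
    omega
  have hdisj : Disjoint (Icc 1 m) (Icc (m + 1) (2 * m)) := by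
    rw [disjoint_left]
    intro a ha hb
    rw [mem_Icc] at ha hb
    omega
  have h0 : (0 : ℕ) ∉ Icc 1 m ∪ Icc (m + 1) (2 * m) := by
    simp only [mem_union, mem_Icc]
    omega
  have h5 : ∑ a ∈ Icc (m + 1) (2 * m), g ((a : ZMod d) * j) = ∑ a ∈ Icc 1 m, g ((a : ZMod d) * j) := by
    refine sum_bij (fun a _ => d - a) ?_ ?_ ?_ ?_
    · intro a ha
      rw [mem_Icc] at ha ⊢
      omega
    · intro a ha b hb h
      rw [mem_Icc] at ha hb
      omega
    · intro b hb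
      rw [mem_Icc] at hb
      refine ⟨d - b, ?_, ?_⟩
      · rw [mem_Icc]; omega
      · omega
    · intro a ha
      rw [mem_Icc] at ha
      rw [Nat.cast_sub (by omega), ZMod.natCast_self, zero_sub, neg_mul, hg]
  rw [h1, h3, h4, sum_insert h0, sum_union hdisj, h5, hAA, Nat.cast_zero, zero_mul]
  ring

/-- Row K3b. `∑_{u mod d} S(b u^2,1;d)^2 ≥ d (d-2)` by Parseval from `sum_K` (`∑_k |d χ(k^2 - 4b)|^2 ≥ d^2 (d - 2)`), minus
the term `u = 0` (`= 1`); so `∑_{u ∈ U d} ph^2 ≥ d - 2 - 1/d`, and `|ph| ≥ ph^2/2`. As `d ≥ 11` this is at least `2d/5`.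
For the half system: `ph d b (a j)`, `a ∈ AA d`, runs (`ph` even, depends on the residue only) over `U d` up to sign,
`j ∈ U d`: `2 ∑_{a ∈ AA d} |ph d b (a j)| = ∑_{u ∈ U d} |ph d b u|`. -/
theorem ph_half (d : ℕ) (hd : d.Prime) (h11 : 11 ≤ d) (b : ℤ) (hb : ¬ (d : ℤ) ∣ b) (j : ℕ) (hj : j ∈ U d) :
    (d : ℝ) / 5 ≤ ∑ a ∈ AA d, |ph d b (a * j)| := by
  have hp : Fact d.Prime := ⟨hd⟩
  have : NeZero d := ⟨hd.ne_zero⟩
  have h2 : d ≠ 2 := by omega
  have hd11 : (11 : ℝ) ≤ d := by exact_mod_cast h11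
  have hj0 : (j : ZMod d) ≠ 0 := by
    intro h
    rw [U, mem_filter, mem_range] at hj
    rw [ZMod.natCast_eq_zero_iff] at h
    have h3 := Nat.Coprime.eq_one_of_dvd hj.2.symm h
    omega
  have hle : ∀ u : ZMod d, K3_g d b u ≤ 2 := by
    intro u
    have h1 := ph_le d hd b (u.val : ℤ)
    rw [K3_ph] at h1
    have h3 : (((u.val : ℕ) : ℤ) : ZMod d) = u := by
      rw [Int.cast_natCast, ZMod.natCast_zmod_val]
    rwa [h3] at h1
  have hsq := K3_sq d h2 b hb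
  have hH := K3_half d h2 (fun u => K3_g d b u ^ 2) (fun u => by simp only [K3_neg]) (j : ZMod d) hj0
  simp only [K3_K0] at hH
  rw [hH] at hsq
  have h4 : ∑ a ∈ AA d, K3_g d b ((a : ZMod d) * (j : ZMod d)) ^ 2 ≤
      2 * ∑ a ∈ AA d, K3_g d b ((a : ZMod d) * (j : ZMod d)) := by
    rw [mul_sum]
    refine sum_le_sum fun a _ => ?_
    nlinarith [hle ((a : ZMod d) * (j : ZMod d)), K3_nonneg d b ((a : ZMod d) * (j : ZMod d))]
  have h5 : ∑ a ∈ AA d, |ph d b (a * j)| = ∑ a ∈ AA d, K3_g d b ((a : ZMod d) * (j : ZMod d)) := by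
    refine sum_congr rfl fun a _ => ?_
    rw [K3_ph]
    push_cast
    rfl
  rw [h5]
  have h6 : (1 : ℝ) / d ≤ 1 / 11 := by
    apply one_div_le_one_div_of_le <;> linarith
  linarith

end CS68
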