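import Pool.Agent.LibCS68.D1a
import Pool.Agent.LibCS68.K2c
import Pool.Agent.LibCS68.K3

set_option autoImplicit false
open Finset

namespace CS68

theorem K6_NP_le (X : ℕ) (P : Finset ℕ) (hP : InX X P) : NP P ≤ 2 * X * #P := by
  unfold NP
  have h : ∀ p ∈ P, ((p : ℝ) - 1) ≤ 2 * X := by
    intro p hp
    have h1 := (hP p hp).2.2
    have h2 : (p : ℝ) ≤ 2 * X := by exact_mod_cast h1
    linarith
  refine (Finset.sum_le_sum h).trans ?_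
  rw [Finset.sum_const, nsmul_eq_mul, mul_comm]

theorem K6_root (X H : ℕ) (P : Finset ℕ) (hP : InX X P) (h1 : 8 * H ≤ X * #P) :
    √(BP H P) ≤ √2 * (2 * X * #P) := by
  have h2 := BP_le X H P hP
  have h3 := NP_ge X P hP
  have h4 : (8 : ℝ) * H ≤ X * #P := by exact_mod_cast h1
  have h0 : (0 : ℝ) ≤ X * #P := by positivity
  have h5 : 8 * (H : ℝ) * X * #P ≤ NP P ^ 2 := by
    calc 8 * (H : ℝ) * X * #P = (8 * H) * (X * #P) := by ring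
      _ ≤ (X * #P) * (X * #P) := mul_le_mul_of_nonneg_right h4 h0
      _ = (X * #P : ℝ) ^ 2 := by ring
      _ ≤ NP P ^ 2 := pow_le_pow_left₀ h0 h3 2
  have h6 : BP H P ≤ 2 * NP P ^ 2 := by linarith
  have h7 : 0 ≤ NP P := h0.trans h3
  calc √(BP H P) ≤ √(2 * NP P ^ 2) := Real.sqrt_le_sqrt h6
    _ = √2 * NP P := by
      rw [Real.sqrt_mul (by norm_num), Real.sqrt_sq h7]
    _ ≤ √2 * (2 * X * #P) := mul_le_mul_of_nonneg_left (K6_NP_le X P hP) (Real.sqrt_nonneg _)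

theorem K6_exp (d : ℕ) (b : ℤ) (H : ℕ) (P Q : Finset ℕ) :
    ∑ j ∈ U d, ∑ p ∈ P, ∑ x ∈ U p, ∑ q ∈ Q, ∑ y ∈ U q,
      VV d p q b j x y ^ 2 * Fj H ((j : ℝ) / d + (x : ℝ) / p + (y : ℝ) / q) =
    ∑ z ∈ AA d ×ˢ AA d, TT H d P Q
      (fun j : ℕ => ph d b ((z.1 : ℤ) * j) * ph d b ((z.2 : ℤ) * j))
      (fun p x : ℕ => sg p b ((z.1 : ℤ) * x) * sg p b ((z.2 : ℤ) * x))
      (fun q y : ℕ => sg q b ((z.1 : ℤ) * y) * sg q b ((z.2 : ℤ) * y)) := by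
  unfold TT
  symm
  rw [Finset.sum_comm]
  refine Finset.sum_congr rfl fun j _ => ?_
  rw [Finset.sum_comm]
  refine Finset.sum_congr rfl fun p _ => ?_
  rw [Finset.sum_comm]
  refine Finset.sum_congr rfl fun x _ => ?_
  rw [Finset.sum_comm]
  refine Finset.sum_congr rfl fun q _ => ?_
  rw [Finset.sum_comm]
  refine Finset.sum_congr rfl fun y _ => ?_
  unfold VV
  rw [sq, Finset.sum_mul_sum, Finset.sum_product, Finset.sum_mul]
  refine Finset.sum_congr rfl fun a _ => ?_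
  rw [Finset.sum_mul]
  refine Finset.sum_congr rfl fun a' _ => ?_
  ring

theorem K6_sg_abs (p : ℕ) (b r s : ℤ) : |sg p b r * sg p b s| ≤ 1 := by
  rcases sg_or p b r with h1 | h1 <;> rcases sg_or p b s with h2 | h2 <;> rw [h1, h2] <;> norm_num

theorem K6_cardAA (d : ℕ) : (#(AA d) : ℝ) ≤ d / 2 := by
  unfold AA
  rw [Nat.card_Icc]
  have h : 2 * ((d - 1) / 2 + 1 - 1) ≤ d := by omega
  have h2 : (2 : ℝ) * (((d - 1) / 2 + 1 - 1 : ℕ) : ℝ) ≤ d := by exact_mod_cast h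
  linarith

theorem K6_diag (d : ℕ) (hd : d.Prime) (b : ℤ) (a : ℕ) (n : ℤ) :
    ‖∑ j ∈ U d, ((ph d b (a * j) * ph d b (a * j) : ℝ) : ℂ) * e ((n : ℝ) * ((j : ℝ) / d))‖ ≤
      4 * d := by
  have h1 : ∀ j ∈ U d,
      ‖((ph d b (a * j) * ph d b (a * j) : ℝ) : ℂ) * e ((n : ℝ) * ((j : ℝ) / d))‖ ≤ 4 := by
    intro j _
    have h2 : ‖e ((n : ℝ) * ((j : ℝ) / d))‖ = 1 := by
      unfold e
      rw [Complex.norm_exp]
      simp
    rw [norm_mul, h2, mul_one, Complex.norm_real, Real.norm_eq_abs, abs_mul]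
    have h3 := ph_le d hd b (a * j)
    have h4 := abs_nonneg (ph d b (a * j))
    nlinarith
  refine (norm_sum_le_of_le _ h1).trans ?_
  rw [Finset.sum_const, nsmul_eq_mul]
  have h5 : #(U d) ≤ d := by
    unfold U
    exact (Finset.card_filter_le _ _).trans (by rw [Finset.card_range])
  have h6 : (#(U d) : ℝ) ≤ d := by exact_mod_cast h5
  linarith

open Classical in
/-- Row K6 (exceptional mass). `[d/10 < |V|] ≤ (100/d^2) V^2`, `V^2 = ∑_{a,a'} ph ph (s s)(s s)`; exchange the sums: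
`∑ V^2 Fj = ∑_{a,a'} TT H d P Q (ph(aj) ph(a'j)) (sg sg) (sg sg)`. `TT_le` with `ρ = 4 #(U d) ≤ 4d` for `a = a'` (`ph_le`)
and `ρ = 8 d^(3/4)` for `a ≠ a'` (`ph_corr`). `#(AA d) ≤ d/2`:
`(100/d^2) (d/2 · 4d + d^2/4 · 8 d^(3/4)) ≤ 400 d^(3/4)`. `√(BP) ≤ √(NP^2 + (X #P)^2) ≤ √2 · NP ≤ √2 · 2 X #P` (`BP_le`,
`NP ≤ 2 X #P`): total `≤ 3200 d^(3/4) X^2 #P #Q`. -/
theorem exc_mass (d : ℕ) (hd : d.Prime) (h11 : 11 ≤ d) (b : ℤ) (hb : ¬ (d : ℤ) ∣ b) (X H : ℕ)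
    (P Q : Finset ℕ) (hP : InX X P) (hQ : InX X Q) (h1 : 8 * H ≤ X * #P) (h2 : 8 * H ≤ X * #Q) :
    ∑ j ∈ U d, ∑ p ∈ P, ∑ x ∈ U p, ∑ q ∈ Q, ∑ y ∈ U q,
      (if (d : ℝ) / 10 < |VV d p q b j x y| then
        Fj H ((j : ℝ) / d + (x : ℝ) / p + (y : ℝ) / q) else 0) ≤
      4000 * (d : ℝ) ^ (3 / 4 : ℝ) * (X ^ 2 * #P * #Q) := by
  have hd0 : (0 : ℝ) < d := by exact_mod_cast hd.pos
  have hd1 : (1 : ℝ) ≤ (d : ℝ) ^ (3 / 4 : ℝ) :=
    Real.one_le_rpow (by exact_mod_cast hd.one_lt.le) (by norm_num)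
  -- step 1: Chebyshev
  have s1 : ∑ j ∈ U d, ∑ p ∈ P, ∑ x ∈ U p, ∑ q ∈ Q, ∑ y ∈ U q,
      (if (d : ℝ) / 10 < |VV d p q b j x y| then
        Fj H ((j : ℝ) / d + (x : ℝ) / p + (y : ℝ) / q) else 0) ≤
      100 / (d : ℝ) ^ 2 * ∑ j ∈ U d, ∑ p ∈ P, ∑ x ∈ U p, ∑ q ∈ Q, ∑ y ∈ U q,
        VV d p q b j x y ^ 2 * Fj H ((j : ℝ) / d + (x : ℝ) / p + (y : ℝ) / q) := by
    simp only [Finset.mul_sum]
    refine Finset.sum_le_sum fun j _ => Finset.sum_le_sum fun p _ => Finset.sum_le_sum fun x _ =>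
      Finset.sum_le_sum fun q _ => Finset.sum_le_sum fun y _ => ?_
    have hF := Fj_nonneg H ((j : ℝ) / d + (x : ℝ) / p + (y : ℝ) / q)
    split_ifs with h
    · have h3 : 1 ≤ 100 / (d : ℝ) ^ 2 * VV d p q b j x y ^ 2 := by
        have h4 : ((d : ℝ) / 10) ^ 2 ≤ VV d p q b j x y ^ 2 := by
          rw [← sq_abs (VV d p q b j x y)]
          exact pow_le_pow_left₀ (by positivity) h.le 2
        rw [div_mul_eq_mul_div, le_div_iff₀ (by positivity)]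
        nlinarith
      rw [← mul_assoc]
      exact le_mul_of_one_le_left hF h3
    · positivity
  refine s1.trans ?_
  rw [K6_exp]
  -- step 2: each term
  have hR : √(BP H P) * √(BP H Q) ≤ 8 * (X ^ 2 * #P * #Q) := by
    have e1 := K6_root X H P hP h1
    have e2 := K6_root X H Q hQ h2
    calc √(BP H P) * √(BP H Q) ≤ (√2 * (2 * X * #P)) * (√2 * (2 * X * #Q)) :=
          mul_le_mul e1 e2 (Real.sqrt_nonneg _) (by positivity)
      _ = (√2 * √2) * (4 * (X ^ 2 * #P * #Q)) := by ring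
      _ = 8 * (X ^ 2 * #P * #Q) := by
          rw [Real.mul_self_sqrt (by norm_num)]
          ring
  have hR0 : 0 ≤ √(BP H P) * √(BP H Q) := by positivity
  have hT : ∀ z ∈ AA d ×ˢ AA d, TT H d P Q
      (fun j : ℕ => ph d b ((z.1 : ℤ) * j) * ph d b ((z.2 : ℤ) * j))
      (fun p x : ℕ => sg p b ((z.1 : ℤ) * x) * sg p b ((z.2 : ℤ) * x))
      (fun q y : ℕ => sg q b ((z.1 : ℤ) * y) * sg q b ((z.2 : ℤ) * y)) ≤
      ((if z.1 = z.2 then 4 * (d : ℝ) else 0) + 8 * (d : ℝ) ^ (3 / 4 : ℝ)) *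
        (√(BP H P) * √(BP H Q)) := by
    intro z hz
    rw [Finset.mem_product] at hz
    refine (le_abs_self _).trans (TT_le H d P Q (fun p hp => (hP p hp).1) (fun q hq => (hQ q hq).1)
      _ _ _ (fun p x => K6_sg_abs _ _ _ _) (fun q y => K6_sg_abs _ _ _ _) _ ?_)
    intro n
    split_ifs with h
    · have h3 := K6_diag d hd b z.1 n
      rw [← h]
      refine h3.trans ?_
      have : (0 : ℝ) ≤ (d : ℝ) ^ (3 / 4 : ℝ) := by linarith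
      linarith
    · rw [zero_add]
      exact ph_corr d hd (by omega) b hb z.1 z.2 hz.1 hz.2 h n
  have hS : ∑ z ∈ AA d ×ˢ AA d, TT H d P Q
      (fun j : ℕ => ph d b ((z.1 : ℤ) * j) * ph d b ((z.2 : ℤ) * j))
      (fun p x : ℕ => sg p b ((z.1 : ℤ) * x) * sg p b ((z.2 : ℤ) * x))
      (fun q y : ℕ => sg q b ((z.1 : ℤ) * y) * sg q b ((z.2 : ℤ) * y)) ≤
      (2 * (d : ℝ) ^ 2 + 2 * (d : ℝ) ^ 2 * (d : ℝ) ^ (3 / 4 : ℝ)) * (√(BP H P) * √(BP H Q)) := by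
    refine (Finset.sum_le_sum hT).trans ?_
    rw [← Finset.sum_mul]
    refine mul_le_mul_of_nonneg_right ?_ hR0
    rw [Finset.sum_add_distrib, Finset.sum_const, Finset.card_product, nsmul_eq_mul]
    have hc := K6_cardAA d
    have hc0 : (0 : ℝ) ≤ #(AA d) := Nat.cast_nonneg _
    have e1 : ∑ z ∈ AA d ×ˢ AA d, (if z.1 = z.2 then 4 * (d : ℝ) else 0) ≤ 2 * (d : ℝ) ^ 2 := by
      rw [Finset.sum_product]
      have e2 : ∀ a ∈ AA d, ∑ a' ∈ AA d, (if a = a' then 4 * (d : ℝ) else 0) = 4 * d := by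
        intro a ha
        rw [Finset.sum_ite_eq, if_pos ha]
      rw [Finset.sum_congr rfl e2, Finset.sum_const, nsmul_eq_mul]
      nlinarith
    have e3 : ((#(AA d) * #(AA d) : ℕ) : ℝ) * (8 * (d : ℝ) ^ (3 / 4 : ℝ)) ≤
        2 * (d : ℝ) ^ 2 * (d : ℝ) ^ (3 / 4 : ℝ) := by
      have e4 : (#(AA d) : ℝ) * #(AA d) ≤ (d / 2) * (d / 2) :=
        mul_le_mul hc hc hc0 (by positivity)
      push_cast
      calc (#(AA d) : ℝ) * #(AA d) * (8 * (d : ℝ) ^ (3 / 4 : ℝ)) ≤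
            (d / 2) * (d / 2) * (8 * (d : ℝ) ^ (3 / 4 : ℝ)) :=
            mul_le_mul_of_nonneg_right e4 (by positivity)
        _ = 2 * (d : ℝ) ^ 2 * (d : ℝ) ^ (3 / 4 : ℝ) := by ring
    linarith
  -- step 3: assemble
  set D : ℝ := (d : ℝ) ^ (3 / 4 : ℝ) with hD
  have hX0 : (0 : ℝ) ≤ X ^ 2 * #P * #Q := by positivity
  calc 100 / (d : ℝ) ^ 2 * _ ≤ 100 / (d : ℝ) ^ 2 *
        ((2 * (d : ℝ) ^ 2 + 2 * (d : ℝ) ^ 2 * D) * (√(BP H P) * √(BP H Q))) :=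
        mul_le_mul_of_nonneg_left hS (by positivity)
    _ = (200 + 200 * D) * (√(BP H P) * √(BP H Q)) := by
        field_simp
        ring
    _ ≤ (200 + 200 * D) * (8 * (X ^ 2 * #P * #Q)) :=
        mul_le_mul_of_nonneg_left hR (by positivity)
    _ ≤ 4000 * D * (X ^ 2 * #P * #Q) := by
        nlinarith

end CS68
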