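import Pool.Agent.LibCS68.K3

set_option autoImplicit false
open Finset

namespace CS68

theorem K7a_two (c q : ℕ) (hc : Squarefree c) (hq : Squarefree q) (hcq : c.Coprime q)
    (b r j y : ℤ) (h : ((c * q : ℕ) : ℤ) ∣ r - (j * q + y * c)) :
    sg (c * q) b r = sg c b j * sg q b y := by
  have hcd : (c : ℤ) ∣ ((c * q : ℕ) : ℤ) := by
    push_cast
    exact dvd_mul_right _ _
  have hqd : (q : ℤ) ∣ ((c * q : ℕ) : ℤ) := by
    push_cast
    exact dvd_mul_left _ _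
  refine sg_mul b c q hcq hc hq r j y ?_ ?_
  · have h1 : ((r - (j * q + y * c) : ℤ) : ZMod c) = 0 :=
      (ZMod.intCast_zmod_eq_zero_iff_dvd _ _).2 (hcd.trans h)
    push_cast at h1
    rw [ZMod.natCast_self, mul_zero, add_zero] at h1
    exact sub_eq_zero.1 h1
  · have h1 : ((r - (j * q + y * c) : ℤ) : ZMod q) = 0 :=
      (ZMod.intCast_zmod_eq_zero_iff_dvd _ _).2 (hqd.trans h)
    push_cast at h1
    rw [ZMod.natCast_self, mul_zero, zero_add] at h1
    exact sub_eq_zero.1 h1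

theorem K7a_three (d p q : ℕ) (hd : Squarefree d) (hp : p.Prime) (hq : q.Prime)
    (hdp : d.Coprime p) (hdq : d.Coprime q) (hpq : p ≠ q) (b r j x y : ℤ)
    (h : ((d * p * q : ℕ) : ℤ) ∣ r - (j * (p * q) + x * (d * q) + y * (d * p))) :
    sg (d * p * q) b r = sg d b j * sg p b x * sg q b y := by
  have hp1 : Squarefree p := hp.squarefree
  have hq1 : Squarefree q := hq.squarefree
  have hpq1 : p.Coprime q := (Nat.coprime_primes hp hq).2 hpq
  have h1 : sg (d * p * q) b r = sg (d * p) b (j * p + x * d) * sg q b y := by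
    refine K7a_two (d * p) q ((Nat.squarefree_mul hdp).2 ⟨hd, hp1⟩) hq1
      (Nat.Coprime.mul_left hdq hpq1) b r _ y ?_
    have h2 : r - (j * (p * q) + x * (d * q) + y * (d * p)) =
        r - ((j * p + x * d) * q + y * ((d * p : ℕ) : ℤ)) := by
      push_cast
      ring
    rw [← h2]
    exact h
  have h3 : sg (d * p) b (j * p + x * d) = sg d b j * sg p b x :=
    K7a_two d p hd hp1 hdp b _ j x (by rw [sub_self]; exact dvd_zero _)
  rw [h1, h3]

theorem K7a_res (c m r : ℕ) (hc : 0 < c) (hm : m.Coprime c) (hr : r.Coprime c) :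
    ∃ j ∈ U c, (c : ℤ) ∣ (r : ℤ) - (j : ℤ) * m := by
  have : NeZero c := ⟨hc.ne'⟩
  set w : (ZMod c)ˣ := ZMod.unitOfCoprime r hr * (ZMod.unitOfCoprime m hm)⁻¹ with hw
  refine ⟨(w : ZMod c).val, ?_, ?_⟩
  · unfold U
    rw [Finset.mem_filter, Finset.mem_range]
    exact ⟨ZMod.val_lt _, ZMod.val_coe_unit_coprime w⟩
  · rw [← ZMod.intCast_zmod_eq_zero_iff_dvd]
    push_cast
    rw [ZMod.natCast_zmod_val, sub_eq_zero]
    have h1 : ((w * ZMod.unitOfCoprime m hm : (ZMod c)ˣ) : ZMod c) = r := by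
      rw [hw, inv_mul_cancel_right, ZMod.coe_unitOfCoprime]
    rw [Units.val_mul, ZMod.coe_unitOfCoprime] at h1
    exact h1.symm

theorem K7a_crt (d p q r : ℕ) (hd : d.Prime) (hp : p.Prime) (hq : q.Prime) (hdp : d ≠ p)
    (hdq : d ≠ q) (hpq : p ≠ q) (hr : r.Coprime (d * p * q)) :
    ∃ j ∈ U d, ∃ x ∈ U p, ∃ y ∈ U q,
      ((d * p * q : ℕ) : ℤ) ∣ (r : ℤ) - ((j * (p * q) + x * (d * q) + y * (d * p) : ℕ) : ℤ) := by
  have cdp : d.Coprime p := (Nat.coprime_primes hd hp).2 hdp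
  have cdq : d.Coprime q := (Nat.coprime_primes hd hq).2 hdq
  have cpq : p.Coprime q := (Nat.coprime_primes hp hq).2 hpq
  have rdp : r.Coprime (d * p) := Nat.Coprime.coprime_mul_right_right hr
  have rq : r.Coprime q := Nat.Coprime.coprime_mul_left_right hr
  have rd : r.Coprime d := Nat.Coprime.coprime_mul_right_right rdp
  have rp : r.Coprime p := Nat.Coprime.coprime_mul_left_right rdp
  obtain ⟨j, hj, h1⟩ := K7a_res d (p * q) r hd.pos (Nat.Coprime.mul_left cdp.symm cdq.symm) rd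
  obtain ⟨x, hx, h2⟩ := K7a_res p (d * q) r hp.pos (Nat.Coprime.mul_left cdp cpq.symm) rp
  obtain ⟨y, hy, h3⟩ := K7a_res q (d * p) r hq.pos (Nat.Coprime.mul_left cdq cpq) rq
  refine ⟨j, hj, x, hx, y, hy, ?_⟩
  set E : ℤ := (r : ℤ) - ((j * (p * q) + x * (d * q) + y * (d * p) : ℕ) : ℤ) with hE
  have e1 : (d : ℤ) ∣ E := by
    have : E = ((r : ℤ) - (j : ℤ) * ((p * q : ℕ) : ℤ)) - d * ((x : ℤ) * q + y * p) := by
      rw [hE]
      push_cast
      ring
    rw [this]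
    exact dvd_sub h1 (dvd_mul_right _ _)
  have e2 : (p : ℤ) ∣ E := by
    have : E = ((r : ℤ) - (x : ℤ) * ((d * q : ℕ) : ℤ)) - p * ((j : ℤ) * q + y * d) := by
      rw [hE]
      push_cast
      ring
    rw [this]
    exact dvd_sub h2 (dvd_mul_right _ _)
  have e3 : (q : ℤ) ∣ E := by
    have : E = ((r : ℤ) - (y : ℤ) * ((d * p : ℕ) : ℤ)) - q * ((j : ℤ) * p + x * d) := by
      rw [hE]
      push_cast
      ring
    rw [this]
    exact dvd_sub h3 (dvd_mul_right _ _)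
  have c1 : IsCoprime (d : ℤ) (p : ℤ) := Nat.isCoprime_iff_coprime.2 cdp
  have c2 : IsCoprime (d : ℤ) (q : ℤ) := Nat.isCoprime_iff_coprime.2 cdq
  have c3 : IsCoprime (p : ℤ) (q : ℤ) := Nat.isCoprime_iff_coprime.2 cpq
  have e4 : ((d : ℤ) * p) ∣ E := c1.mul_dvd e1 e2
  have e5 : ((d : ℤ) * p * q) ∣ E := (IsCoprime.mul_left c2 c3).mul_dvd e4 e3
  push_cast
  exact e5

theorem K7a_count (A : Finset ℕ) (f s : ℕ → ℝ) (hs : ∀ a ∈ A, s a = 1 ∨ s a = -1)
    (hf0 : ∀ a ∈ A, 0 ≤ f a) (hf : ∀ a ∈ A, f a ≤ 2) (v : ℝ) (hv : v = 1 ∨ v = -1) (D : ℝ)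
    (h1 : D / 5 ≤ ∑ a ∈ A, f a) (h2 : |∑ a ∈ A, f a * s a| ≤ D / 10) :
    D / 40 ≤ #(A.filter (fun a => s a = v)) := by
  have h3 : ∑ a ∈ A, f a * (1 + v * s a) ≤ 4 * #(A.filter (fun a => s a = v)) := by
    have h4 : ∀ a ∈ A, f a * (1 + v * s a) ≤ if s a = v then 4 else 0 := by
      intro a ha
      have := hf a ha
      split_ifs with h
      · rw [h]
        rcases hv with h5 | h5 <;> rw [h5] <;> linarith
      · have h6 : v * s a = -1 := by
          rcases hv with h5 | h5 <;> rcases hs a ha with h7 | h7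
          · exact absurd (h7.trans h5.symm) h
          · rw [h5, h7]; norm_num
          · rw [h5, h7]; norm_num
          · exact absurd (h7.trans h5.symm) h
        rw [h6]
        simp
    refine (Finset.sum_le_sum h4).trans ?_
    rw [← Finset.sum_filter, Finset.sum_const, nsmul_eq_mul, mul_comm]
  have h5 : ∑ a ∈ A, f a * (1 + v * s a) = ∑ a ∈ A, f a + v * ∑ a ∈ A, f a * s a := by
    rw [Finset.mul_sum, ← Finset.sum_add_distrib]
    refine Finset.sum_congr rfl fun a _ => ?_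
    ring
  rw [h5] at h3
  have h6 := abs_le.1 h2
  rcases hv with h7 | h7 <;> rw [h7] at h3 <;> rw [h7] <;> linarith

open Classical in
/-- Row K7a. `r` coprime to `d p q`: there are `j ∈ U d, x ∈ U p, y ∈ U q` with `r ≡ j p q + x d q + y d p` mod `d p q` (CRT;
`j ≡ r (pq)⁻¹`, ...); not in `RS` gives `|V| ≤ d/10`. `sg (d p q) b (r a) = sg d b (a j) sg p b (a x) sg q b (a y)`
(`sg_mul` twice, see J1a.lean), so `V = ∑_a |ph d b (a j)| sg (dpq) b (r a)` (`ph_sg`). With `ph_half`: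
`2 ∑_{+} |ph| = ∑ |ph| + V ≥ d/10` and each `|ph| ≤ 2`: at least `d/40` multipliers with sign `+`, same for `-`. -/
theorem good_r (d p q : ℕ) (hd : d.Prime) (h11 : 11 ≤ d) (hp : p.Prime) (hq : q.Prime) (hdp : d ≠ p)
    (hdq : d ≠ q) (hpq : p ≠ q) (b : ℤ) (hb : ¬ (d : ℤ) ∣ b) (G r : ℕ) (hr : r.Coprime (d * p * q))
    (hrG : r ≤ G) (hexc : (r : ℤ) ∉ RS G d p q (fun j x y => (d : ℝ) / 10 < |VV d p q b j x y|)) :
    (d : ℝ) / 40 ≤ #((AA d).filter (fun a : ℕ => sg (d * p * q) b (r * a) = 1)) ∧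
    (d : ℝ) / 40 ≤ #((AA d).filter (fun a : ℕ => sg (d * p * q) b (r * a) = -1)) := by
  obtain ⟨j, hj, x, hx, y, hy, hdvd⟩ := K7a_crt d p q r hd hp hq hdp hdq hpq hr
  have cdp : d.Coprime p := (Nat.coprime_primes hd hp).2 hdp
  have cdq : d.Coprime q := (Nat.coprime_primes hd hq).2 hdq
  have hV : |VV d p q b j x y| ≤ (d : ℝ) / 10 := by
    by_contra hcon
    apply hexc
    unfold RS
    rw [Finset.mem_filter, Finset.mem_Icc]
    have hrG' : (r : ℤ) ≤ G := by exact_mod_cast hrG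
    exact ⟨⟨by have : (0 : ℤ) ≤ r := Int.natCast_nonneg _; have : (0 : ℤ) ≤ G := Int.natCast_nonneg _; linarith, hrG'⟩, j, hj, x, hx, y, hy, not_le.1 hcon, hdvd⟩
  have hsg : ∀ a : ℕ, sg (d * p * q) b ((r : ℤ) * a) =
      sg d b (a * j) * sg p b (a * x) * sg q b (a * y) := by
    intro a
    refine K7a_three d p q hd.squarefree hp hq cdp cdq hpq b _ _ _ _ ?_
    have h3 := hdvd.mul_left (a : ℤ)
    have h4 : (a : ℤ) * ((r : ℤ) - ((j * (p * q) + x * (d * q) + y * (d * p) : ℕ) : ℤ)) =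
        (r : ℤ) * a - ((a : ℤ) * j * (p * q) + a * x * (d * q) + a * y * (d * p)) := by
      push_cast
      ring
    rwa [h4] at h3
  have hVV : VV d p q b j x y = ∑ a ∈ AA d, |ph d b ((a : ℤ) * j)| * sg (d * p * q) b ((r : ℤ) * a) := by
    unfold VV
    refine Finset.sum_congr rfl fun a _ => ?_
    rw [hsg a, (ph_sg d hd b (a * j)).1, abs_mul, abs_abs]
    have h5 : |sg d b ((a : ℤ) * j)| = 1 := by
      rcases sg_or d b (a * j) with h | h <;> rw [h] <;> norm_num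
    rw [h5]
    ring
  rw [hVV] at hV
  have hph := ph_half d hd h11 b hb j hj
  exact ⟨K7a_count (AA d) (fun a : ℕ => |ph d b ((a : ℤ) * j)|)
      (fun a : ℕ => sg (d * p * q) b ((r : ℤ) * a)) (fun a _ => sg_or _ _ _)
      (fun a _ => abs_nonneg _) (fun a _ => ph_le d hd b _) 1 (Or.inl rfl) d hph hV,
    K7a_count (AA d) (fun a : ℕ => |ph d b ((a : ℤ) * j)|)
      (fun a : ℕ => sg (d * p * q) b ((r : ℤ) * a)) (fun a _ => sg_or _ _ _)
      (fun a _ => abs_nonneg _) (fun a _ => ph_le d hd b _) (-1) (Or.inr rfl) d hph hV⟩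

end CS68
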