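import Pool.Agent.LibCS68.DV

set_option autoImplicit false
open Finset

namespace CS68

/-- quadruples `g a = g' a'`, `a ≤ a'` -/
def QQ (G A : ℕ) : Finset ((ℕ × ℕ) × (ℕ × ℕ)) :=
  (((Icc 1 G) ×ˢ (Icc 1 A)) ×ˢ ((Icc 1 G) ×ˢ (Icc 1 A))).filter
    (fun z => z.1.1 * z.1.2 = z.2.1 * z.2.2 ∧ z.1.2 ≤ z.2.2)

/-- every quadruple is `g = k t`, `g' = k u`, `a = u e`, `a' = t e` -/
theorem QQ_dec {G A : ℕ} {z : (ℕ × ℕ) × (ℕ × ℕ)} (hz : z ∈ QQ G A) :
    ∃ e u t k : ℕ, 0 < e ∧ 0 < u ∧ 0 < t ∧ 0 < k ∧ u ≤ t ∧ t * e ≤ A ∧ k * t ≤ G ∧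
      z = ((k * t, u * e), (k * u, t * e)) := by
  obtain ⟨⟨g, a⟩, ⟨g', a'⟩⟩ := z
  simp only [QQ, mem_filter, mem_product, mem_Icc] at hz
  obtain ⟨⟨⟨⟨hg1, hgG⟩, ha1, haA⟩, ⟨hg1', hgG'⟩, ha1', haA'⟩, hmul, hle⟩ := hz
  obtain ⟨e, u, t, he, hcop, rfl, rfl⟩ := Nat.exists_coprime' (m := a) (n := a') (Nat.gcd_pos_of_pos_left _ ha1)
  have hu : 0 < u := Nat.pos_of_ne_zero (by rintro rfl; simp at ha1)
  have ht : 0 < t := Nat.pos_of_ne_zero (by rintro rfl; simp at ha1')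
  have h1 : g * u = g' * t := by
    have : (g * u) * e = (g' * t) * e := by nlinarith
    exact Nat.eq_of_mul_eq_mul_right he this
  have h2 : t ∣ g := (hcop.symm.dvd_mul_right).1 (Dvd.intro_left g' h1.symm)
  obtain ⟨k, rfl⟩ := h2
  have hk : 0 < k := Nat.pos_of_ne_zero (by rintro rfl; simp at hg1)
  refine ⟨e, u, t, k, he, hu, ht, hk, Nat.le_of_mul_le_mul_right hle he, haA', by rw [mul_comm]; exact hgG, ?_⟩
  have h3 : g' = k * u := by
    have : g' * t = (k * u) * t := by rw [← h1]; ring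
    exact Nat.eq_of_mul_eq_mul_right ht this
  rw [h3, mul_comm t k]

theorem card_QQ (G A : ℕ) : #(QQ G A) ≤ ∑ t ∈ Icc 1 A, t * ((A / t) * (G / t)) := by
  have h1 : ∑ t ∈ Icc 1 A, t * ((A / t) * (G / t)) =
      #(((Icc 1 A).sigma (fun t => (Icc 1 t) ×ˢ ((Icc 1 (A / t)) ×ˢ (Icc 1 (G / t)))))) := by
    rw [Finset.card_sigma]
    refine Finset.sum_congr rfl fun t _ => ?_
    simp [Finset.card_product]
  rw [h1]
  have h2 : QQ G A ⊆ ((Icc 1 A).sigma (fun t => (Icc 1 t) ×ˢ ((Icc 1 (A / t)) ×ˢ (Icc 1 (G / t))))).image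
      (fun y => ((y.2.2.2 * y.1, y.2.1 * y.2.2.1), (y.2.2.2 * y.2.1, y.1 * y.2.2.1))) := by
    intro z hz
    obtain ⟨e, u, t, k, he, hu, ht, hk, hut, hte, hkt, rfl⟩ := QQ_dec hz
    rw [mem_image]
    refine ⟨⟨t, (u, (e, k))⟩, ?_, rfl⟩
    simp only [mem_sigma, mem_product, mem_Icc]
    refine ⟨⟨ht, le_trans (Nat.le_mul_of_pos_right t he) hte⟩, ⟨hu, hut⟩, ⟨he, ?_⟩, ⟨hk, ?_⟩⟩
    · rw [Nat.le_div_iff_mul_le ht, mul_comm]; exact hte
    · rw [Nat.le_div_iff_mul_le ht]; exact hkt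
  exact (card_le_card h2).trans card_image_le

theorem card_QQ_real (G A : ℕ) : (#(QQ G A) : ℝ) ≤ A * G * (1 + Real.log A) := by
  have h1 : (#(QQ G A) : ℝ) ≤ ∑ t ∈ Icc 1 A, (t : ℝ) * ((A / t : ℕ) * (G / t : ℕ)) := by
    exact_mod_cast card_QQ G A
  have h2 : ∑ t ∈ Icc 1 A, (t : ℝ) * ((A / t : ℕ) * (G / t : ℕ)) ≤ ∑ t ∈ Icc 1 A, (A : ℝ) * G * (t : ℝ)⁻¹ := by
    refine sum_le_sum fun t ht => ?_
    have ht1 : (0 : ℝ) < t := by
      have := (mem_Icc.1 ht).1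
      exact_mod_cast this
    have ha : ((A / t : ℕ) : ℝ) ≤ A / t := Nat.cast_div_le
    have hg : ((G / t : ℕ) : ℝ) ≤ G / t := Nat.cast_div_le
    calc (t : ℝ) * ((A / t : ℕ) * (G / t : ℕ)) ≤ t * ((A / t) * (G / t)) := by gcongr
      _ = (A : ℝ) * G * (t : ℝ)⁻¹ := by field_simp
  have h3 : ∑ t ∈ Icc 1 A, (t : ℝ)⁻¹ ≤ 1 + Real.log A := by
    have h4 := harmonic_le_one_add_log A
    rw [harmonic_eq_sum_Icc] at h4
    push_cast at h4
    exact h4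
  refine h1.trans (h2.trans ?_)
  rw [← mul_sum]
  exact mul_le_mul_of_nonneg_left h3 (by positivity)

/-- Cauchy-Schwarz: pairs `(g, a)` with `g a` in `T` -/
theorem pairs_sq (G A : ℕ) (Pr : Finset (ℕ × ℕ)) (T : Finset ℕ) (hPr : Pr ⊆ (Icc 1 G) ×ˢ (Icc 1 A))
    (hT : ∀ z ∈ Pr, z.1 * z.2 ∈ T) :
    (#Pr : ℝ) ^ 2 ≤ #T * (2 * (A * G * (1 + Real.log A))) := by
  classical
  have h1 : #Pr = ∑ m ∈ T, #(Pr.filter (fun z => z.1 * z.2 = m)) :=
    card_eq_sum_card_fiberwise (f := fun z : ℕ × ℕ => z.1 * z.2) (fun z hz => hT z hz)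
  have h2 : (∑ m ∈ T, (#(Pr.filter (fun z => z.1 * z.2 = m)) : ℝ)) ^ 2 ≤
      #T * ∑ m ∈ T, (#(Pr.filter (fun z => z.1 * z.2 = m)) : ℝ) ^ 2 := sq_sum_le_card_mul_sum_sq
  have h3 : ∑ m ∈ T, #(Pr.filter (fun z => z.1 * z.2 = m)) ^ 2 ≤ 2 * #(QQ G A) := by
    have e1 : ∑ m ∈ T, #(Pr.filter (fun z => z.1 * z.2 = m)) ^ 2 =
        ∑ m ∈ T, #((Pr ×ˢ Pr).filter (fun w => w.1.1 * w.1.2 = m ∧ w.2.1 * w.2.2 = m)) := by
      refine sum_congr rfl fun m _ => ?_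
      rw [sq, ← card_product]
      congr 1
      ext w
      simp only [mem_product, mem_filter]
      tauto
    have e2 : ∑ m ∈ T, #((Pr ×ˢ Pr).filter (fun w => w.1.1 * w.1.2 = m ∧ w.2.1 * w.2.2 = m)) ≤
        #((Pr ×ˢ Pr).filter (fun w => w.1.1 * w.1.2 = w.2.1 * w.2.2)) := by
      rw [← card_biUnion]
      · refine card_le_card fun w hw => ?_
        rw [mem_biUnion] at hw
        obtain ⟨m, -, hm⟩ := hw
        rw [mem_filter] at hm ⊢
        exact ⟨hm.1, hm.2.1.trans hm.2.2.symm⟩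
      · intro m _ m' _ hmm
        rw [Function.onFun, disjoint_left]
        intro w hw hw'
        rw [mem_filter] at hw hw'
        exact hmm (hw.2.1.symm.trans hw'.2.1)
    have e3 : (Pr ×ˢ Pr).filter (fun w => w.1.1 * w.1.2 = w.2.1 * w.2.2) ⊆
        QQ G A ∪ (QQ G A).image (fun w => (w.2, w.1)) := by
      intro w hw
      rw [mem_filter, mem_product] at hw
      obtain ⟨⟨hw1, hw2⟩, hw3⟩ := hw
      have k1 := hPr hw1
      have k2 := hPr hw2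
      rcases le_total w.1.2 w.2.2 with h | h
      · refine mem_union_left _ ?_
        unfold QQ
        rw [mem_filter, mem_product]
        exact ⟨⟨k1, k2⟩, hw3, h⟩
      · refine mem_union_right _ (mem_image.2 ⟨(w.2, w.1), ?_, rfl⟩)
        unfold QQ
        rw [mem_filter, mem_product]
        exact ⟨⟨k2, k1⟩, hw3.symm, h⟩
    have e4 := (card_le_card e3).trans ((card_union_le _ _).trans (Nat.add_le_add_left card_image_le _))
    rw [e1]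
    omega
  have h3' : ∑ m ∈ T, (#(Pr.filter (fun z => z.1 * z.2 = m)) : ℝ) ^ 2 ≤ 2 * #(QQ G A) := by
    exact_mod_cast h3
  have h4 : (#Pr : ℝ) = ∑ m ∈ T, (#(Pr.filter (fun z => z.1 * z.2 = m)) : ℝ) := by
    exact_mod_cast h1
  rw [h4]
  refine h2.trans (mul_le_mul_of_nonneg_left (h3'.trans ?_) (Nat.cast_nonneg _))
  have := card_QQ_real G A
  linarith

open Classical in
/-- Row K7c. As `many_m`, but each `m` is counted with the second moment of its number of representations. -/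
theorem many_m2 (s : ℤ → ℝ) (d G M : ℕ) (hd : 2 ≤ d) (hM : G * d ≤ M) (Gd : Finset ℕ) (hG : Gd ⊆ Icc 1 G)
    (v : ℝ) (hv : ∀ g ∈ Gd, (d : ℝ) / 40 ≤ #((AA d).filter (fun a : ℕ => s ((g : ℤ) * a) = v))) :
    (#Gd : ℝ) ^ 2 * d ≤ 1600 * (G * (1 + Real.log d)) * #((Icc 1 M).filter (fun m : ℕ => s m = v)) := by
  set Pr := (Gd ×ˢ AA d).filter (fun z : ℕ × ℕ => s ((z.1 : ℤ) * z.2) = v) with hPr
  set T := (Icc 1 M).filter (fun m : ℕ => s m = v) with hT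
  have hdR : (0 : ℝ) < d := by exact_mod_cast (by omega : 0 < d)
  have hAA : ∀ a ∈ AA d, 1 ≤ a ∧ a ≤ (d - 1) / 2 := fun a ha => Finset.mem_Icc.1 ha
  have h1 : (#Pr : ℝ) = ∑ g ∈ Gd, (#((AA d).filter (fun a : ℕ => s ((g : ℤ) * a) = v)) : ℝ) := by
    have h2 : #Pr = ∑ g ∈ Gd, #((AA d).filter (fun a : ℕ => s ((g : ℤ) * a) = v)) := by
      rw [hPr, Finset.card_filter, Finset.sum_product]
      refine Finset.sum_congr rfl fun g _ => ?_
      rw [Finset.card_filter]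
    rw [h2]
    push_cast
    rfl
  have h2 : (#Gd : ℝ) * (d / 40) ≤ #Pr := by
    rw [h1, ← nsmul_eq_mul, ← Finset.sum_const]
    exact Finset.sum_le_sum hv
  have hsub : Pr ⊆ (Icc 1 G) ×ˢ (Icc 1 ((d - 1) / 2)) := by
    intro z hz
    rw [hPr, Finset.mem_filter, Finset.mem_product] at hz
    exact Finset.mem_product.2 ⟨hG hz.1.1, Finset.mem_Icc.2 (hAA _ hz.1.2)⟩
  have hmaps : ∀ z ∈ Pr, z.1 * z.2 ∈ T := by
    intro z hz
    rw [hPr, Finset.mem_filter, Finset.mem_product] at hz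
    obtain ⟨⟨hz1, hz2⟩, hz3⟩ := hz
    have k1 := Finset.mem_Icc.1 (hG hz1)
    have k2 := hAA _ hz2
    rw [hT, Finset.mem_filter, Finset.mem_Icc]
    refine ⟨⟨Nat.mul_pos k1.1 k2.1, ?_⟩, ?_⟩
    · refine le_trans (Nat.mul_le_mul k1.2 (k2.2.trans ?_)) hM
      omega
    · push_cast
      exact hz3
  have h3 := pairs_sq G ((d - 1) / 2) Pr T hsub hmaps
  set A : ℕ := (d - 1) / 2 with hA
  have hA2 : 2 * (A : ℝ) ≤ d := by
    have : 2 * A ≤ d := by omega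
    exact_mod_cast this
  have hlogd : 0 ≤ Real.log d := Real.log_natCast_nonneg d
  have hlog : Real.log A ≤ Real.log d := by
    rcases Nat.eq_zero_or_pos A with h | h
    · rw [h]
      simpa using hlogd
    · refine Real.log_le_log (by exact_mod_cast h) ?_
      have h0 : (0 : ℝ) ≤ A := Nat.cast_nonneg _
      linarith
  have h4 : 2 * ((A : ℝ) * G * (1 + Real.log A)) ≤ d * G * (1 + Real.log d) := by
    have hG0 : (0 : ℝ) ≤ G := Nat.cast_nonneg _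
    have hlA : 0 ≤ 1 + Real.log A := by
      have := Real.log_natCast_nonneg A
      linarith
    calc 2 * ((A : ℝ) * G * (1 + Real.log A)) = (2 * A) * G * (1 + Real.log A) := by ring
      _ ≤ d * G * (1 + Real.log d) := by gcongr
  have h5 : ((#Gd : ℝ) * (d / 40)) ^ 2 ≤ #T * (d * G * (1 + Real.log d)) := by
    have h0 : (0 : ℝ) ≤ (#Gd : ℝ) * (d / 40) := by positivity
    exact (pow_le_pow_left₀ h0 h2 2).trans (h3.trans (mul_le_mul_of_nonneg_left h4 (Nat.cast_nonneg _)))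
  have h6 : (d : ℝ) * ((#Gd : ℝ) ^ 2 * d) ≤ d * (1600 * (G * (1 + Real.log d)) * #T) := by
    nlinarith
  exact le_of_mul_le_mul_left h6 hdR

end CS68
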