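import Pool.Agent.LibCS68.Fin
import Pool.Agent.LibCS68.K4
import Pool.Agent.LibCS68.K6
import Pool.Agent.LibCS68.K7a
import Pool.Agent.LibCS68.K7c

set_option autoImplicit false
open Finset

namespace CS68

open Classical in
/-- the exceptional integers, all pairs together -/
theorem sum_RS (d : ℕ) (hd : d.Prime) (h11 : 11 ≤ d) (b : ℤ) (hb : ¬ (d : ℤ) ∣ b) (X H G : ℕ)
    (P Q : Finset ℕ) (hP : InX X P) (hQ : InX X Q) (h1 : 8 * H ≤ X * #P) (h2 : 8 * H ≤ X * #Q)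
    (hH : 0 < H) (hX : 0 < X) (hGX : G ≤ X) (hHG : 2 * (H * G) ≤ d * X ^ 2) :
    2 / 5 * (H : ℝ) * ∑ p ∈ P, ∑ q ∈ Q.erase p,
      (#(RS G d p q (fun j x y => (d : ℝ) / 10 < |VV d p q b j x y|)) : ℝ) ≤
      4000 * (d : ℝ) ^ (3 / 4 : ℝ) * (X ^ 2 * #P * #Q) := by
  refine le_trans ?_ (exc_mass d hd h11 b hb X H P Q hP hQ h1 h2)
  have hterm : ∀ j p x q y : ℕ, 0 ≤ (if (d : ℝ) / 10 < |VV d p q b j x y| then
        Fj H ((j : ℝ) / d + (x : ℝ) / p + (y : ℝ) / q) else 0) := by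
    intro j p x q y
    split_ifs
    · exact Fj_nonneg _ _
    · exact le_refl _
  have e1 : ∑ j ∈ U d, ∑ p ∈ P, ∑ x ∈ U p, ∑ q ∈ Q, ∑ y ∈ U q,
      (if (d : ℝ) / 10 < |VV d p q b j x y| then
        Fj H ((j : ℝ) / d + (x : ℝ) / p + (y : ℝ) / q) else 0) =
      ∑ p ∈ P, ∑ q ∈ Q, ∑ j ∈ U d, ∑ x ∈ U p, ∑ y ∈ U q,
      (if (d : ℝ) / 10 < |VV d p q b j x y| then
        Fj H ((j : ℝ) / d + (x : ℝ) / p + (y : ℝ) / q) else 0) := by
    rw [sum_comm]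
    refine sum_congr rfl fun p _ => ?_
    rw [sum_comm (s := Q)]
    refine sum_congr rfl fun j _ => ?_
    exact sum_comm
  rw [e1, mul_sum]
  refine sum_le_sum fun p hp => ?_
  obtain ⟨hpp, hpX, -⟩ := hP p hp
  rw [mul_sum]
  have h3 : ∑ q ∈ Q.erase p, 2 / 5 * (H : ℝ) *
      (#(RS G d p q (fun j x y => (d : ℝ) / 10 < |VV d p q b j x y|)) : ℝ) ≤
      ∑ q ∈ Q.erase p, ∑ j ∈ U d, ∑ x ∈ U p, ∑ y ∈ U q,
      (if (d : ℝ) / 10 < |VV d p q b j x y| then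
        Fj H ((j : ℝ) / d + (x : ℝ) / p + (y : ℝ) / q) else 0) := by
    refine sum_le_sum fun q hq => ?_
    obtain ⟨hqp, hqX, -⟩ := hQ q (mem_of_mem_erase hq)
    have hpq : X * X ≤ p * q := Nat.mul_le_mul hpX.le hqX.le
    have hdpq : d * X ^ 2 ≤ d * p * q := by
      calc d * X ^ 2 = d * (X * X) := by ring
        _ ≤ d * (p * q) := Nat.mul_le_mul_left _ hpq
        _ = d * p * q := by ring
    refine pair_lower H G d p q hH hd.pos hpp.pos hqp.pos (hHG.trans hdpq) ?_ _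
    have h4 : 2 * G < d * X ^ 2 := by
      have : X * 1 ≤ X * X := Nat.mul_le_mul_left _ hX
      nlinarith
    omega
  refine h3.trans (sum_le_sum_of_subset_of_nonneg (erase_subset _ _) fun q _ _ => ?_)
  exact sum_nonneg fun j _ => sum_nonneg fun x _ => sum_nonneg fun y _ => hterm j p x q y

open Classical in
/-- a pair with few exceptional integers -/
theorem good_pair (d p q : ℕ) (hd : d.Prime) (h11 : 11 ≤ d) (hp : p.Prime) (hq : q.Prime) (b : ℤ)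
    (hb : ¬ (d : ℤ) ∣ b) (X G M : ℕ) (hdX : d ≤ X) (hGX : G ≤ X) (hpX : X < p) (hqX : X < q) (hpq : p ≠ q)
    (hGM : G * d ≤ M) (hMG : (M : ℝ) ≤ 2 * d * G)
    (hRS : (#(RS G d p q (fun j x y => (d : ℝ) / 10 < |VV d p q b j x y|)) : ℝ) < G / 2) :
    (M : ℝ) / (20000 * (1 + Real.log d)) ≤ #((Icc 1 M).filter (fun m : ℕ => sg (d * p * q) b m = 1)) ∧
    (M : ℝ) / (20000 * (1 + Real.log d)) ≤ #((Icc 1 M).filter (fun m : ℕ => sg (d * p * q) b m = -1)) := by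
  have hd0 : (0 : ℝ) < d := by exact_mod_cast hd.pos
  set R := RS G d p q (fun j x y => (d : ℝ) / 10 < |VV d p q b j x y|) with hR
  set Gd := (Icc 1 G).filter (fun g : ℕ => g.Coprime (d * p * q) ∧ (g : ℤ) ∉ R) with hGd
  have hcop : ∀ r : ℕ, r.Prime → X < r → ∀ g : ℕ, 1 ≤ g → g ≤ G → g.Coprime r := by
    intro r hr hrX g hg hgG
    rw [Nat.coprime_comm, hr.coprime_iff_not_dvd]
    intro h
    have := Nat.le_of_dvd (by omega) h
    omega
  have hsub : Icc 1 G ⊆ (Gd ∪ (Ioc 0 G).filter (fun g => d ∣ g)) ∪ (Icc 1 G).filter (fun g : ℕ => (g : ℤ) ∈ R) := by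
    intro g hg
    by_cases h1 : (g : ℤ) ∈ R
    · exact mem_union_right _ (mem_filter.2 ⟨hg, h1⟩)
    by_cases h2 : d ∣ g
    · refine mem_union_left _ (mem_union_right _ (mem_filter.2 ⟨?_, h2⟩))
      rw [mem_Icc] at hg
      rw [mem_Ioc]
      omega
    · refine mem_union_left _ (mem_union_left _ ?_)
      rw [hGd, mem_filter]
      rw [mem_Icc] at hg
      refine ⟨mem_Icc.2 hg, ?_, h1⟩
      have c1 : g.Coprime d := by
        rw [Nat.coprime_comm, hd.coprime_iff_not_dvd]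
        exact h2
      exact (c1.mul_right (hcop p hp hpX g hg.1 hg.2)).mul_right (hcop q hq hqX g hg.1 hg.2)
  have hc1 : G ≤ #Gd + G / d + #R := by
    have h1 := card_le_card hsub
    rw [Nat.card_Icc] at h1
    have h2 := card_union_le (Gd ∪ (Ioc 0 G).filter (fun g => d ∣ g))
      ((Icc 1 G).filter (fun g : ℕ => (g : ℤ) ∈ R))
    have h3 := card_union_le Gd ((Ioc 0 G).filter (fun g => d ∣ g))
    have h4 : #((Ioc 0 G).filter (fun g => d ∣ g)) = G / d := Nat.Ioc_filter_dvd_card_eq_div G d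
    have h5 : #((Icc 1 G).filter (fun g : ℕ => (g : ℤ) ∈ R)) ≤ #R := by
      refine card_le_card_of_injOn (fun g : ℕ => (g : ℤ)) (fun g hg => ?_) (fun g _ g' _ h => ?_)
      · exact (mem_filter.1 hg).2
      · simpa using h
    omega
  have hGdle : (2 : ℝ) / 5 * G ≤ #Gd := by
    have h1 : (G : ℝ) ≤ #Gd + ((G / d : ℕ) : ℝ) + #R := by exact_mod_cast hc1
    have h2 : ((G / d : ℕ) : ℝ) ≤ G / 11 := by
      refine (Nat.cast_div_le).trans ?_
      have : (11 : ℝ) ≤ d := by exact_mod_cast h11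
      gcongr
    have h3 : (0 : ℝ) ≤ G := Nat.cast_nonneg _
    linarith
  have hgood : ∀ g ∈ Gd, (d : ℝ) / 40 ≤ #((AA d).filter (fun a : ℕ => sg (d * p * q) b ((g : ℤ) * a) = 1)) ∧
      (d : ℝ) / 40 ≤ #((AA d).filter (fun a : ℕ => sg (d * p * q) b ((g : ℤ) * a) = -1)) := by
    intro g hg
    rw [hGd, mem_filter, mem_Icc] at hg
    exact good_r d p q hd h11 hp hq (by omega) (by omega) hpq b hb G g hg.2.1 hg.1.2 hg.2.2
  have hlogd : 0 ≤ Real.log d := Real.log_natCast_nonneg d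
  have hG0 : (0 : ℝ) ≤ G := Nat.cast_nonneg _
  have hfin : ∀ v : ℝ, (∀ g ∈ Gd, (d : ℝ) / 40 ≤ #((AA d).filter (fun a : ℕ => sg (d * p * q) b ((g : ℤ) * a) = v))) →
      (M : ℝ) / (20000 * (1 + Real.log d)) ≤ #((Icc 1 M).filter (fun m : ℕ => sg (d * p * q) b m = v)) := by
    intro v hv
    have h1 := many_m2 (fun r => sg (d * p * q) b r) d G M (by omega) hGM Gd (filter_subset _ _) v hv
    set T : ℝ := (#((Icc 1 M).filter (fun m : ℕ => sg (d * p * q) b m = v)) : ℝ) with hT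
    have hT0 : 0 ≤ T := Nat.cast_nonneg _
    rw [div_le_iff₀ (by positivity)]
    rcases Nat.eq_zero_or_pos G with hG00 | hG00
    · have hM0 : (M : ℝ) ≤ 0 := by
        rw [hG00] at hMG
        simpa using hMG
      have : 0 ≤ T * (20000 * (1 + Real.log d)) := by positivity
      linarith
    · have hGp : (0 : ℝ) < G := by exact_mod_cast hG00
      have h2 : (2 / 5 * (G : ℝ)) ^ 2 * d ≤ 1600 * (G * (1 + Real.log d)) * T :=
        le_trans (mul_le_mul_of_nonneg_right (pow_le_pow_left₀ (by positivity) hGdle 2) hd0.le) h1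
      have h3 : (G : ℝ) * (G * d) ≤ G * (10000 * (1 + Real.log d) * T) := by nlinarith
      have h4 := le_of_mul_le_mul_left h3 hGp
      linarith
  exact ⟨hfin 1 (fun g hg => (hgood g hg).1), hfin (-1) (fun g hg => (hgood g hg).2)⟩

open Classical in
/-- Almost all moduli `c = dpq`. -/
theorem almost_all : ∀ (d : ℕ) (b : ℤ) (X M : ℕ) (P Q : Finset ℕ), d.Prime →
    ¬ (d : ℤ) ∣ b → d ≤ X → M ≤ X → InX X P → InX X Q → 16 * d ^ 2 * X ≤ M * #P →
    16 * d ^ 2 * X ≤ M * #Q →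
    (#((P ×ˢ Q).filter (fun z : ℕ × ℕ => ¬ (z.1 ≠ z.2 ∧
      (M : ℝ) / (20000 * (1 + Real.log d)) ≤ #((Icc 1 M).filter (fun m : ℕ => Pos (b * (m : ℤ) ^ 2) 1 (d * z.1 * z.2))) ∧
      (M : ℝ) / (20000 * (1 + Real.log d)) ≤
        #((Icc 1 M).filter (fun m : ℕ => Neg (b * (m : ℤ) ^ 2) 1 (d * z.1 * z.2)))))) : ℝ) ≤
      100000 * (d : ℝ) ^ (-(1 / 4) : ℝ) * (#P * #Q) := by
  intro d b X M P Q hd hb hdX hMX hP hQ hMP hMQ
  have hd0 : (0 : ℝ) < d := by exact_mod_cast hd.pos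
  have hd1 : (1 : ℝ) ≤ d := by exact_mod_cast hd.one_lt.le
  have hPQ0 : (0 : ℝ) ≤ (#P : ℝ) * #Q := by positivity
  have hq4 : (0 : ℝ) < (d : ℝ) ^ (-(1 / 4) : ℝ) := Real.rpow_pos_of_pos hd0 _
  rcases Nat.lt_or_ge d 11 with h11 | h11
  · -- small `d`
    have h1 : (#((P ×ˢ Q).filter (fun z : ℕ × ℕ => ¬ (z.1 ≠ z.2 ∧
      (M : ℝ) / (20000 * (1 + Real.log d)) ≤ #((Icc 1 M).filter (fun m : ℕ => Pos (b * (m : ℤ) ^ 2) 1 (d * z.1 * z.2))) ∧
      (M : ℝ) / (20000 * (1 + Real.log d)) ≤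
        #((Icc 1 M).filter (fun m : ℕ => Neg (b * (m : ℤ) ^ 2) 1 (d * z.1 * z.2)))))) : ℝ) ≤ #P * #Q := by
      have := card_filter_le (P ×ˢ Q) (fun z : ℕ × ℕ => ¬ (z.1 ≠ z.2 ∧
      (M : ℝ) / (20000 * (1 + Real.log d)) ≤ #((Icc 1 M).filter (fun m : ℕ => Pos (b * (m : ℤ) ^ 2) 1 (d * z.1 * z.2))) ∧
      (M : ℝ) / (20000 * (1 + Real.log d)) ≤
        #((Icc 1 M).filter (fun m : ℕ => Neg (b * (m : ℤ) ^ 2) 1 (d * z.1 * z.2)))))
      rw [card_product] at this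
      exact_mod_cast this
    refine h1.trans ?_
    have h2 : (d : ℝ) ^ (-1 : ℝ) ≤ (d : ℝ) ^ (-(1 / 4) : ℝ) :=
      Real.rpow_le_rpow_of_exponent_le hd1 (by norm_num)
    rw [Real.rpow_neg_one] at h2
    have h3 : (1 : ℝ) / 11 ≤ (d : ℝ)⁻¹ := by
      rw [← one_div]
      have : (d : ℝ) ≤ 11 := by exact_mod_cast h11.le
      exact one_div_le_one_div_of_le hd0 this
    have h4 : (1 : ℝ) ≤ 100000 * (d : ℝ) ^ (-(1 / 4) : ℝ) := by linarith
    calc (#P : ℝ) * #Q = 1 * (#P * #Q) := (one_mul _).symm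
      _ ≤ _ := mul_le_mul_of_nonneg_right h4 hPQ0
  -- large `d`
  have hX : 0 < X := by omega
  have hPX : #P ≤ X := card_le X P hP
  have hQX : #Q ≤ X := card_le X Q hQ
  have hM16 : 16 * d ^ 2 ≤ M := by
    have h1 : 16 * d ^ 2 * X ≤ M * X := hMP.trans (Nat.mul_le_mul_left _ hPX)
    exact Nat.le_of_mul_le_mul_right h1 hX
  have hQ16 : 16 * d ^ 2 ≤ #Q := by
    have h1 : 16 * d ^ 2 * X ≤ #Q * X := by
      rw [mul_comm (#Q) X]
      exact hMQ.trans (Nat.mul_le_mul_right _ hMX)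
    exact Nat.le_of_mul_le_mul_right h1 hX
  set G : ℕ := M / d with hG
  have hGd : G * d ≤ M := Nat.div_mul_le_self M d
  have hG1 : 1 ≤ G := by
    rw [hG, Nat.le_div_iff_mul_le hd.pos]
    nlinarith
  have hMG : M ≤ 2 * d * G := by
    have h1 : M < d * (G + 1) := Nat.lt_mul_div_succ M hd.pos
    nlinarith [Nat.mul_le_mul_left d hG1]
  have hGX : G ≤ X := (Nat.div_le_self M d).trans hMX
  set H : ℕ := d * X ^ 2 / (2 * G) with hH
  have hHG1 : H * (2 * G) ≤ d * X ^ 2 := Nat.div_mul_le_self _ _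
  have hHG2 : d * X ^ 2 < (2 * G) * (H + 1) := Nat.lt_mul_div_succ _ (by omega)
  have h2G : 2 * G ≤ d * X ^ 2 := by
    have : X * 1 ≤ X * X := Nat.mul_le_mul_left _ hX
    nlinarith
  have hH1 : 1 ≤ H := by
    rw [hH, Nat.le_div_iff_mul_le (by omega), one_mul]
    exact h2G
  have hHG3 : d * X ^ 2 ≤ 4 * (G * H) := by
    have : G * 1 ≤ G * H := Nat.mul_le_mul_left _ hH1
    nlinarith
  have h8 : ∀ S : Finset ℕ, 16 * d ^ 2 * X ≤ M * #S → 8 * H ≤ X * #S := by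
    intro S hS
    have h1 : 16 * d ^ 2 * X ≤ 2 * d * G * #S := hS.trans (Nat.mul_le_mul_right _ hMG)
    have h2 : 8 * d * X ≤ G * #S := by
      have : (2 * d) * (8 * d * X) ≤ (2 * d) * (G * #S) := by nlinarith
      exact Nat.le_of_mul_le_mul_left this (by have := hd.pos; omega)
    have h3 : G * (8 * H) ≤ G * (X * #S) := by
      calc G * (8 * H) = 4 * (H * (2 * G)) := by ring
        _ ≤ 4 * (d * X ^ 2) := Nat.mul_le_mul_left _ hHG1
        _ ≤ X * (8 * d * X) := by nlinarith [Nat.zero_le (d * X ^ 2)]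
        _ ≤ X * (G * #S) := Nat.mul_le_mul_left _ h2
        _ = G * (X * #S) := by ring
    exact Nat.le_of_mul_le_mul_left h3 (by omega)
  have hsum := sum_RS d hd h11 b hb X H G P Q hP hQ (h8 P hMP) (h8 Q hMQ) (by omega) hX hGX (by
    calc 2 * (H * G) = H * (2 * G) := by ring
      _ ≤ d * X ^ 2 := hHG1)
  set S : ℝ := ∑ p ∈ P, ∑ q ∈ Q.erase p,
      (#(RS G d p q (fun j x y => (d : ℝ) / 10 < |VV d p q b j x y|)) : ℝ) with hS
  have hGR : (0 : ℝ) < G := by exact_mod_cast hG1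
  have hHR : (0 : ℝ) < H := by exact_mod_cast hH1
  have hXR : (0 : ℝ) < X := by exact_mod_cast hX
  -- bound for `S`
  have hSle : S ≤ 40000 * (G * ((d : ℝ) ^ (-(1 / 4) : ℝ) * (#P * #Q))) := by
    have e1 : (d : ℝ) ^ (3 / 4 : ℝ) = d * (d : ℝ) ^ (-(1 / 4) : ℝ) := by
      rw [← Real.rpow_one_add' hd0.le (by norm_num)]
      norm_num
    rw [e1] at hsum
    have h3 : (d : ℝ) * X ^ 2 ≤ 4 * (G * H) := by exact_mod_cast hHG3
    have h4 : 2 / 5 * (H : ℝ) * S ≤ 2 / 5 * H * (40000 * (G * ((d : ℝ) ^ (-(1 / 4) : ℝ) * (#P * #Q)))) := by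
      refine hsum.trans ?_
      have h5 : 4000 * ((d : ℝ) * (d : ℝ) ^ (-(1 / 4) : ℝ)) * (X ^ 2 * #P * #Q) =
          4000 * ((d : ℝ) ^ (-(1 / 4) : ℝ) * (#P * #Q)) * (d * X ^ 2) := by ring
      rw [h5]
      have h6 : 4000 * ((d : ℝ) ^ (-(1 / 4) : ℝ) * (#P * #Q)) * (d * X ^ 2) ≤
          4000 * ((d : ℝ) ^ (-(1 / 4) : ℝ) * (#P * #Q)) * (4 * (G * H)) :=
        mul_le_mul_of_nonneg_left h3 (by positivity)
      refine h6.trans (le_of_eq ?_)
      ring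
    exact le_of_mul_le_mul_left h4 (by positivity)
  -- the bad pairs
  set Bad := (P ×ˢ Q).filter (fun z : ℕ × ℕ => ¬ (z.1 ≠ z.2 ∧
      (M : ℝ) / (20000 * (1 + Real.log d)) ≤ #((Icc 1 M).filter (fun m : ℕ => Pos (b * (m : ℤ) ^ 2) 1 (d * z.1 * z.2))) ∧
      (M : ℝ) / (20000 * (1 + Real.log d)) ≤
        #((Icc 1 M).filter (fun m : ℕ => Neg (b * (m : ℤ) ^ 2) 1 (d * z.1 * z.2))))) with hBad
  set B2 := (P ×ˢ Q).filter (fun z : ℕ × ℕ => z.1 ≠ z.2 ∧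
    (G : ℝ) / 2 ≤ #(RS G d z.1 z.2 (fun j x y => (d : ℝ) / 10 < |VV d z.1 z.2 b j x y|))) with hB2
  have hsubB : Bad ⊆ P.image (fun p => (p, p)) ∪ B2 := by
    rintro ⟨p, q⟩ hz
    rw [hBad, mem_filter, mem_product] at hz
    simp only at hz
    obtain ⟨⟨hpP, hqQ⟩, hnot⟩ := hz
    by_cases hpq : p = q
    · subst hpq
      exact mem_union_left _ (mem_image.2 ⟨p, hpP, rfl⟩)
    · apply mem_union_right
      rw [hB2, mem_filter, mem_product]
      refine ⟨⟨hpP, hqQ⟩, hpq, ?_⟩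
      simp only
      by_contra hlt
      push Not at hlt
      apply hnot
      obtain ⟨hpp, hpX, -⟩ := hP p hpP
      obtain ⟨hqp, hqX, -⟩ := hQ q hqQ
      have hsq := sq3 hd hpp hqp (by omega) (by omega) hpq
      have h4 := good_pair d p q hd h11 hpp hqp b hb X G M hdX hGX hpX hqX hpq hGd
        (by exact_mod_cast hMG) hlt
      have e1 : ((Icc 1 M).filter (fun m : ℕ => Pos (b * (m : ℤ) ^ 2) 1 (d * p * q))) =
          (Icc 1 M).filter (fun m : ℕ => sg (d * p * q) b m = 1) :=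
        filter_congr fun m _ => (sg_pos_iff _ hsq b m).symm
      have e2 : ((Icc 1 M).filter (fun m : ℕ => Neg (b * (m : ℤ) ^ 2) 1 (d * p * q))) =
          (Icc 1 M).filter (fun m : ℕ => sg (d * p * q) b m = -1) :=
        filter_congr fun m _ => (sg_neg_iff _ hsq b m).symm
      rw [e1, e2]
      exact ⟨hpq, h4⟩
  have hcard : (#Bad : ℝ) ≤ #P + #B2 := by
    have h1 := (card_le_card hsubB).trans ((card_union_le _ _).trans (add_le_add card_image_le le_rfl))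
    exact_mod_cast h1
  have hcP : (#P : ℝ) ≤ (d : ℝ) ^ (-(1 / 4) : ℝ) * (#P * #Q) := by
    have h1 : (1 : ℝ) ≤ (d : ℝ) ^ (-(1 / 4) : ℝ) * #Q := by
      have h2 : (d : ℝ) ≤ #Q := by
        have : d ≤ 16 * d ^ 2 := by nlinarith [hd.pos]
        exact_mod_cast this.trans hQ16
      have h3 : (d : ℝ) ^ (-1 : ℝ) ≤ (d : ℝ) ^ (-(1 / 4) : ℝ) :=
        Real.rpow_le_rpow_of_exponent_le hd1 (by norm_num)
      rw [Real.rpow_neg_one] at h3
      calc (1 : ℝ) = (d : ℝ)⁻¹ * d := (inv_mul_cancel₀ hd0.ne').symm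
        _ ≤ (d : ℝ) ^ (-(1 / 4) : ℝ) * #Q := mul_le_mul h3 h2 hd0.le hq4.le
    have h4 : (0 : ℝ) ≤ #P := Nat.cast_nonneg _
    nlinarith
  have hcB2 : (#B2 : ℝ) * (G / 2) ≤ S := by
    have h1 : ∑ z ∈ B2, (G : ℝ) / 2 ≤ ∑ z ∈ B2,
        (#(RS G d z.1 z.2 (fun j x y => (d : ℝ) / 10 < |VV d z.1 z.2 b j x y|)) : ℝ) := by
      refine sum_le_sum fun z hz => ?_
      rw [hB2, mem_filter] at hz
      exact hz.2.2
    rw [sum_const, nsmul_eq_mul] at h1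
    refine h1.trans ?_
    have h2 : ∑ z ∈ B2,
        (#(RS G d z.1 z.2 (fun j x y => (d : ℝ) / 10 < |VV d z.1 z.2 b j x y|)) : ℝ) ≤
        ∑ z ∈ (P ×ˢ Q).filter (fun z : ℕ × ℕ => z.1 ≠ z.2),
        (#(RS G d z.1 z.2 (fun j x y => (d : ℝ) / 10 < |VV d z.1 z.2 b j x y|)) : ℝ) := by
      refine sum_le_sum_of_subset_of_nonneg (fun z hz => ?_) fun _ _ _ => Nat.cast_nonneg _
      rw [hB2, mem_filter] at hz
      exact mem_filter.2 ⟨hz.1, hz.2.1⟩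
    refine h2.trans (le_of_eq ?_)
    rw [hS, sum_filter, sum_product]
    refine sum_congr rfl fun p _ => ?_
    rw [← sum_filter]
    refine sum_congr ?_ fun _ _ => rfl
    ext q
    simp only [mem_filter, mem_erase]
    constructor
    · rintro ⟨h1, h2⟩; exact ⟨Ne.symm h2, h1⟩
    · rintro ⟨h1, h2⟩; exact ⟨h2, Ne.symm h1⟩
  have hB2le : (#B2 : ℝ) ≤ 80000 * ((d : ℝ) ^ (-(1 / 4) : ℝ) * (#P * #Q)) := by
    have h1 : (#B2 : ℝ) * (G / 2) ≤ 80000 * ((d : ℝ) ^ (-(1 / 4) : ℝ) * (#P * #Q)) * (G / 2) := by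
      refine (hcB2.trans hSle).trans (le_of_eq ?_)
      ring
    exact le_of_mul_le_mul_right h1 (by positivity)
  have h0 : 0 ≤ (d : ℝ) ^ (-(1 / 4) : ℝ) * (#P * #Q) := by positivity
  calc (#Bad : ℝ) ≤ #P + #B2 := hcard
    _ ≤ 100000 * (d : ℝ) ^ (-(1 / 4) : ℝ) * (#P * #Q) := by linarith

end CS68
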