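import Pool.Agent.LibCS68.C1
import Pool.Agent.LibCS68.E1
import Pool.Agent.LibCS68.F1

set_option autoImplicit false
open Finset

namespace CS68

private theorem G1_swap (d : ℕ) (P Q : Finset ℕ) (F : ℕ → ℕ → ℕ → ℕ → ℕ → ℝ) :
    ∑ j ∈ U d, ∑ p ∈ P, ∑ x ∈ U p, ∑ q ∈ Q, ∑ y ∈ U q, F j p x q y =
      ∑ p ∈ P, ∑ q ∈ Q, ∑ j ∈ U d, ∑ x ∈ U p, ∑ y ∈ U q, F j p x q y := by
  rw [Finset.sum_comm]
  refine Finset.sum_congr rfl fun p _ => ?_
  calc ∑ j ∈ U d, ∑ x ∈ U p, ∑ q ∈ Q, ∑ y ∈ U q, F j p x q y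
      = ∑ j ∈ U d, ∑ q ∈ Q, ∑ x ∈ U p, ∑ y ∈ U q, F j p x q y :=
        Finset.sum_congr rfl fun j _ => Finset.sum_comm
    _ = _ := Finset.sum_comm

private theorem G1_card_U (d : ℕ) : #(U d) ≤ d := by
  unfold U
  exact (Finset.card_filter_le _ _).trans (by rw [card_range])

/-- Row G1 (from the weighted sum to the count). Subtract the terms `p = q` (`diag_le`: for each `j` at most
`∑_{p ∈ P ∩ Q} (p^2 + H p) ≤ #P (4 X^2 + 2 H X)`); for `p ≠ q` apply `pair_count` (`dpq ≤ 4 d X^2`, so the tail is at most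
`8 d^2 X^4/(HM) ≤ 8 d^2 X^2 / K`). With `K = 64 d^2/κ + 1`, `C` large (`#(U d) ≤ d`, `#Q ≥ C` since `M ≤ X`,
`H X ≤ (2 K/C) X^2 #Q` since `C X ≤ M #Q`): the terms with `|r| ≤ M` contribute at least `(κ/2) X^2 #P #Q`, each at most
`H ≤ 2 K X^2/M`: `δ = κ/(4K)`. -/
theorem extract (d : ℕ) (hd : 0 < d) (κ : ℝ) (hκ : 0 < κ) :
    ∃ K C δ : ℝ, 1 ≤ K ∧ 0 < C ∧ 0 < δ ∧ ∀ (X M H : ℕ) (P Q : Finset ℕ)
      (Bad : ℕ → ℕ → ℕ → ℕ → ℕ → Prop) [∀ j p x q y, Decidable (Bad j p x q y)],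
      d ≤ X → 0 < M → M ≤ X → InX X P → InX X Q → C * X ≤ M * #P → C * X ≤ M * #Q →
      K * X ^ 2 ≤ H * M → (H : ℝ) * M ≤ 2 * K * X ^ 2 →
      κ * (NP P * NP Q) ≤ ∑ j ∈ U d, ∑ p ∈ P, ∑ x ∈ U p, ∑ q ∈ Q, ∑ y ∈ U q,
        (if Bad j p x q y then Fj H ((j : ℝ) / d + (x : ℝ) / p + (y : ℝ) / q) else 0) →
      δ * M * #P * #Q ≤ ∑ p ∈ P, ∑ q ∈ Q.erase p, (#(RS M d p q (fun j x y => Bad j p x q y)) : ℝ) := by
  have hd1 : (1 : ℝ) ≤ d := by exact_mod_cast hd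
  have hd0 : (0 : ℝ) < d := by linarith
  set K : ℝ := 32 * (d : ℝ) ^ 2 / κ + 1 with hK
  have hKpos : 0 < 32 * (d : ℝ) ^ 2 / κ := by positivity
  have hK1 : 1 ≤ K := by rw [hK]; linarith
  have hK0 : 0 < K := by linarith
  set C : ℝ := 16 * d * (1 + K) / κ with hC
  have hC0 : 0 < C := by rw [hC]; positivity
  refine ⟨K, C, κ / (4 * K), hK1, hC0, by positivity, ?_⟩
  intro X M H P Q Bad _ hdX hM hMX hP hQ hCP hCQ hKH hKH2 hS
  have hX : 0 < X := lt_of_lt_of_le hd hdX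
  have hXr : (0 : ℝ) < X := by exact_mod_cast hX
  have hMr : (0 : ℝ) < M := by exact_mod_cast hM
  have hMXr : (M : ℝ) ≤ X := by exact_mod_cast hMX
  have hHM0 : 0 < (H : ℝ) * M := lt_of_lt_of_le (by positivity) hKH
  have hHr : (0 : ℝ) < H := pos_of_mul_pos_left hHM0 hMr.le
  have hH : 0 < H := by exact_mod_cast hHr
  set a : ℝ := (#P : ℝ) with ha
  set b : ℝ := (#Q : ℝ) with hb
  have ha0 : 0 ≤ a := Nat.cast_nonneg _
  have hb0 : 0 ≤ b := Nat.cast_nonneg _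
  -- the diagonal
  set D : ℝ := d * (4 * (X : ℝ) ^ 2 + 2 * H * X) with hD
  have hD0 : 0 ≤ D := by rw [hD]; positivity
  have hCb : C ≤ b := by
    have h1 : C * X ≤ b * X := by
      calc C * X ≤ M * b := hCQ
        _ ≤ X * b := mul_le_mul_of_nonneg_right hMXr hb0
        _ = b * X := by ring
    exact le_of_mul_le_mul_right h1 hXr
  have hDle : D ≤ κ / 4 * X ^ 2 * b := by
    have h1 : 4 * (X : ℝ) ^ 2 ≤ 4 * X ^ 2 * b / C := by
      rw [le_div_iff₀ hC0]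
      exact mul_le_mul_of_nonneg_left hCb (by positivity)
    have h2 : (H : ℝ) * X ≤ 2 * K * X ^ 2 * b / C := by
      rw [le_div_iff₀ hC0]
      calc (H : ℝ) * X * C = H * (C * X) := by ring
        _ ≤ H * (M * b) := mul_le_mul_of_nonneg_left hCQ hHr.le
        _ = (H * M) * b := by ring
        _ ≤ (2 * K * X ^ 2) * b := mul_le_mul_of_nonneg_right hKH2 hb0
    calc D ≤ d * (4 * X ^ 2 * b / C + 2 * (2 * K * X ^ 2 * b / C)) := by
          rw [hD]
          refine mul_le_mul_of_nonneg_left ?_ hd0.le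
          nlinarith
      _ = (4 * d * (1 + K) / C) * X ^ 2 * b := by ring
      _ = κ / 4 * X ^ 2 * b := by
          have h3 : 4 * d * (1 + K) / C = κ / 4 := by
            rw [hC]
            field_simp
            ring
          rw [h3]
  set E : ℝ := 8 * (d : ℝ) ^ 2 * X ^ 2 / K with hE
  have hEle : E ≤ κ / 4 * X ^ 2 := by
    rw [hE, div_le_iff₀ hK0]
    have h1 : 8 * (d : ℝ) ^ 2 ≤ κ / 4 * K := by
      rw [hK]
      have : κ / 4 * (32 * (d : ℝ) ^ 2 / κ + 1) = 8 * (d : ℝ) ^ 2 + κ / 4 := by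
        field_simp
        ring
      rw [this]
      linarith
    calc 8 * (d : ℝ) ^ 2 * X ^ 2 ≤ (κ / 4 * K) * X ^ 2 :=
          mul_le_mul_of_nonneg_right h1 (by positivity)
      _ = κ / 4 * X ^ 2 * K := by ring
  -- bounds
  have hdiag : ∀ p ∈ P, ∑ j ∈ U d, ∑ x ∈ U p, ∑ y ∈ U p,
      (if Bad j p x p y then Fj H ((j : ℝ) / d + (x : ℝ) / p + (y : ℝ) / p) else 0) ≤ D := by
    intro p hp
    obtain ⟨hpp, hp1, hp2⟩ := hP p hp
    have hp2r : (p : ℝ) ≤ 2 * X := by exact_mod_cast hp2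
    have hp0r : (0 : ℝ) ≤ p := Nat.cast_nonneg _
    calc ∑ j ∈ U d, ∑ x ∈ U p, ∑ y ∈ U p,
        (if Bad j p x p y then Fj H ((j : ℝ) / d + (x : ℝ) / p + (y : ℝ) / p) else 0)
        ≤ ∑ j ∈ U d, ((p : ℝ) ^ 2 + H * p) := by
          refine Finset.sum_le_sum fun j _ => ?_
          refine le_trans ?_ (diag_le H p hpp ((j : ℝ) / d))
          refine Finset.sum_le_sum fun x _ => Finset.sum_le_sum fun y _ => ?_
          split_ifs
          · exact le_rfl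
          · exact Fj_nonneg _ _
      _ = #(U d) * ((p : ℝ) ^ 2 + H * p) := by rw [Finset.sum_const, nsmul_eq_mul]
      _ ≤ d * (4 * (X : ℝ) ^ 2 + 2 * H * X) := by
          have h1 : ((#(U d) : ℕ) : ℝ) ≤ d := by exact_mod_cast G1_card_U d
          have h2 : (p : ℝ) ^ 2 + H * p ≤ 4 * (X : ℝ) ^ 2 + 2 * H * X := by
            have h3 : (p : ℝ) ^ 2 ≤ (2 * X) ^ 2 := pow_le_pow_left₀ hp0r hp2r 2
            have h4 : (H : ℝ) * p ≤ H * (2 * X) := mul_le_mul_of_nonneg_left hp2r hHr.le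
            nlinarith
          exact mul_le_mul h1 h2 (by positivity) hd0.le
      _ = D := rfl
  have hoff : ∀ p ∈ P, ∀ q ∈ Q.erase p, ∑ j ∈ U d, ∑ x ∈ U p, ∑ y ∈ U q,
      (if Bad j p x q y then Fj H ((j : ℝ) / d + (x : ℝ) / p + (y : ℝ) / q) else 0) ≤
      H * (#(RS M d p q (fun j x y => Bad j p x q y)) : ℝ) + E := by
    intro p hp q hq
    obtain ⟨hpp, hp1, hp2⟩ := hP p hp
    have hne : q ≠ p := (Finset.mem_erase.mp hq).1
    obtain ⟨hqp, hq1, hq2⟩ := hQ q (Finset.mem_erase.mp hq).2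
    have hdp : d.Coprime p := by
      refine Nat.Coprime.symm ((Nat.Prime.coprime_iff_not_dvd hpp).mpr fun h => ?_)
      have := Nat.le_of_dvd hd h
      omega
    have hdq : d.Coprime q := by
      refine Nat.Coprime.symm ((Nat.Prime.coprime_iff_not_dvd hqp).mpr fun h => ?_)
      have := Nat.le_of_dvd hd h
      omega
    have hpq : p.Coprime q := (Nat.coprime_primes hpp hqp).mpr (Ne.symm hne)
    refine (pair_count H M d p q hH hM hd hpp.pos hqp.pos hdp hdq hpq (fun j x y => Bad j p x q y)).trans ?_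
    refine add_le_add le_rfl ?_
    have h1 : ((d * p * q : ℕ) : ℝ) ≤ 4 * d * X ^ 2 := by
      have h2 : d * p * q ≤ 4 * d * X ^ 2 := by
        calc d * p * q ≤ d * (2 * X) * (2 * X) :=
              Nat.mul_le_mul (Nat.mul_le_mul_left d hp2) hq2
          _ = 4 * d * X ^ 2 := by ring
      exact_mod_cast h2
    have h3 : ((d * p * q : ℕ) : ℝ) ^ 2 ≤ (4 * d * X ^ 2) ^ 2 :=
      pow_le_pow_left₀ (Nat.cast_nonneg _) h1 2
    rw [div_le_iff₀ (by positivity), hE]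
    have h4 : 8 * (d : ℝ) ^ 2 * X ^ 2 / K * (2 * (K * X ^ 2)) ≤
        8 * (d : ℝ) ^ 2 * X ^ 2 / K * (2 * (H * M)) :=
      mul_le_mul_of_nonneg_left (by linarith) (by positivity)
    have h5 : 8 * (d : ℝ) ^ 2 * X ^ 2 / K * (2 * (K * X ^ 2)) = (4 * d * X ^ 2) ^ 2 := by
      field_simp
      ring
    calc ((d * p * q : ℕ) : ℝ) ^ 2 ≤ (4 * d * X ^ 2) ^ 2 := h3
      _ ≤ 8 * (d : ℝ) ^ 2 * X ^ 2 / K * (2 * (H * M)) := by rw [← h5]; exact h4
      _ = 8 * (d : ℝ) ^ 2 * X ^ 2 / K * (2 * H * M) := by ring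
  set R : ℝ := ∑ p ∈ P, ∑ q ∈ Q.erase p, (#(RS M d p q (fun j x y => Bad j p x q y)) : ℝ) with hR
  have hsum : ∑ j ∈ U d, ∑ p ∈ P, ∑ x ∈ U p, ∑ q ∈ Q, ∑ y ∈ U q,
        (if Bad j p x q y then Fj H ((j : ℝ) / d + (x : ℝ) / p + (y : ℝ) / q) else 0) ≤
        a * D + (H * R + a * (b * E)) := by
    rw [G1_swap d P Q (fun j p x q y =>
      (if Bad j p x q y then Fj H ((j : ℝ) / d + (x : ℝ) / p + (y : ℝ) / q) else 0))]
    have hE0 : 0 ≤ E := by rw [hE]; positivity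
    calc _ ≤ ∑ p ∈ P, (D + (H * ∑ q ∈ Q.erase p, (#(RS M d p q (fun j x y => Bad j p x q y)) : ℝ)
            + b * E)) := by
          refine Finset.sum_le_sum fun p hp => ?_
          have h1 : ∑ q ∈ Q.erase p, ∑ j ∈ U d, ∑ x ∈ U p, ∑ y ∈ U q,
              (if Bad j p x q y then Fj H ((j : ℝ) / d + (x : ℝ) / p + (y : ℝ) / q) else 0) ≤
              H * ∑ q ∈ Q.erase p, (#(RS M d p q (fun j x y => Bad j p x q y)) : ℝ) + b * E := by
            refine (Finset.sum_le_sum (hoff p hp)).trans ?_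
            rw [Finset.sum_add_distrib, ← Finset.mul_sum, Finset.sum_const, nsmul_eq_mul]
            refine add_le_add le_rfl (mul_le_mul_of_nonneg_right ?_ hE0)
            rw [hb]
            exact_mod_cast Finset.card_le_card (Finset.erase_subset _ _)
          by_cases hpQ : p ∈ Q
          · rw [← Finset.add_sum_erase Q _ hpQ]
            exact add_le_add (hdiag p hp) h1
          · rw [Finset.erase_eq_of_notMem hpQ] at h1 ⊢
            linarith
      _ = a * D + (H * R + a * (b * E)) := by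
          rw [Finset.sum_add_distrib, Finset.sum_add_distrib, Finset.sum_const, Finset.sum_const,
            nsmul_eq_mul, nsmul_eq_mul, hR, Finset.mul_sum]
  -- conclusion
  have hlow : κ * (X ^ 2 * (a * b)) ≤ a * D + (H * R + a * (b * E)) := by
    refine le_trans ?_ (hS.trans hsum)
    refine mul_le_mul_of_nonneg_left ?_ hκ.le
    have h1 := NP_ge X P hP
    have h2 := NP_ge X Q hQ
    calc (X : ℝ) ^ 2 * (a * b) = (X * a) * (X * b) := by ring
      _ ≤ NP P * NP Q := mul_le_mul h1 h2 (by positivity) (le_trans (by positivity) h1)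
  have h1 : a * D ≤ κ / 4 * (X ^ 2 * (a * b)) := by
    calc a * D ≤ a * (κ / 4 * X ^ 2 * b) := mul_le_mul_of_nonneg_left hDle ha0
      _ = _ := by ring
  have h2 : a * (b * E) ≤ κ / 4 * (X ^ 2 * (a * b)) := by
    calc a * (b * E) ≤ a * (b * (κ / 4 * X ^ 2)) :=
          mul_le_mul_of_nonneg_left (mul_le_mul_of_nonneg_left hEle hb0) ha0
      _ = _ := by ring
  have h3 : κ / 2 * (X ^ 2 * (a * b)) ≤ H * R := by linarith
  have hR0 : 0 ≤ R := Finset.sum_nonneg fun p _ => Finset.sum_nonneg fun q _ => Nat.cast_nonneg _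
  have h4 : X ^ 2 * (κ / 2 * (a * b) * M) ≤ X ^ 2 * (2 * K * R) := by
    calc (X : ℝ) ^ 2 * (κ / 2 * (a * b) * M) = κ / 2 * (X ^ 2 * (a * b)) * M := by ring
      _ ≤ (H * R) * M := mul_le_mul_of_nonneg_right h3 hMr.le
      _ = (H * M) * R := by ring
      _ ≤ (2 * K * X ^ 2) * R := mul_le_mul_of_nonneg_right hKH2 hR0
      _ = _ := by ring
  have h5 : κ / 2 * (a * b) * M ≤ 2 * K * R := le_of_mul_le_mul_left h4 (by positivity)
  have h6 : κ / (4 * K) * M * a * b = (κ / 2 * (a * b) * M) / (2 * K) := by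
    field_simp
    ring
  rw [h6, div_le_iff₀ (by positivity)]
  linarith

end CS68
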