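import Pool.Agent.LibCS68.D1
import Pool.Agent.LibCS68.G1

set_option autoImplicit false
open Finset

namespace CS68

theorem I1_H (X M : ℕ) (K : ℝ) (hK : 1 ≤ K) (hM : 0 < M) (hMX : M ≤ X) :
    ∃ H : ℕ, 0 < H ∧ K * X ^ 2 ≤ H * M ∧ (H : ℝ) * M ≤ 2 * K * X ^ 2 := by
  have hM0 : (0 : ℝ) < M := by exact_mod_cast hM
  have hX1 : (1 : ℝ) ≤ X := by exact_mod_cast (le_trans hM hMX)
  have hMX' : (M : ℝ) ≤ X := by exact_mod_cast hMX
  have h1 : (M : ℝ) ≤ K * X ^ 2 := by nlinarith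
  have h2 : (1 : ℝ) ≤ K * X ^ 2 / M := by rwa [le_div_iff₀ hM0, one_mul]
  refine ⟨⌈K * X ^ 2 / M⌉₊, Nat.ceil_pos.2 (by linarith), ?_, ?_⟩
  · rw [← div_le_iff₀ hM0]
    exact Nat.le_ceil _
  · have h3 := Nat.ceil_lt_add_one (show (0 : ℝ) ≤ K * X ^ 2 / M by linarith)
    have h4 : (⌈K * X ^ 2 / M⌉₊ : ℝ) ≤ 2 * (K * X ^ 2 / M) := by linarith
    calc (⌈K * X ^ 2 / M⌉₊ : ℝ) * M ≤ 2 * (K * X ^ 2 / M) * M :=
          mul_le_mul_of_nonneg_right h4 hM0.le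
      _ = 2 * K * X ^ 2 := by field_simp

theorem I1_small (X M H : ℕ) (K η : ℝ) (P : Finset ℕ) (hP : InX X P) (hM : 0 < M) (hη : 0 ≤ η)
    (hH : (H : ℝ) * M ≤ 2 * K * X ^ 2) (hC : 16 * K * X ≤ η * (M * #P)) :
    8 * H * X * #P ≤ η * NP P ^ 2 := by
  have hM0 : (0 : ℝ) < M := by exact_mod_cast hM
  have hX0 : (0 : ℝ) ≤ X := Nat.cast_nonneg _
  have hP0 : (0 : ℝ) ≤ #P := Nat.cast_nonneg _
  have h1 : (M : ℝ) * (8 * H * X * #P) ≤ M * (η * (X * #P) ^ 2) := by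
    have a : (H : ℝ) * M * (8 * X * #P) ≤ 2 * K * X ^ 2 * (8 * X * #P) :=
      mul_le_mul_of_nonneg_right hH (by positivity)
    have b : 16 * K * X * (X ^ 2 * #P) ≤ η * (M * #P) * (X ^ 2 * #P) :=
      mul_le_mul_of_nonneg_right hC (by positivity)
    nlinarith
  have h2 := le_of_mul_le_mul_left h1 hM0
  have h3 := NP_ge X P hP
  have h4 : (X * #P : ℝ) ^ 2 ≤ NP P ^ 2 := pow_le_pow_left₀ (by positivity) h3 2
  exact h2.trans (mul_le_mul_of_nonneg_left h4 hη)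

theorem I1_split (H d : ℕ) (P Q : Finset ℕ) (w : ℕ → ℝ) (f g : ℕ → ℕ → ℝ)
    [∀ j p x q y, Decidable (w j * f p x * g q y = -1)]
    (hw : ∀ j, w j = 1 ∨ w j = -1) (hf : ∀ p x, f p x = 1 ∨ f p x = -1)
    (hg : ∀ q y, g q y = 1 ∨ g q y = -1) :
    ∑ j ∈ U d, ∑ p ∈ P, ∑ x ∈ U p, ∑ q ∈ Q, ∑ y ∈ U q,
        (if w j * f p x * g q y = -1 then Fj H ((j : ℝ) / d + (x : ℝ) / p + (y : ℝ) / q) else 0) =
      (TT H d P Q (fun _ => 1) (fun _ _ => 1) (fun _ _ => 1) - TT H d P Q w f g) / 2 := by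
  unfold TT
  simp only [← sum_sub_distrib, sum_div]
  refine sum_congr rfl fun j _ => sum_congr rfl fun p _ => sum_congr rfl fun x _ =>
    sum_congr rfl fun q _ => sum_congr rfl fun y _ => ?_
  have hv : w j * f p x * g q y = -1 ∨ w j * f p x * g q y = 1 := by
    rcases hw j with h1 | h1 <;> rcases hf p x with h2 | h2 <;> rcases hg q y with h3 | h3 <;>
      rw [h1, h2, h3] <;> norm_num
  rcases hv with h | h
  · rw [if_pos h, h]; ring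
  · rw [if_neg (by rw [h]; norm_num), h]; ring

theorem I1_split2 (H : ℕ) (P : Finset ℕ) (f : ℕ → ℕ → ℝ)
    [∀ p x q y, Decidable (f p x * f q y = 1)]
    (hf : ∀ p x, f p x = 1 ∨ f p x = -1) :
    ∑ j ∈ U 1, ∑ p ∈ P, ∑ x ∈ U p, ∑ q ∈ P, ∑ y ∈ U q,
        (if f p x * f q y = 1 then Fj H ((j : ℝ) / (1 : ℕ) + (x : ℝ) / p + (y : ℝ) / q) else 0) =
      (TT H 1 P P (fun _ => 1) (fun _ _ => 1) (fun _ _ => 1) + TT H 1 P P (fun _ => 1) f f) / 2 := by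
  unfold TT
  simp only [← sum_add_distrib, sum_div]
  refine sum_congr rfl fun j _ => sum_congr rfl fun p _ => sum_congr rfl fun x _ =>
    sum_congr rfl fun q _ => sum_congr rfl fun y _ => ?_
  have hv : f p x * f q y = 1 ∨ f p x * f q y = -1 := by
    rcases hf p x with h2 | h2 <;> rcases hf q y with h3 | h3 <;>
      rw [h2, h3] <;> norm_num
  rcases hv with h | h
  · rw [if_pos h, one_mul (f p x), h]; ring
  · rw [if_neg (by rw [h]; norm_num), one_mul (f p x), h]; ring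

/-- the cross term of `TT_one` -/
theorem I1_cross (X H : ℕ) (P Q : Finset ℕ) (η : ℝ) (hη : 0 ≤ η)
    (hP : 8 * (H : ℝ) * X * #P ≤ η * NP P ^ 2) (hQ : 8 * (H : ℝ) * X * #Q ≤ η * NP Q ^ 2)
    (hP0 : 0 ≤ NP P) (hQ0 : 0 ≤ NP Q) :
    8 * H * X * √((#P : ℝ) * #Q) ≤ η * (NP P * NP Q) := by
  have hX0 : (0 : ℝ) ≤ X := Nat.cast_nonneg _
  have hH0 : (0 : ℝ) ≤ H := Nat.cast_nonneg _
  have h : (8 * H * X * √((#P : ℝ) * #Q)) ^ 2 ≤ (η * (NP P * NP Q)) ^ 2 := by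
    have e1 : (8 * (H : ℝ) * X * √((#P : ℝ) * #Q)) ^ 2 =
        (8 * (H : ℝ) * X * #P) * (8 * (H : ℝ) * X * #Q) := by
      rw [mul_pow, Real.sq_sqrt (by positivity)]
      ring
    rw [e1]
    calc (8 * (H : ℝ) * X * #P) * (8 * (H : ℝ) * X * #Q) ≤ (η * NP P ^ 2) * (η * NP Q ^ 2) :=
          mul_le_mul hP hQ (by positivity) (by positivity)
      _ = (η * (NP P * NP Q)) ^ 2 := by ring
  exact (le_abs_self _).trans (abs_le_of_sq_le_sq h (by positivity))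

theorem I1_root (X H : ℕ) (P Q : Finset ℕ) (η : ℝ) (hη : 0 ≤ η) (hPX : InX X P) (hQX : InX X Q)
    (hP : 8 * (H : ℝ) * X * #P ≤ η * NP P ^ 2) (hQ : 8 * (H : ℝ) * X * #Q ≤ η * NP Q ^ 2)
    (hP0 : 0 ≤ NP P) (hQ0 : 0 ≤ NP Q) :
    √(BP H P) * √(BP H Q) ≤ (1 + η) * (NP P * NP Q) := by
  have h1 : BP H P ≤ (1 + η) * NP P ^ 2 := by
    have := BP_le X H P hPX
    linarith
  have h2 : BP H Q ≤ (1 + η) * NP Q ^ 2 := by
    have := BP_le X H Q hQX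
    linarith
  calc √(BP H P) * √(BP H Q) ≤ √((1 + η) * NP P ^ 2) * √((1 + η) * NP Q ^ 2) :=
        mul_le_mul (Real.sqrt_le_sqrt h1) (Real.sqrt_le_sqrt h2) (Real.sqrt_nonneg _)
          (Real.sqrt_nonneg _)
    _ = √(((1 + η) * (NP P * NP Q)) ^ 2) := by
        rw [← Real.sqrt_mul (by positivity)]
        congr 1
        ring
    _ = (1 + η) * (NP P * NP Q) := Real.sqrt_sq (by positivity)

theorem I1_NP0 (X : ℕ) (P : Finset ℕ) (hP : InX X P) : 0 ≤ NP P :=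
  le_trans (by positivity) (NP_ge X P hP)

/-- Row I1a (core theorem, three primes). `κ = (#(U d) - ρ)/8`; `K, C₀, δ` from `extract`; `H = ⌈K X^2/M⌉`
(`≤ 2 K X^2/M` as `K X^2/M ≥ 1`); `[w f g = -1] = (1 - w f g)/2`, so the weighted sum is
`(TT 1 1 1 - TT w f g)/2`; `TT_one`, `TT_le`, `BP_le`, `NP P ≥ X #P`, `8 H X #P ≤ η (X #P)^2` if `C ≥ 16 K/η`
(as `H/X ≤ 2 K X/M ≤ (2K/C) #P`). -/
theorem core (d : ℕ) (hd : 0 < d) (ρ : ℝ) (hρ0 : 0 ≤ ρ) (hρ : ρ < #(U d)) :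
    ∃ C δ : ℝ, 0 < C ∧ 0 < δ ∧ ∀ (X M : ℕ) (P Q : Finset ℕ) (w : ℕ → ℝ) (f g : ℕ → ℕ → ℝ),
      d ≤ X → 0 < M → M ≤ X → InX X P → InX X Q → C * X ≤ M * #P → C * X ≤ M * #Q →
      (∀ j, w j = 1 ∨ w j = -1) → (∀ p x, f p x = 1 ∨ f p x = -1) → (∀ q y, g q y = 1 ∨ g q y = -1) →
      (∀ n : ℤ, ‖∑ j ∈ U d, (w j : ℂ) * e ((n : ℝ) * ((j : ℝ) / d))‖ ≤ ρ) →
      δ * M * #P * #Q ≤
        ∑ p ∈ P, ∑ q ∈ Q.erase p, (#(RS M d p q (fun j x y => w j * f p x * g q y = -1)) : ℝ) := by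
  classical
  obtain ⟨N, hN⟩ : ∃ N : ℝ, N = (#(U d) : ℝ) := ⟨_, rfl⟩
  rw [← hN] at hρ
  obtain ⟨η, hη⟩ : ∃ η : ℝ, η = (N - ρ) / (2 * (N + ρ)) := ⟨_, rfl⟩
  have hN0 : 0 < N := lt_of_le_of_lt hρ0 hρ
  have hη0 : 0 < η := by
    rw [hη]
    apply div_pos <;> linarith
  have hη1 : η * (2 * (N + ρ)) = N - ρ := by
    rw [hη]
    exact div_mul_cancel₀ _ (by linarith)
  obtain ⟨K, C₀, δ, hK, hC₀, hδ, hmain⟩ := extract d hd ((N - ρ) / 8) (by linarith)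
  refine ⟨max C₀ (16 * K / η), δ, lt_max_of_lt_left hC₀, hδ, ?_⟩
  intro X M P Q w f g hdX hM hMX hP hQ hCP hCQ hw hf hg hρn
  have hX0 : (0 : ℝ) ≤ X := Nat.cast_nonneg _
  obtain ⟨H, hH0, hH1, hH2⟩ := I1_H X M K hK hM hMX
  have hCP0 : C₀ * X ≤ M * #P := (mul_le_mul_of_nonneg_right (le_max_left _ _) hX0).trans hCP
  have hCQ0 : C₀ * X ≤ M * #Q := (mul_le_mul_of_nonneg_right (le_max_left _ _) hX0).trans hCQ
  have hC1 : ∀ R : Finset ℕ, max C₀ (16 * K / η) * X ≤ M * #R → 16 * K * X ≤ η * (M * #R) := by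
    intro R hR
    have h1 := (mul_le_mul_of_nonneg_right (le_max_right C₀ (16 * K / η)) hX0).trans hR
    calc 16 * K * X = η * (16 * K / η * X) := by field_simp
      _ ≤ η * (M * #R) := mul_le_mul_of_nonneg_left h1 hη0.le
  have sP := I1_small X M H K η P hP hM hη0.le hH2 (hC1 P hCP)
  have sQ := I1_small X M H K η Q hQ hM hη0.le hH2 (hC1 Q hCQ)
  have nP := I1_NP0 X P hP
  have nQ := I1_NP0 X Q hQ
  have hab : 0 ≤ NP P * NP Q := mul_nonneg nP nQ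
  have h1 := TT_one X H d hH0 P Q hP hQ
  have h2 := TT_le H d P Q (fun p hp => (hP p hp).1) (fun q hq => (hQ q hq).1) w f g
    (fun p x => by rcases hf p x with h | h <;> rw [h] <;> simp)
    (fun q y => by rcases hg q y with h | h <;> rw [h] <;> simp) ρ hρn
  have h3 := I1_cross X H P Q η hη0.le sP sQ nP nQ
  have h4 := I1_root X H P Q η hη0.le hP hQ sP sQ nP nQ
  have h5 : TT H d P Q w f g ≤ ρ * ((1 + η) * (NP P * NP Q)) :=
    (le_abs_self _).trans (h2.trans (mul_le_mul_of_nonneg_left h4 hρ0))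
  rw [← hN] at h1
  have h6 : N * ((1 - η) * (NP P * NP Q)) ≤ TT H d P Q (fun _ => 1) (fun _ _ => 1) (fun _ _ => 1) := by
    refine le_trans ?_ h1
    apply mul_le_mul_of_nonneg_left _ hN0.le
    linarith
  have hk : (N - ρ) / 8 * (NP P * NP Q) ≤
      (TT H d P Q (fun _ => 1) (fun _ _ => 1) (fun _ _ => 1) - TT H d P Q w f g) / 2 := by
    have h7 : N * ((1 - η) * (NP P * NP Q)) - ρ * ((1 + η) * (NP P * NP Q)) =
        (N - ρ) / 2 * (NP P * NP Q) := by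
      have : N * (1 - η) - ρ * (1 + η) = (N - ρ) / 2 := by linarith
      rw [← this]
      ring
    have h8 : 0 ≤ (N - ρ) * (NP P * NP Q) := mul_nonneg (by linarith) hab
    linarith
  rw [← I1_split H d P Q w f g hw hf hg] at hk
  exact hmain X M H P Q (fun j p x q y => w j * f p x * g q y = -1) hdX hM hMX hP hQ hCP0 hCQ0
    hH1 hH2 hk

/-- Row I1b (core theorem, two primes, `d = 1`). `[f f = 1] = (1 + f f)/2` and `TT_nonneg`. -/
theorem core2 : ∃ C δ : ℝ, 0 < C ∧ 0 < δ ∧ ∀ (X M : ℕ) (P : Finset ℕ) (f : ℕ → ℕ → ℝ),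
      0 < M → M ≤ X → InX X P → C * X ≤ M * #P →
      (∀ p x, f p x = 1 ∨ f p x = -1) → (∀ p x, x ∈ U p → f p (p - x) = f p x) →
      δ * M * #P * #P ≤
        ∑ p ∈ P, ∑ q ∈ P.erase p, (#(RS M 1 p q (fun _ x y => f p x * f q y = 1)) : ℝ) := by
  classical
  obtain ⟨K, C₀, δ, hK, hC₀, hδ, hmain⟩ := extract 1 one_pos (1 / 8) (by norm_num)
  refine ⟨max C₀ (16 * K / (1 / 2)), δ, lt_max_of_lt_left hC₀, hδ, ?_⟩
  intro X M P f hM hMX hP hCP hf hfe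
  have hX0 : (0 : ℝ) ≤ X := Nat.cast_nonneg _
  obtain ⟨H, hH0, hH1, hH2⟩ := I1_H X M K hK hM hMX
  have hCP0 : C₀ * X ≤ M * #P := (mul_le_mul_of_nonneg_right (le_max_left _ _) hX0).trans hCP
  have hC1 : 16 * K * X ≤ (1 / 2) * (M * #P : ℝ) := by
    have h1 := (mul_le_mul_of_nonneg_right (le_max_right C₀ (16 * K / (1 / 2))) hX0).trans hCP
    linarith
  have sP := I1_small X M H K (1 / 2) P hP hM (by norm_num) hH2 hC1
  have nP := I1_NP0 X P hP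
  have hab : 0 ≤ NP P * NP P := mul_nonneg nP nP
  have h1 := TT_one X H 1 hH0 P P hP hP
  have h2 := TT_nonneg H P (fun p hp => (hP p hp).1) f hfe
  have h3 := I1_cross X H P P (1 / 2) (by norm_num) sP sP nP nP
  have hU : #(U 1) = 1 := by decide
  rw [hU, Nat.cast_one, one_mul] at h1
  have hk : (1 / 8 : ℝ) * (NP P * NP P) ≤
      (TT H 1 P P (fun _ => 1) (fun _ _ => 1) (fun _ _ => 1) + TT H 1 P P (fun _ => 1) f f) / 2 := by
    linarith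
  rw [← I1_split2 H P f hf] at hk
  exact hmain X M H P P (fun _ p x q y => f p x * f q y = 1) (le_trans hM hMX) hM hMX hP hP hCP0 hCP0
    hH1 hH2 hk

end CS68
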