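import Mathlib

set_option autoImplicit false
open Finset

namespace CS68

/-- Evaluation of the polynomial of degree `≤ 3` with coefficients `c`. -/
def K1a_ev {d : ℕ} (c : Fin 4 → ZMod d) (s : ZMod d) : ZMod d :=
  c 3 * s ^ 3 + c 2 * s ^ 2 + c 1 * s + c 0

/-- The product of the character values at four points. -/
noncomputable def K1a_P (d : ℕ) [Fact d.Prime] (x c : Fin 4 → ZMod d) : ℤ :=
  ∏ i, quadraticChar (ZMod d) (K1a_ev c (x i))

lemma K1a_sum_shift (d : ℕ) [Fact d.Prime] (hd : 3 < d) (u D : ZMod d) (hD : D ≠ 0) :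
    ∑ t : ZMod d, quadraticChar (ZMod d) (u + t * D) = 0 := by
  have h1 : ringChar (ZMod d) ≠ 2 := by
    rw [ZMod.ringChar_zmod_n]; omega
  have h2 := quadraticChar_sum_zero (F := ZMod d) h1
  rw [← h2]
  refine Fintype.sum_bijective (fun t : ZMod d => u + t * D) ?_ _ _ (fun t => rfl)
  refine (Finite.injective_iff_bijective).1 ?_
  intro a b hab
  simp only at hab
  exact mul_right_cancel₀ hD (add_left_cancel hab)

lemma K1a_single (d : ℕ) [Fact d.Prime] (hd : 3 < d) (x : Fin 4 → ZMod d) (j : Fin 4)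
    (hj : ∀ i, i ≠ j → x i ≠ x j) : ∑ c : Fin 4 → ZMod d, K1a_P d x c = 0 := by
  classical
  -- a polynomial vanishing at the other points and not at `x j`
  obtain ⟨e, he0, heD⟩ : ∃ e : Fin 4 → ZMod d, (∀ i, i ≠ j → K1a_ev e (x i) = 0) ∧ K1a_ev e (x j) ≠ 0 := by
    have key : ∀ y1 y2 y3 : ZMod d, y1 ≠ x j → y2 ≠ x j → y3 ≠ x j →
        ∃ e : Fin 4 → ZMod d, (∀ s, K1a_ev e s = (s - y1) * (s - y2) * (s - y3)) := by
      intro y1 y2 y3 _ _ _
      refine ⟨![-(y1 * y2 * y3), y1 * y2 + y1 * y3 + y2 * y3, -(y1 + y2 + y3), 1], ?_⟩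
      intro s
      simp [K1a_ev]
      ring
    fin_cases j
    · obtain ⟨e, he⟩ := key (x 1) (x 2) (x 3) (hj 1 (by decide)) (hj 2 (by decide)) (hj 3 (by decide))
      refine ⟨e, ?_, ?_⟩
      · intro i hi
        fin_cases i
        · exact absurd rfl hi
        · rw [he]; simp
        · rw [he]; simp
        · rw [he]; simp
      · rw [he]
        refine mul_ne_zero (mul_ne_zero ?_ ?_) ?_
        · exact sub_ne_zero.2 (Ne.symm (hj 1 (by decide)))
        · exact sub_ne_zero.2 (Ne.symm (hj 2 (by decide)))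
        · exact sub_ne_zero.2 (Ne.symm (hj 3 (by decide)))
    · obtain ⟨e, he⟩ := key (x 0) (x 2) (x 3) (hj 0 (by decide)) (hj 2 (by decide)) (hj 3 (by decide))
      refine ⟨e, ?_, ?_⟩
      · intro i hi
        fin_cases i
        · rw [he]; simp
        · exact absurd rfl hi
        · rw [he]; simp
        · rw [he]; simp
      · rw [he]
        refine mul_ne_zero (mul_ne_zero ?_ ?_) ?_
        · exact sub_ne_zero.2 (Ne.symm (hj 0 (by decide)))
        · exact sub_ne_zero.2 (Ne.symm (hj 2 (by decide)))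
        · exact sub_ne_zero.2 (Ne.symm (hj 3 (by decide)))
    · obtain ⟨e, he⟩ := key (x 0) (x 1) (x 3) (hj 0 (by decide)) (hj 1 (by decide)) (hj 3 (by decide))
      refine ⟨e, ?_, ?_⟩
      · intro i hi
        fin_cases i
        · rw [he]; simp
        · rw [he]; simp
        · exact absurd rfl hi
        · rw [he]; simp
      · rw [he]
        refine mul_ne_zero (mul_ne_zero ?_ ?_) ?_
        · exact sub_ne_zero.2 (Ne.symm (hj 0 (by decide)))
        · exact sub_ne_zero.2 (Ne.symm (hj 1 (by decide)))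
        · exact sub_ne_zero.2 (Ne.symm (hj 3 (by decide)))
    · obtain ⟨e, he⟩ := key (x 0) (x 1) (x 2) (hj 0 (by decide)) (hj 1 (by decide)) (hj 2 (by decide))
      refine ⟨e, ?_, ?_⟩
      · intro i hi
        fin_cases i
        · rw [he]; simp
        · rw [he]; simp
        · rw [he]; simp
        · exact absurd rfl hi
      · rw [he]
        refine mul_ne_zero (mul_ne_zero ?_ ?_) ?_
        · exact sub_ne_zero.2 (Ne.symm (hj 0 (by decide)))
        · exact sub_ne_zero.2 (Ne.symm (hj 1 (by decide)))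
        · exact sub_ne_zero.2 (Ne.symm (hj 2 (by decide)))
  have hshift : ∀ t : ZMod d, ∑ c : Fin 4 → ZMod d, K1a_P d x c
      = ∑ c : Fin 4 → ZMod d, K1a_P d x (c + t • e) := by
    intro t
    exact (Fintype.sum_equiv (Equiv.addRight (t • e)) _ _ (fun c => rfl)).symm
  have hev : ∀ (t : ZMod d) (c : Fin 4 → ZMod d) (s : ZMod d),
      K1a_ev (c + t • e) s = K1a_ev c s + t * K1a_ev e s := by
    intro t c s
    simp only [K1a_ev, Pi.add_apply, Pi.smul_apply, smul_eq_mul]
    ring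
  have hsum : ∑ t : ZMod d, ∑ c : Fin 4 → ZMod d, K1a_P d x (c + t • e) = 0 := by
    rw [Finset.sum_comm]
    refine Finset.sum_eq_zero (fun c _ => ?_)
    have : ∀ t : ZMod d, K1a_P d x (c + t • e)
        = (∏ i ∈ univ.erase j, quadraticChar (ZMod d) (K1a_ev c (x i)))
          * quadraticChar (ZMod d) (K1a_ev c (x j) + t * K1a_ev e (x j)) := by
      intro t
      unfold K1a_P
      rw [← Finset.prod_erase_mul _ _ (Finset.mem_univ j), hev]
      congr 1
      refine Finset.prod_congr rfl (fun i hi => ?_)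
      rw [hev, he0 i (Finset.ne_of_mem_erase hi), mul_zero, add_zero]
    simp_rw [this]
    rw [← Finset.mul_sum, K1a_sum_shift d hd _ _ heD, mul_zero]
  have h3 : ∑ t : ZMod d, ∑ c : Fin 4 → ZMod d, K1a_P d x c = 0 := by
    rw [← hsum]
    exact Finset.sum_congr rfl (fun t _ => hshift t)
  rw [Finset.sum_const, nsmul_eq_mul] at h3
  have hcard : ((univ : Finset (ZMod d)).card : ℤ) ≠ 0 := by
    rw [Finset.card_univ, ZMod.card]
    exact_mod_cast (by omega : d ≠ 0)
  exact (mul_eq_zero.1 h3).resolve_left hcard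

lemma K1a_exists_single {α : Type*} (x : Fin 4 → α)
    (h : ¬ ((x 0 = x 1 ∧ x 2 = x 3) ∨ (x 0 = x 2 ∧ x 1 = x 3) ∨ (x 0 = x 3 ∧ x 1 = x 2))) :
    ∃ j, ∀ i, i ≠ j → x i ≠ x j := by
  classical
  by_contra hne
  push Not at hne
  obtain ⟨i0, hi0, e0⟩ := hne 0
  obtain ⟨i1, hi1, e1⟩ := hne 1
  obtain ⟨i2, hi2, e2⟩ := hne 2
  obtain ⟨i3, hi3, e3⟩ := hne 3
  apply h
  fin_cases i0 <;> fin_cases i1 <;> fin_cases i2 <;> fin_cases i3 <;> simp_all

lemma K1a_le (d : ℕ) [Fact d.Prime] (x : Fin 4 → ZMod d) :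
    ∑ c : Fin 4 → ZMod d, K1a_P d x c ≤ (d : ℤ) ^ 4 := by
  have h1 : ∀ a : ZMod d, |quadraticChar (ZMod d) a| ≤ 1 := by
    intro a
    by_cases ha : a = 0
    · subst ha; simp
    · rcases quadraticChar_dichotomy ha with h | h <;> simp [h]
  have h2 : ∀ c : Fin 4 → ZMod d, K1a_P d x c ≤ 1 := by
    intro c
    refine (le_abs_self _).trans ?_
    unfold K1a_P
    rw [Finset.abs_prod]
    exact Finset.prod_le_one (fun i _ => abs_nonneg _) (fun i _ => h1 _)
  calc ∑ c : Fin 4 → ZMod d, K1a_P d x c ≤ ∑ c : Fin 4 → ZMod d, (1 : ℤ) :=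
        Finset.sum_le_sum (fun c _ => h2 c)
    _ = (d : ℤ) ^ 4 := by simp [ZMod.card]

lemma K1a_count (d : ℕ) [Fact d.Prime] :
    ((univ : Finset (Fin 4 → ZMod d)).filter (fun x => (x 0 = x 1 ∧ x 2 = x 3) ∨
      (x 0 = x 2 ∧ x 1 = x 3) ∨ (x 0 = x 3 ∧ x 1 = x 2))).card ≤ 3 * d ^ 2 := by
  classical
  have key : ∀ (p : (Fin 4 → ZMod d) → Prop) [DecidablePred p] (i j : Fin 4),
      (∀ x y : Fin 4 → ZMod d, p x → p y → x i = y i → x j = y j → x = y) →
      ((univ : Finset (Fin 4 → ZMod d)).filter p).card ≤ d ^ 2 := by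
    intro p _ i j hp
    have : ((univ : Finset (Fin 4 → ZMod d)).filter p).card ≤ (univ : Finset (ZMod d × ZMod d)).card := by
      refine Finset.card_le_card_of_injOn (fun x => (x i, x j)) (fun _ _ => Finset.mem_univ _) ?_
      intro x hx y hy hxy
      simp only [Finset.coe_filter, Finset.mem_univ, true_and, Set.mem_setOf_eq] at hx hy
      simp only [Prod.mk.injEq] at hxy
      exact hp x y hx hy hxy.1 hxy.2
    refine this.trans ?_
    rw [Finset.card_univ, Fintype.card_prod, ZMod.card, sq]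
  rw [Finset.filter_or, Finset.filter_or]
  refine (Finset.card_union_le _ _).trans ?_
  refine (Nat.add_le_add_left (Finset.card_union_le _ _) _).trans ?_
  have k1 := key (fun x => x 0 = x 1 ∧ x 2 = x 3) 0 2 (by
    rintro x y ⟨h1, h2⟩ ⟨h3, h4⟩ h5 h6
    funext i
    fin_cases i
    · exact h5
    · show x 1 = y 1
      rw [← h1, ← h3, h5]
    · exact h6
    · show x 3 = y 3
      rw [← h2, ← h4, h6])
  have k2 := key (fun x => x 0 = x 2 ∧ x 1 = x 3) 0 1 (by
    rintro x y ⟨h1, h2⟩ ⟨h3, h4⟩ h5 h6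
    funext i
    fin_cases i
    · exact h5
    · exact h6
    · show x 2 = y 2
      rw [← h1, ← h3, h5]
    · show x 3 = y 3
      rw [← h2, ← h4, h6])
  have k3 := key (fun x => x 0 = x 3 ∧ x 1 = x 2) 0 1 (by
    rintro x y ⟨h1, h2⟩ ⟨h3, h4⟩ h5 h6
    funext i
    fin_cases i
    · exact h5
    · exact h6
    · show x 2 = y 2
      rw [← h2, ← h4, h6]
    · show x 3 = y 3
      rw [← h1, ← h3, h5])
  omega

/-- Row K1a (fourth moment over all polynomials of degree `≤ 3`). Four distinct points: evaluation is a bijection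
(Lagrange, Vandermonde) of the coefficients onto `F^4`, and `∑_y χ(y) = 0`; if the four points are not all distinct and not
paired up, some value `χ(f(x))` occurs an odd number of times and the evaluation at the (at most three) distinct points
is onto with equal fibres: again `0`. Paired up (`x1 = x2, x3 = x4` and permutations, at most `3 d^2` tuples): at most
`d^4` each. -/
theorem fourth_moment (d : ℕ) [Fact d.Prime] (hd : 3 < d) :
    ∑ c : Fin 4 → ZMod d, (∑ s : ZMod d, quadraticChar (ZMod d)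
      (c 3 * s ^ 3 + c 2 * s ^ 2 + c 1 * s + c 0)) ^ 4 ≤ 3 * (d : ℤ) ^ 6 := by
  classical
  have h1 : ∀ c : Fin 4 → ZMod d, (∑ s : ZMod d, quadraticChar (ZMod d)
      (c 3 * s ^ 3 + c 2 * s ^ 2 + c 1 * s + c 0)) ^ 4 = ∑ x : Fin 4 → ZMod d, K1a_P d x c := by
    intro c
    rw [Fintype.sum_pow]
    rfl
  simp_rw [h1]
  rw [Finset.sum_comm]
  set Q : (Fin 4 → ZMod d) → Prop := fun x => (x 0 = x 1 ∧ x 2 = x 3) ∨
      (x 0 = x 2 ∧ x 1 = x 3) ∨ (x 0 = x 3 ∧ x 1 = x 2) with hQ
  calc ∑ x : Fin 4 → ZMod d, ∑ c : Fin 4 → ZMod d, K1a_P d x c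
      ≤ ∑ x : Fin 4 → ZMod d, (if Q x then (d : ℤ) ^ 4 else 0) := by
        refine Finset.sum_le_sum (fun x _ => ?_)
        by_cases hx : Q x
        · rw [if_pos hx]; exact K1a_le d x
        · rw [if_neg hx]
          obtain ⟨j, hj⟩ := K1a_exists_single x hx
          exact (K1a_single d hd x j hj).le
    _ = ((univ.filter Q).card : ℤ) * (d : ℤ) ^ 4 := by
        rw [← Finset.sum_filter, Finset.sum_const, nsmul_eq_mul]
    _ ≤ (3 * (d : ℤ) ^ 2) * (d : ℤ) ^ 4 := by
        refine mul_le_mul_of_nonneg_right ?_ (by positivity)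
        exact_mod_cast K1a_count d
    _ = 3 * (d : ℤ) ^ 6 := by ring

end CS68
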