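import Pool.Agent.LibCS68.K1a

set_option autoImplicit false
open Finset

namespace CS68

/-- Coefficients of `c f(a s + b)`, `f = α s^3 + β s^2 + γ s`. -/
def K1b_cf {d : ℕ} (α β γ : ZMod d) (t : ZMod d × ZMod d × ZMod d) : Fin 4 → ZMod d :=
  ![t.2.2 * (α * t.2.1 ^ 3 + β * t.2.1 ^ 2 + γ * t.2.1),
    t.2.2 * (3 * α * t.1 * t.2.1 ^ 2 + 2 * β * t.1 * t.2.1 + γ * t.1),
    t.2.2 * (3 * α * t.1 ^ 2 * t.2.1 + β * t.1 ^ 2),
    t.2.2 * (α * t.1 ^ 3)]

lemma K1b_card_pow (d : ℕ) [Fact d.Prime] (n : ℕ) (hn : 0 < n) (hn3 : n ≤ 3) (u : ZMod d) :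
    ((univ : Finset (ZMod d)).filter (fun a => a ^ n = u)).card ≤ 3 := by
  classical
  have h1 : (univ : Finset (ZMod d)).filter (fun a => a ^ n = u) ⊆ (Polynomial.nthRoots n u).toFinset := by
    intro a ha
    rw [Finset.mem_filter] at ha
    rw [Multiset.mem_toFinset, Polynomial.mem_nthRoots hn]
    exact ha.2
  exact ((Finset.card_le_card h1).trans (Multiset.toFinset_card_le _)).trans
    ((Polynomial.card_nthRoots n u).trans hn3)

lemma K1b_three_ne (d : ℕ) [Fact d.Prime] (hd : 3 < d) : (3 : ZMod d) ≠ 0 := by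
  intro h
  have h' : ((3 : ℕ) : ZMod d) = 0 := by exact_mod_cast h
  rw [ZMod.natCast_eq_zero_iff] at h'
  exact absurd (Nat.le_of_dvd (by norm_num) h') (by omega)

/-- Two triples with the same coefficients. -/
lemma K1b_rel (d : ℕ) [Fact d.Prime] (hd : 3 < d) (α β γ : ZMod d) (hα : α ≠ 0) (hγ : γ ≠ 0) :
    ∃ n : ℕ, 0 < n ∧ n ≤ 3 ∧ ∀ t t' : ZMod d × ZMod d × ZMod d, t.1 ≠ 0 → t.2.2 ≠ 0 → t'.1 ≠ 0 → t'.2.2 ≠ 0 →
      K1b_cf α β γ t = K1b_cf α β γ t' → t.1 ^ n = t'.1 ^ n ∧ (t.1 = t'.1 → t = t') := by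
  have h3 := K1b_three_ne d hd
  have inj : ∀ t t' : ZMod d × ZMod d × ZMod d, t.1 ≠ 0 → t.2.2 ≠ 0 → t'.1 ≠ 0 → t'.2.2 ≠ 0 →
      K1b_cf α β γ t = K1b_cf α β γ t' → (t.1 = t'.1 → t = t') := by
    rintro ⟨a, b, c⟩ ⟨a', b', c'⟩ ha hc ha' hc' h haa
    have e3 := congrFun h 3
    have e2 := congrFun h 2
    simp only [K1b_cf, Matrix.cons_val] at e3 e2
    simp only at ha hc ha' hc' haa
    subst haa
    have hcc : c = c' := by
      have hne : α * a ^ 3 ≠ 0 := mul_ne_zero hα (pow_ne_zero 3 ha)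
      exact mul_right_cancel₀ hne e3
    subst hcc
    have hb : 3 * α * a ^ 2 * b + β * a ^ 2 = 3 * α * a ^ 2 * b' + β * a ^ 2 := mul_left_cancel₀ hc e2
    have hb2 : (3 * α * a ^ 2) * b = (3 * α * a ^ 2) * b' := add_right_cancel hb
    have hne : 3 * α * a ^ 2 ≠ 0 := mul_ne_zero (mul_ne_zero h3 hα) (pow_ne_zero 2 ha)
    have := mul_left_cancel₀ hne hb2
    subst this
    rfl
  by_cases hβ : β ^ 2 - 3 * α * γ = 0
  · refine ⟨3, by norm_num, le_rfl, ?_⟩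
    intro t t' ha hc ha' hc' h
    refine ⟨?_, inj t t' ha hc ha' hc' h⟩
    obtain ⟨a, b, c⟩ := t
    obtain ⟨a', b', c'⟩ := t'
    have e3 := congrFun h 3
    have e2 := congrFun h 2
    have e1 := congrFun h 1
    have e0 := congrFun h 0
    simp only [K1b_cf, Matrix.cons_val] at e3 e2 e1 e0
    simp only at ha hc ha' hc' ⊢
    have hβ0 : β ≠ 0 := by
      rintro rfl
      have : 3 * α * γ = 0 := by linear_combination -hβ
      exact (mul_ne_zero (mul_ne_zero h3 hα) hγ) this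
    -- the cubic invariant
    have inv : ∀ a b c : ZMod d, 2 * (c * (3 * α * a ^ 2 * b + β * a ^ 2)) ^ 3
        - 9 * (c * (α * a ^ 3)) * (c * (3 * α * a ^ 2 * b + β * a ^ 2)) *
          (c * (3 * α * a * b ^ 2 + 2 * β * a * b + γ * a))
        + 27 * (c * (α * a ^ 3)) ^ 2 * (c * (α * b ^ 3 + β * b ^ 2 + γ * b))
        = - (c ^ 3 * a ^ 6 * β ^ 3) := by
      intro a b c
      linear_combination (3 * β * c ^ 3 * a ^ 6) * hβ
    have hi := inv a b c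
    have hi' := inv a' b' c'
    rw [e3, e2, e1, e0, hi'] at hi
    have hca : c ^ 3 * a ^ 6 = c' ^ 3 * a' ^ 6 := by
      have : c ^ 3 * a ^ 6 * β ^ 3 = c' ^ 3 * a' ^ 6 * β ^ 3 := by linear_combination hi
      exact mul_right_cancel₀ (pow_ne_zero 3 hβ0) this
    have hca3 : c * a ^ 3 = c' * a' ^ 3 := by
      have : (c * a ^ 3) * α = (c' * a' ^ 3) * α := by linear_combination e3
      exact mul_right_cancel₀ hα this
    have h9 : (c ^ 3 * a ^ 6) * a ^ 3 = (c ^ 3 * a ^ 6) * a' ^ 3 := by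
      have h9a : (c * a ^ 3) ^ 3 = (c' * a' ^ 3) ^ 3 := by rw [hca3]
      calc (c ^ 3 * a ^ 6) * a ^ 3 = (c * a ^ 3) ^ 3 := by ring
        _ = (c' * a' ^ 3) ^ 3 := h9a
        _ = (c' ^ 3 * a' ^ 6) * a' ^ 3 := by ring
        _ = (c ^ 3 * a ^ 6) * a' ^ 3 := by rw [hca]
    exact mul_left_cancel₀ (mul_ne_zero (pow_ne_zero 3 hc) (pow_ne_zero 6 ha)) h9
  · refine ⟨2, by norm_num, by norm_num, ?_⟩
    intro t t' ha hc ha' hc' h
    refine ⟨?_, inj t t' ha hc ha' hc' h⟩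
    obtain ⟨a, b, c⟩ := t
    obtain ⟨a', b', c'⟩ := t'
    have e3 := congrFun h 3
    have e2 := congrFun h 2
    have e1 := congrFun h 1
    simp only [K1b_cf, Matrix.cons_val] at e3 e2 e1
    simp only at ha hc ha' hc' ⊢
    have inv : ∀ a b c : ZMod d, (c * (3 * α * a ^ 2 * b + β * a ^ 2)) ^ 2
        - 3 * (c * (α * a ^ 3)) * (c * (3 * α * a * b ^ 2 + 2 * β * a * b + γ * a))
        = c ^ 2 * a ^ 4 * (β ^ 2 - 3 * α * γ) := by
      intro a b c; ring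
    have hi := inv a b c
    have hi' := inv a' b' c'
    rw [e3, e2, e1, hi'] at hi
    have hca : c ^ 2 * a ^ 4 = c' ^ 2 * a' ^ 4 := (mul_right_cancel₀ hβ hi).symm
    have hca3 : c * a ^ 3 = c' * a' ^ 3 := by
      have : (c * a ^ 3) * α = (c' * a' ^ 3) * α := by linear_combination e3
      exact mul_right_cancel₀ hα this
    have h9 : (c ^ 2 * a ^ 4) * a ^ 2 = (c ^ 2 * a ^ 4) * a' ^ 2 := by
      have h9a : (c * a ^ 3) ^ 2 = (c' * a' ^ 3) ^ 2 := by rw [hca3]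
      calc (c ^ 2 * a ^ 4) * a ^ 2 = (c * a ^ 3) ^ 2 := by ring
        _ = (c' * a' ^ 3) ^ 2 := h9a
        _ = (c' ^ 2 * a' ^ 4) * a' ^ 2 := by ring
        _ = (c ^ 2 * a ^ 4) * a' ^ 2 := by rw [hca]
    exact mul_left_cancel₀ (mul_ne_zero (pow_ne_zero 2 hc) (pow_ne_zero 4 ha)) h9

/-- The triples `(a, b, c)`, `a ≠ 0`, `c ≠ 0`. -/
def K1b_T (d : ℕ) [Fact d.Prime] : Finset (ZMod d × ZMod d × ZMod d) :=
  (univ.erase 0) ×ˢ (univ ×ˢ (univ.erase 0))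

lemma K1b_fiber (d : ℕ) [Fact d.Prime] (hd : 3 < d) (α β γ : ZMod d) (hα : α ≠ 0) (hγ : γ ≠ 0)
    (v : Fin 4 → ZMod d) : ((K1b_T d).filter (fun t => K1b_cf α β γ t = v)).card ≤ 3 := by
  classical
  obtain ⟨n, hn, hn3, hrel⟩ := K1b_rel d hd α β γ hα hγ
  rcases ((K1b_T d).filter (fun t => K1b_cf α β γ t = v)).eq_empty_or_nonempty with h | ⟨t0, ht0⟩
  · rw [h]; simp
  · have mem : ∀ t ∈ (K1b_T d).filter (fun t => K1b_cf α β γ t = v),
        t.1 ≠ 0 ∧ t.2.2 ≠ 0 ∧ K1b_cf α β γ t = v := by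
      intro t ht
      rw [Finset.mem_filter, K1b_T, Finset.mem_product, Finset.mem_product] at ht
      exact ⟨Finset.ne_of_mem_erase ht.1.1, Finset.ne_of_mem_erase ht.1.2.2, ht.2⟩
    refine le_trans ?_ (K1b_card_pow d n hn hn3 (t0.1 ^ n))
    refine Finset.card_le_card_of_injOn (fun t => t.1) ?_ ?_
    · intro t ht
      obtain ⟨h1, h2, h3⟩ := mem t ht
      obtain ⟨h1', h2', h3'⟩ := mem t0 ht0
      have := (hrel t t0 h1 h2 h1' h2' (h3.trans h3'.symm)).1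
      simpa using this
    · intro t ht t' ht' htt
      obtain ⟨h1, h2, h3⟩ := mem t ht
      obtain ⟨h1', h2', h3'⟩ := mem t' ht'
      exact (hrel t t' h1 h2 h1' h2' (h3.trans h3'.symm)).2 htt

lemma K1b_same (d : ℕ) [Fact d.Prime] (α β γ : ZMod d)
    (t : ZMod d × ZMod d × ZMod d) (h1 : t.1 ≠ 0) (h2 : t.2.2 ≠ 0) :
    (∑ s : ZMod d, quadraticChar (ZMod d)
      (K1b_cf α β γ t 3 * s ^ 3 + K1b_cf α β γ t 2 * s ^ 2 + K1b_cf α β γ t 1 * s + K1b_cf α β γ t 0)) ^ 4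
    = (∑ s : ZMod d, quadraticChar (ZMod d) (s * (α * s ^ 2 + β * s + γ))) ^ 4 := by
  obtain ⟨a, b, c⟩ := t
  simp only at h1 h2
  have e : ∀ s : ZMod d, quadraticChar (ZMod d)
      (K1b_cf α β γ (a, b, c) 3 * s ^ 3 + K1b_cf α β γ (a, b, c) 2 * s ^ 2 + K1b_cf α β γ (a, b, c) 1 * s
        + K1b_cf α β γ (a, b, c) 0)
      = quadraticChar (ZMod d) c * quadraticChar (ZMod d)
        ((a * s + b) * (α * (a * s + b) ^ 2 + β * (a * s + b) + γ)) := by
    intro s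
    rw [← map_mul]
    congr 1
    simp only [K1b_cf, Matrix.cons_val]
    ring
  simp_rw [e]
  rw [← Finset.mul_sum, mul_pow]
  have hc4 : (quadraticChar (ZMod d) c) ^ 4 = 1 := by
    rcases quadraticChar_dichotomy h2 with h | h <;> simp [h]
  rw [hc4, one_mul]
  congr 1
  refine Fintype.sum_bijective (fun s : ZMod d => a * s + b) ?_ _ _ (fun s => rfl)
  refine (Finite.injective_iff_bijective).1 ?_
  intro x y hxy
  simp only at hxy
  exact mul_left_cancel₀ h1 (add_right_cancel hxy)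

/-- Row K1b (classical elementary bound `|S| ≤ 3 d^(3/4)`). The polynomials `c f(a s + b)`, `a, c ≠ 0`, all have the same
`|S|`, and there are at least `d (d-1)^2/6` of them: given the coefficients `(A3, A2, A1, A0)` of `c f(as+b)`,
`f = α s^3 + β s^2 + γ s`: `A3 = c α a^3`, `A2 = c a^2 (3αb + β)`,
`A2^2 - 3 A3 A1 = c^2 a^4 (β^2 - 3αγ)`, `2 A2^3 - 9 A3 A2 A1 + 27 A3^2 A0 = c^3 a^6 (2β^3 - 9αβγ)`;
if `β^2 ≠ 3αγ` the quotient with `A3^2` determines `a^2` (at most 2 values of `a`), otherwise (`β ≠ 0`,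
`2β^3 - 9αβγ = -β^3`) the quotient with `A3^3` determines `a^3` (at most 3 values); then `c` and `b` are determined.
`(β^2 ≠ 4αγ` is not even needed for this; keep it.) So `S^4 ≤ 3 d^6 · 6/(d (d-1)^2) ≤ 81 d^3`. -/
theorem cubic_sum (d : ℕ) [Fact d.Prime] (hd : 3 < d) (α β γ : ZMod d) (hα : α ≠ 0) (hγ : γ ≠ 0)
    (hΔ : β ^ 2 - 4 * α * γ ≠ 0) :
    (∑ s : ZMod d, quadraticChar (ZMod d) (s * (α * s ^ 2 + β * s + γ))) ^ 4 ≤ 81 * (d : ℤ) ^ 3 := by
  classical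
  set S : ℤ := (∑ s : ZMod d, quadraticChar (ZMod d) (s * (α * s ^ 2 + β * s + γ))) ^ 4 with hS
  set g : (Fin 4 → ZMod d) → ℤ := fun c => (∑ s : ZMod d, quadraticChar (ZMod d)
      (c 3 * s ^ 3 + c 2 * s ^ 2 + c 1 * s + c 0)) ^ 4 with hg
  have hg0 : ∀ c, 0 ≤ g c := fun c => by
    simp only [hg]; positivity
  have hsum : ∑ t ∈ K1b_T d, g (K1b_cf α β γ t) ≤ 3 * ∑ c, g c := by
    rw [← Finset.sum_fiberwise (K1b_T d) (fun t => K1b_cf α β γ t), Finset.mul_sum]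
    refine Finset.sum_le_sum (fun v _ => ?_)
    calc ∑ t ∈ (K1b_T d).filter (fun t => K1b_cf α β γ t = v), g (K1b_cf α β γ t)
        = ∑ t ∈ (K1b_T d).filter (fun t => K1b_cf α β γ t = v), g v :=
          Finset.sum_congr rfl (fun t ht => by rw [(Finset.mem_filter.1 ht).2])
      _ = (((K1b_T d).filter (fun t => K1b_cf α β γ t = v)).card : ℤ) * g v := by
          rw [Finset.sum_const, nsmul_eq_mul]
      _ ≤ 3 * g v := by
          refine mul_le_mul_of_nonneg_right ?_ (hg0 v)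
          exact_mod_cast K1b_fiber d hd α β γ hα hγ v
  have hleft : ∑ t ∈ K1b_T d, g (K1b_cf α β γ t) = ((K1b_T d).card : ℤ) * S := by
    rw [← nsmul_eq_mul, ← Finset.sum_const]
    refine Finset.sum_congr rfl (fun t ht => ?_)
    rw [K1b_T, Finset.mem_product, Finset.mem_product] at ht
    exact K1b_same d α β γ t (Finset.ne_of_mem_erase ht.1) (Finset.ne_of_mem_erase ht.2.2)
  have hcard : ((K1b_T d).card : ℤ) = (d - 1) * (d * (d - 1)) := by
    rw [K1b_T, Finset.card_product, Finset.card_product, Finset.card_erase_of_mem (Finset.mem_univ _),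
      Finset.card_univ, ZMod.card]
    push_cast [Nat.cast_sub (show 1 ≤ d by omega)]
    ring
  have hfm := fourth_moment d hd
  have hfm' : ∑ c, g c ≤ 3 * (d : ℤ) ^ 6 := hfm
  rw [hleft, hcard] at hsum
  have h9 : (d - 1 : ℤ) * (d * (d - 1)) * S ≤ 9 * (d : ℤ) ^ 6 := by linarith
  have hdZ : (4 : ℤ) ≤ d := by exact_mod_cast hd
  -- divide by `d (d-1)^2`
  have hpos : (0 : ℤ) < (d - 1) * (d * (d - 1)) := by
    have : (0 : ℤ) < d - 1 := by linarith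
    have h2 : (0 : ℤ) < d := by linarith
    positivity
  have hcmp : 9 * (d : ℤ) ^ 6 ≤ (d - 1 : ℤ) * (d * (d - 1)) * (81 * (d : ℤ) ^ 3) := by
    have h1 : (d : ℤ) ≤ 3 * (d - 1) := by linarith
    have h2 : (d : ℤ) ^ 2 ≤ 9 * (d - 1) ^ 2 := by nlinarith
    have h3 : (0 : ℤ) ≤ (d : ℤ) ^ 4 := by positivity
    nlinarith [mul_le_mul_of_nonneg_left h2 h3]
  exact le_of_mul_le_mul_left (h9.trans hcmp) hpos

end CS68
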