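import Pool.Agent.LibCS68.K1
import Pool.Agent.LibCS68.K2a

set_option autoImplicit false
open Finset

namespace CS68

section K2bHelpers

variable {d : ℕ} [hd : Fact d.Prime]

lemma K2b_expand (α l n : ZMod d) :
    ∑ u : ZMod d, Kloo.K d (α * u ^ 2) * Kloo.K d (α * (l * u) ^ 2) * ZMod.stdAddChar (n * u) =
      ∑ s : (ZMod d)ˣ, ∑ x : (ZMod d)ˣ,
        ZMod.stdAddChar ((((x⁻¹ : (ZMod d)ˣ)) : ZMod d) * (1 + (((s⁻¹ : (ZMod d)ˣ)) : ZMod d))) *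
          ∑ u : ZMod d, (ZMod.stdAddChar ((α * (x : ZMod d) * (1 + l ^ 2 * (s : ZMod d))) * u ^ 2 + n * u) : ℂ) := by
  have e1 : ∀ u : ZMod d, Kloo.K d (α * u ^ 2) * Kloo.K d (α * (l * u) ^ 2) * ZMod.stdAddChar (n * u) =
      ∑ x : (ZMod d)ˣ, ∑ s : (ZMod d)ˣ,
        ZMod.stdAddChar ((((x⁻¹ : (ZMod d)ˣ)) : ZMod d) * (1 + (((s⁻¹ : (ZMod d)ˣ)) : ZMod d))) *
          (ZMod.stdAddChar ((α * (x : ZMod d) * (1 + l ^ 2 * (s : ZMod d))) * u ^ 2 + n * u) : ℂ) := by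
    intro u
    unfold Kloo.K
    rw [sum_mul_sum, sum_mul]
    refine sum_congr rfl fun x _ => ?_
    rw [sum_mul]
    rw [← Fintype.sum_equiv (Equiv.mulRight x) (fun s : (ZMod d)ˣ =>
      ZMod.stdAddChar (α * u ^ 2 * (x : ZMod d) + ((x⁻¹ : (ZMod d)ˣ) : ZMod d)) *
        ZMod.stdAddChar (α * (l * u) ^ 2 * ((s * x : (ZMod d)ˣ) : ZMod d) +
          (((s * x)⁻¹ : (ZMod d)ˣ) : ZMod d)) * ZMod.stdAddChar (n * u)) _ (fun s => rfl)]
    refine sum_congr rfl fun s _ => ?_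
    rw [← AddChar.map_add_eq_mul, ← AddChar.map_add_eq_mul, ← AddChar.map_add_eq_mul]
    congr 1
    rw [mul_inv_rev, Units.val_mul, Units.val_mul]
    ring
  rw [sum_congr rfl fun u _ => e1 u, sum_comm]
  rw [sum_comm]
  conv_rhs => rw [sum_comm]
  rw [sum_comm]
  refine sum_congr rfl fun x _ => ?_
  rw [sum_comm]
  refine sum_congr rfl fun s _ => ?_
  rw [mul_sum]

lemma K2b_units_inv (f : ZMod d → ℂ) :
    ∑ x : (ZMod d)ˣ, f (((x⁻¹ : (ZMod d)ˣ)) : ZMod d) = ∑ x : (ZMod d)ˣ, f (x : ZMod d) :=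
  Fintype.sum_equiv (Equiv.inv _) _ _ fun u => rfl

/-- the degenerate terms -/
lemma K2b_deg (α l n : ZMod d) (hl2 : l ^ 2 ≠ 1) (s : (ZMod d)ˣ) (hs : 1 + l ^ 2 * (s : ZMod d) = 0) :
    ‖∑ x : (ZMod d)ˣ,
        ZMod.stdAddChar ((((x⁻¹ : (ZMod d)ˣ)) : ZMod d) * (1 + (((s⁻¹ : (ZMod d)ˣ)) : ZMod d))) *
          ∑ u : ZMod d, (ZMod.stdAddChar ((α * (x : ZMod d) * (1 + l ^ 2 * (s : ZMod d))) * u ^ 2 + n * u) : ℂ)‖
      ≤ d := by
  have hs' : 1 + (((s⁻¹ : (ZMod d)ˣ)) : ZMod d) ≠ 0 := by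
    intro h
    apply hl2
    have h1 : (s : ZMod d) * (((s⁻¹ : (ZMod d)ˣ)) : ZMod d) = 1 := by
      rw [← Units.val_mul, mul_inv_cancel, Units.val_one]
    have h2 : (((s⁻¹ : (ZMod d)ˣ)) : ZMod d) = -1 := by linear_combination h
    rw [h2] at h1
    have h3 : (s : ZMod d) = -1 := by linear_combination -h1
    rw [h3] at hs
    linear_combination -hs
  have e1 : ∀ x : (ZMod d)ˣ, ∑ u : ZMod d,
      (ZMod.stdAddChar ((α * (x : ZMod d) * (1 + l ^ 2 * (s : ZMod d))) * u ^ 2 + n * u) : ℂ) =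
      ∑ u : ZMod d, (ZMod.stdAddChar (n * u) : ℂ) := by
    intro x
    rw [hs]
    refine sum_congr rfl fun u _ => ?_
    congr 1; ring
  rw [sum_congr rfl fun x _ => by rw [e1 x], ← sum_mul]
  have e2 : ∑ x : (ZMod d)ˣ,
      (ZMod.stdAddChar ((((x⁻¹ : (ZMod d)ˣ)) : ZMod d) * (1 + (((s⁻¹ : (ZMod d)ˣ)) : ZMod d))) : ℂ) = -1 := by
    rw [K2b_units_inv (fun z => (ZMod.stdAddChar (z * (1 + (((s⁻¹ : (ZMod d)ˣ)) : ZMod d))) : ℂ))]
    have h1 := Kloo.sum_units_eq (d := d)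
      (fun z => (ZMod.stdAddChar (z * (1 + (((s⁻¹ : (ZMod d)ˣ)) : ZMod d))) : ℂ))
    have h2 := Kloo.sum_psi_zero (1 + (((s⁻¹ : (ZMod d)ˣ)) : ZMod d)) hs'
    have h3 : ∑ z : ZMod d, (ZMod.stdAddChar (z * (1 + (((s⁻¹ : (ZMod d)ˣ)) : ZMod d))) : ℂ) = 0 := by
      rw [← h2]
      exact sum_congr rfl fun z _ => by rw [mul_comm]
    rw [h3] at h1
    simp only [zero_mul, AddChar.map_zero_eq_one] at h1
    linear_combination -h1
  rw [e2, neg_one_mul, norm_neg]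
  calc ‖∑ u : ZMod d, (ZMod.stdAddChar (n * u) : ℂ)‖ ≤ ∑ u : ZMod d, ‖(ZMod.stdAddChar (n * u) : ℂ)‖ :=
        norm_sum_le _ _
    _ = ∑ u : ZMod d, (1 : ℝ) := by
        refine sum_congr rfl fun u _ => ?_
        rw [ZMod.stdAddChar_apply]; exact Circle.norm_coe _
    _ = d := by simp [ZMod.card]

/-- the main terms -/
lemma K2b_main (h2 : d ≠ 2) (α l n : ZMod d) (hα : α ≠ 0) (s : (ZMod d)ˣ)
    (hs : 1 + l ^ 2 * (s : ZMod d) ≠ 0) :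
    ∑ x : (ZMod d)ˣ,
        ZMod.stdAddChar ((((x⁻¹ : (ZMod d)ˣ)) : ZMod d) * (1 + (((s⁻¹ : (ZMod d)ˣ)) : ZMod d))) *
          ∑ u : ZMod d, (ZMod.stdAddChar ((α * (x : ZMod d) * (1 + l ^ 2 * (s : ZMod d))) * u ^ 2 + n * u) : ℂ)
      = Kloo.gs d ^ 2 * Kloo.chi d ((s : ZMod d) * (4 * α * l ^ 2 * (s : ZMod d) ^ 2 +
          (4 * α * (1 + l ^ 2) - n ^ 2) * (s : ZMod d) + 4 * α)) := by
  have h20 : (2 : ZMod d) ≠ 0 := by
    intro h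
    have h' : ((2 : ℕ) : ZMod d) = 0 := by exact_mod_cast h
    rw [ZMod.natCast_eq_zero_iff] at h'
    have := Nat.le_of_dvd (by norm_num) h'
    have := hd.out.two_le
    omega
  have h4 : (4 : ZMod d) ≠ 0 := by
    have : (4 : ZMod d) = 2 * 2 := by norm_num
    rw [this]; exact mul_ne_zero h20 h20
  have hs0 : (s : ZMod d) ≠ 0 := s.ne_zero
  set w : ZMod d := 1 + l ^ 2 * (s : ZMod d) with hw
  set κ : ZMod d := 1 + (((s⁻¹ : (ZMod d)ˣ)) : ZMod d) - n ^ 2 * (4 * (α * w))⁻¹ with hκ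
  have e2 : ∀ x : (ZMod d)ˣ,
      ZMod.stdAddChar ((((x⁻¹ : (ZMod d)ˣ)) : ZMod d) * (1 + (((s⁻¹ : (ZMod d)ˣ)) : ZMod d))) *
        ∑ u : ZMod d, (ZMod.stdAddChar ((α * (x : ZMod d) * w) * u ^ 2 + n * u) : ℂ) =
      (Kloo.chi d (α * w) * Kloo.gs d) * (Kloo.chi d (((x⁻¹ : (ZMod d)ˣ)) : ZMod d) *
          ZMod.stdAddChar (κ * (((x⁻¹ : (ZMod d)ˣ)) : ZMod d))) := by
    intro x
    rw [sum_psi_quad h2 (α * (x : ZMod d) * w) n (mul_ne_zero (mul_ne_zero hα x.ne_zero) hs)]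
    have e3 : Kloo.chi d (α * (x : ZMod d) * w) =
        Kloo.chi d (α * w) * Kloo.chi d (((x⁻¹ : (ZMod d)ˣ)) : ZMod d) := by
      rw [show α * (x : ZMod d) * w = (α * w) * (x : ZMod d) by ring, map_mul]
      congr 1
      have e4 := Kloo.chi_mul_self (x : ZMod d) x.ne_zero
      have e5 : Kloo.chi d (x : ZMod d) * Kloo.chi d (((x⁻¹ : (ZMod d)ˣ)) : ZMod d) = 1 := by
        rw [← map_mul, Units.mul_inv, map_one]
      have e6 : Kloo.chi d (x : ZMod d) ≠ 0 := by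
        intro h; rw [h, zero_mul] at e4; exact zero_ne_one e4
      exact mul_left_cancel₀ e6 (e4.trans e5.symm)
    rw [e3]
    have e4 : (ZMod.stdAddChar (κ * (((x⁻¹ : (ZMod d)ˣ)) : ZMod d)) : ℂ) =
        ZMod.stdAddChar ((((x⁻¹ : (ZMod d)ˣ)) : ZMod d) * (1 + (((s⁻¹ : (ZMod d)ˣ)) : ZMod d))) *
          ZMod.stdAddChar (-(n ^ 2 * (4 * (α * (x : ZMod d) * w))⁻¹)) := by
      rw [← AddChar.map_add_eq_mul]
      congr 1
      rw [hκ, Units.val_inv_eq_inv_val x, mul_inv, mul_inv, mul_inv, mul_inv, mul_inv]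
      ring
    rw [e4]
    ring
  rw [sum_congr rfl fun x _ => e2 x, ← mul_sum]
  have e5 : ∑ x : (ZMod d)ˣ, (Kloo.chi d (((x⁻¹ : (ZMod d)ˣ)) : ZMod d) *
      ZMod.stdAddChar (κ * (((x⁻¹ : (ZMod d)ˣ)) : ZMod d))) = Kloo.chi d κ * Kloo.gs d := by
    rw [K2b_units_inv (fun z => Kloo.chi d z * (ZMod.stdAddChar (κ * z) : ℂ))]
    have h1 := Kloo.sum_units_eq (d := d) (fun z => Kloo.chi d z * (ZMod.stdAddChar (κ * z) : ℂ))
    rw [MulChar.map_zero, zero_mul, zero_add] at h1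
    rw [← h1]
    by_cases hκ0 : κ = 0
    · rw [hκ0]
      simp only [zero_mul, AddChar.map_zero_eq_one, mul_one, MulChar.map_zero]
      have h3 : ringChar (ZMod d) ≠ 2 := by rw [ZMod.ringChar_zmod_n]; exact h2
      have h4 := quadraticChar_sum_zero (F := ZMod d) h3
      simp only [Kloo.chi_apply]
      exact_mod_cast congrArg (fun z : ℤ => (z : ℂ)) h4
    · exact Kloo.sum_chi_psi κ hκ0
  rw [e5]
  have e6 : (s : ZMod d) * (4 * α * l ^ 2 * (s : ZMod d) ^ 2 +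
          (4 * α * (1 + l ^ 2) - n ^ 2) * (s : ZMod d) + 4 * α) = (α * w) * κ * ((2 * s) * (2 * s)) := by
    rw [hκ, Units.val_inv_eq_inv_val s]
    have hw0 : w ≠ 0 := hs
    field_simp
    rw [hw]
    ring
  have e7 : Kloo.chi d ((α * w) * κ * ((2 * s) * (2 * s))) = Kloo.chi d (α * w) * Kloo.chi d κ := by
    rw [map_mul (Kloo.chi d) ((α * w) * κ), map_mul (Kloo.chi d) (α * w) κ,
      map_mul (Kloo.chi d) (2 * (s : ZMod d)), Kloo.chi_mul_self _ (mul_ne_zero h20 hs0), mul_one]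
  rw [e6, e7]
  ring

lemma K2b_chi_norm (x : ZMod d) : ‖Kloo.chi d x‖ ≤ 1 := by
  rw [Kloo.chi_apply]
  by_cases hx : x = 0
  · subst hx; simp
  · rcases quadraticChar_dichotomy (F := ZMod d) hx with h | h <;> simp [h]

lemma K2b_gs_norm (h2 : d ≠ 2) : ‖Kloo.gs d ^ 2‖ ≤ d := by
  rw [gs_sq h2, norm_mul]
  have h1 := K2b_chi_norm (d := d) (-1)
  have h3 : ‖(d : ℂ)‖ = d := by simp
  rw [h3]
  calc ‖Kloo.chi d (-1)‖ * (d : ℝ) ≤ 1 * d := by gcongr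
    _ = d := one_mul _

/-- the cubic character sum, including the degenerate case -/
lemma K2b_T (hd3 : 3 < d) (α β γ : ZMod d) (hα : α ≠ 0) (hγ : γ ≠ 0) :
    ‖∑ s : ZMod d, Kloo.chi d (s * (α * s ^ 2 + β * s + γ))‖ ≤ 3 * (d : ℝ) ^ (3 / 4 : ℝ) + 1 := by
  have h2 : d ≠ 2 := by omega
  have h20 : (2 : ZMod d) ≠ 0 := by
    intro h
    have h' : ((2 : ℕ) : ZMod d) = 0 := by exact_mod_cast h
    rw [ZMod.natCast_eq_zero_iff] at h'
    have := Nat.le_of_dvd (by norm_num) h'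
    omega
  have h4 : (4 : ZMod d) ≠ 0 := by
    have : (4 : ZMod d) = 2 * 2 := by norm_num
    rw [this]; exact mul_ne_zero h20 h20
  have hT : ∑ s : ZMod d, Kloo.chi d (s * (α * s ^ 2 + β * s + γ)) =
      ((∑ s : ZMod d, quadraticChar (ZMod d) (s * (α * s ^ 2 + β * s + γ)) : ℤ) : ℂ) := by
    push_cast
    exact sum_congr rfl fun s _ => Kloo.chi_apply _
  rw [hT, Complex.norm_intCast]
  have hdpos : (0 : ℝ) ≤ d := by positivity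
  by_cases hΔ : β ^ 2 - 4 * α * γ = 0
  · -- degenerate
    have hr : ringChar (ZMod d) ≠ 2 := by rw [ZMod.ringChar_zmod_n]; exact h2
    set s1 : ZMod d := -β * (2 * α)⁻¹ with hs1
    have e1 : ∀ s : ZMod d, quadraticChar (ZMod d) (s * (α * s ^ 2 + β * s + γ)) =
        quadraticChar (ZMod d) α * (quadraticChar (ZMod d) s - if s = s1 then quadraticChar (ZMod d) s1 else 0) := by
      intro s
      have e2 : s * (α * s ^ 2 + β * s + γ) = α * s * (s - s1) ^ 2 := by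
        have e3 : γ = β ^ 2 * (4 * α)⁻¹ := by
          field_simp
          linear_combination -hΔ
        rw [e3, hs1]
        field_simp
        ring
      rw [e2, map_mul, map_mul]
      by_cases hss : s = s1
      · rw [if_pos hss, hss]; simp
      · rw [if_neg hss, sub_zero, quadraticChar_sq_one' (sub_ne_zero.2 hss), mul_one]
    rw [sum_congr rfl fun s _ => e1 s, ← mul_sum, sum_sub_distrib, quadraticChar_sum_zero hr]
    rw [sum_ite_eq' univ s1 (fun _ => quadraticChar (ZMod d) s1), if_pos (mem_univ _), zero_sub]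
    have hb : ∀ x : ZMod d, |((quadraticChar (ZMod d) x : ℤ) : ℝ)| ≤ 1 := by
      intro x
      by_cases hx : x = 0
      · subst hx; simp
      · rcases quadraticChar_dichotomy (F := ZMod d) hx with h | h <;> simp [h]
    push_cast
    rw [abs_mul, abs_neg]
    have h5 := hb α
    have h6 := hb s1
    have h7 : |((quadraticChar (ZMod d) α : ℤ) : ℝ)| * |((quadraticChar (ZMod d) s1 : ℤ) : ℝ)| ≤ 1 * 1 :=
      mul_le_mul h5 h6 (abs_nonneg _) (by norm_num)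
    have h8 : 0 ≤ 3 * (d : ℝ) ^ (3 / 4 : ℝ) := by positivity
    linarith
  · have h5 := cubic_sum d hd3 α β γ hα hγ hΔ
    set T := ∑ s : ZMod d, quadraticChar (ZMod d) (s * (α * s ^ 2 + β * s + γ)) with hTdef
    have h6 : ((T : ℤ) : ℝ) ^ 4 ≤ 81 * (d : ℝ) ^ 3 := by exact_mod_cast h5
    have h7 : (3 * (d : ℝ) ^ (3 / 4 : ℝ)) ^ 4 = 81 * (d : ℝ) ^ 3 := by
      rw [mul_pow, ← Real.rpow_natCast ((d : ℝ) ^ (3 / 4 : ℝ)) 4, ← Real.rpow_mul hdpos]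
      rw [show (3 / 4 : ℝ) * ((4 : ℕ) : ℝ) = ((3 : ℕ) : ℝ) by norm_num, Real.rpow_natCast]
      norm_num
    have h8 : |((T : ℤ) : ℝ)| ^ 4 ≤ (3 * (d : ℝ) ^ (3 / 4 : ℝ)) ^ 4 := by
      rw [h7]
      have : |((T : ℤ) : ℝ)| ^ 4 = ((T : ℤ) : ℝ) ^ 4 := by
        rw [← abs_pow, abs_of_nonneg (by positivity)]
      rw [this]; exact h6
    have h9 := le_of_pow_le_pow_left₀ (by norm_num) (by positivity) h8
    linarith

end K2bHelpers

/-- Row K2b. `∑_{u mod d} S(α u^2) S(α λ^2 u^2) ψ(nu) = ∑_{x,y units} ψ(x⁻¹ + y⁻¹) ∑_u ψ(α u^2 (x + λ^2 y) + n u)`.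
Terms `x = -λ^2 y`: inner sum `d` if `n = 0`, else `0`; `∑_y ψ(y⁻¹ (1 - λ⁻²)) = -1`: contribution at most `d` in absolute value.
The others: `y = s x`; inner sum `χ(α x (1 + λ^2 s)) g ψ(-n^2/(4 α x (1 + λ^2 s)))` (`sum_psi_quad`); the sum over `x` is
`∑_x χ(x) ψ(x⁻¹ κ) = χ(κ) g` with `κ = (1+s)/s - n^2/(4α(1 + λ^2 s))` (also for `κ = 0`), and
`χ(α (1 + λ^2 s) κ) = χ(s (4α(1+s)(1+λ^2 s) - n^2 s))` for `s ≠ 0, 1 + λ^2 s ≠ 0`. So the sum is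
`g^2 (∑_s χ(s (4αλ^2 s^2 + (4α(1+λ^2) - n^2) s + 4α)) - one term) + O(d)`, `|g^2| = d`. `cubic_sum` if
`(4α(1+λ^2) - n^2)^2 ≠ 64 α^2 λ^2`; otherwise the quadratic is `4αλ^2 (s - s0)^2` and the sum is `O(1)`
(`|∑_s χ(s) 1[s ≠ s0]| ≤ 1`). Total at most `d (3 d^(3/4) + 1 + 1 + 1)`. -/
theorem corr_K (d : ℕ) [Fact d.Prime] (hd : 3 < d) (α l n : ZMod d) (hα : α ≠ 0) (hl : l ≠ 0)
    (hl2 : l ^ 2 ≠ 1) :
    ‖∑ u : ZMod d, Kloo.K d (α * u ^ 2) * Kloo.K d (α * (l * u) ^ 2) * ZMod.stdAddChar (n * u)‖ ≤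
      (d : ℝ) * (3 * (d : ℝ) ^ (3 / 4 : ℝ) + 3) := by
  have h2 : d ≠ 2 := by omega
  have h20 : (2 : ZMod d) ≠ 0 := by
    intro h
    have h' : ((2 : ℕ) : ZMod d) = 0 := by exact_mod_cast h
    rw [ZMod.natCast_eq_zero_iff] at h'
    have := Nat.le_of_dvd (by norm_num) h'
    omega
  have h4 : (4 : ZMod d) ≠ 0 := by
    have : (4 : ZMod d) = 2 * 2 := by norm_num
    rw [this]; exact mul_ne_zero h20 h20
  rw [K2b_expand]
  set Φ : ZMod d → ZMod d := fun s => s * (4 * α * l ^ 2 * s ^ 2 + (4 * α * (1 + l ^ 2) - n ^ 2) * s + 4 * α)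
    with hΦ
  set G : (ZMod d)ˣ → ℂ := fun s => ∑ x : (ZMod d)ˣ,
        ZMod.stdAddChar ((((x⁻¹ : (ZMod d)ˣ)) : ZMod d) * (1 + (((s⁻¹ : (ZMod d)ˣ)) : ZMod d))) *
          ∑ u : ZMod d, (ZMod.stdAddChar ((α * (x : ZMod d) * (1 + l ^ 2 * (s : ZMod d))) * u ^ 2 + n * u) : ℂ)
    with hG
  change ‖∑ s : (ZMod d)ˣ, G s‖ ≤ _
  have hl2' : -(l ^ 2)⁻¹ ≠ 0 := neg_ne_zero.2 (inv_ne_zero (pow_ne_zero 2 hl))
  set s0 : (ZMod d)ˣ := Units.mk0 (-(l ^ 2)⁻¹) hl2' with hs0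
  have hs0' : 1 + l ^ 2 * (s0 : ZMod d) = 0 := by
    rw [hs0, Units.val_mk0]
    have : l ^ 2 ≠ 0 := pow_ne_zero 2 hl
    field_simp
    ring
  have e1 : ∀ s : (ZMod d)ˣ, G s = Kloo.gs d ^ 2 * Kloo.chi d (Φ (s : ZMod d)) +
      if s = s0 then (G s0 - Kloo.gs d ^ 2 * Kloo.chi d (Φ (s0 : ZMod d))) else 0 := by
    intro s
    by_cases hs : s = s0
    · rw [if_pos hs, hs]; ring
    · rw [if_neg hs, add_zero]
      apply K2b_main h2 α l n hα s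
      intro h
      apply hs
      apply Units.ext
      have h5 : l ^ 2 * (s : ZMod d) = l ^ 2 * (s0 : ZMod d) := by linear_combination h - hs0'
      exact mul_left_cancel₀ (pow_ne_zero 2 hl) h5
  rw [sum_congr rfl fun s _ => e1 s, sum_add_distrib, ← mul_sum,
    sum_ite_eq' univ s0 (fun _ => G s0 - Kloo.gs d ^ 2 * Kloo.chi d (Φ (s0 : ZMod d))), if_pos (mem_univ _)]
  have e2 : ∑ s : (ZMod d)ˣ, Kloo.chi d (Φ (s : ZMod d)) = ∑ s : ZMod d, Kloo.chi d (Φ s) := by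
    rw [Kloo.sum_units_eq (d := d) (fun s => Kloo.chi d (Φ s))]
    have : Φ 0 = 0 := by rw [hΦ]; ring
    rw [this, MulChar.map_zero, zero_add]
  rw [e2]
  have hT : ‖∑ s : ZMod d, Kloo.chi d (Φ s)‖ ≤ 3 * (d : ℝ) ^ (3 / 4 : ℝ) + 1 := by
    exact K2b_T hd (4 * α * l ^ 2) (4 * α * (1 + l ^ 2) - n ^ 2) (4 * α)
      (mul_ne_zero (mul_ne_zero h4 hα) (pow_ne_zero 2 hl)) (mul_ne_zero h4 hα)
  have hg := K2b_gs_norm (d := d) h2
  have hG0 : ‖G s0‖ ≤ d := K2b_deg α l n hl2 s0 hs0'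
  have hd0 : (0 : ℝ) ≤ d := by positivity
  have hT' : ‖Kloo.gs d ^ 2 * ∑ s : ZMod d, Kloo.chi d (Φ s)‖ ≤ d * (3 * (d : ℝ) ^ (3 / 4 : ℝ) + 1) := by
    rw [norm_mul]
    exact mul_le_mul hg hT (norm_nonneg _) hd0
  have hC : ‖Kloo.gs d ^ 2 * Kloo.chi d (Φ (s0 : ZMod d))‖ ≤ d * 1 := by
    rw [norm_mul]
    exact mul_le_mul hg (K2b_chi_norm _) (norm_nonneg _) hd0
  calc ‖Kloo.gs d ^ 2 * ∑ s : ZMod d, Kloo.chi d (Φ s) +
        (G s0 - Kloo.gs d ^ 2 * Kloo.chi d (Φ (s0 : ZMod d)))‖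
      ≤ ‖Kloo.gs d ^ 2 * ∑ s : ZMod d, Kloo.chi d (Φ s)‖ +
        (‖G s0‖ + ‖Kloo.gs d ^ 2 * Kloo.chi d (Φ (s0 : ZMod d))‖) :=
        (norm_add_le _ _).trans (add_le_add_right (norm_sub_le _ _) _)
    _ ≤ d * (3 * (d : ℝ) ^ (3 / 4 : ℝ) + 1) + (d + d * 1) := by gcongr
    _ = _ := by ring

end CS68
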