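import Pool.Agent.LibCS68.DV

set_option autoImplicit false
open Finset

namespace CS68

open Classical in
/-- Row K7b (combinatorics). Count the pairs `(g, a)`, `g ∈ Gd`, `a ∈ AA d`, `s (g a) = v`: at least `#Gd d/40`; each
`m = g a ≤ G d ≤ M` has at most `#(AA d) ≤ d/2` representations. -/
theorem many_m (s : ℤ → ℝ) (d G M : ℕ) (hd : 0 < d) (hM : G * d ≤ M) (Gd : Finset ℕ) (hG : Gd ⊆ Icc 1 G)
    (v : ℝ) (hv : ∀ g ∈ Gd, (d : ℝ) / 40 ≤ #((AA d).filter (fun a : ℕ => s ((g : ℤ) * a) = v))) :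
    (#Gd : ℝ) / 20 ≤ #((Icc 1 M).filter (fun m : ℕ => s m = v)) := by
  set Pr := (Gd ×ˢ AA d).filter (fun z : ℕ × ℕ => s ((z.1 : ℤ) * z.2) = v) with hPr
  set T := (Icc 1 M).filter (fun m : ℕ => s m = v) with hT
  have hdR : (0 : ℝ) < d := by exact_mod_cast hd
  have hAA : ∀ a ∈ AA d, 1 ≤ a ∧ a ≤ (d - 1) / 2 := fun a ha => Finset.mem_Icc.1 ha
  have hAAc : 2 * #(AA d) ≤ d := by
    unfold AA
    rw [Nat.card_Icc]
    omega
  have h1 : (#Pr : ℝ) = ∑ g ∈ Gd, (#((AA d).filter (fun a : ℕ => s ((g : ℤ) * a) = v)) : ℝ) := by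
    have h2 : #Pr = ∑ g ∈ Gd, #((AA d).filter (fun a : ℕ => s ((g : ℤ) * a) = v)) := by
      rw [hPr, Finset.card_filter, Finset.sum_product]
      refine Finset.sum_congr rfl fun g _ => ?_
      rw [Finset.card_filter]
    rw [h2]
    push_cast
    rfl
  have h2 : (#Gd : ℝ) * (d / 40) ≤ #Pr := by
    rw [h1, ← nsmul_eq_mul, ← Finset.sum_const]
    exact Finset.sum_le_sum hv
  have h3 : #Pr ≤ #(AA d) * #T := by
    refine Finset.card_le_mul_card_image_of_maps_to (f := fun z : ℕ × ℕ => z.1 * z.2) ?_ _ ?_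
    · intro z hz
      rw [hPr, Finset.mem_filter, Finset.mem_product] at hz
      obtain ⟨⟨hz1, hz2⟩, hz3⟩ := hz
      have k1 := Finset.mem_Icc.1 (hG hz1)
      have k2 := hAA _ hz2
      rw [hT, Finset.mem_filter, Finset.mem_Icc]
      refine ⟨⟨Nat.mul_pos k1.1 k2.1, ?_⟩, ?_⟩
      · refine le_trans (Nat.mul_le_mul k1.2 (k2.2.trans ?_)) hM
        omega
      · push_cast
        exact hz3
    · intro m hm
      rw [hT, Finset.mem_filter, Finset.mem_Icc] at hm
      refine Finset.card_le_card_of_injOn (fun z : ℕ × ℕ => z.2) ?_ ?_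
      · intro z hz
        rw [Finset.mem_coe, Finset.mem_filter, hPr, Finset.mem_filter, Finset.mem_product] at hz
        exact hz.1.1.2
      · intro z hz z' hz' e
        rw [Finset.mem_coe, Finset.mem_filter, hPr, Finset.mem_filter, Finset.mem_product] at hz hz'
        have e' : z.2 = z'.2 := e
        have k2 := hAA _ hz.1.1.2
        refine Prod.ext ?_ e'
        have k3 : z.1 * z.2 = z'.1 * z.2 := by
          rw [hz.2, e', hz'.2]
        exact Nat.eq_of_mul_eq_mul_right k2.1 k3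
  have h3' : (#Pr : ℝ) ≤ #(AA d) * #T := by exact_mod_cast h3
  have h4 : 2 * (#(AA d) : ℝ) ≤ d := by exact_mod_cast hAAc
  have h5 : (#(AA d) : ℝ) * #T ≤ d / 2 * #T :=
    mul_le_mul_of_nonneg_right (by linarith) (Nat.cast_nonneg _)
  have h6 : (d : ℝ) * (#Gd / 20) ≤ d * #T := by linarith
  exact le_of_mul_le_mul_left h6 hdR

end CS68
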