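import Pool.Agent.LibCS68.Defs
import Pool.Agent.LibKloosterman.Basic

set_option autoImplicit false
open Finset

namespace CS68

lemma S1_kl (a : ℤ) (c : ℕ) [NeZero c] : kl a 1 c = Kloo.K c (a : ZMod c) := by
  unfold kl Kloo.K
  symm
  refine sum_bij (fun (u : (ZMod c)ˣ) _ => (u : ZMod c).val) ?_ ?_ ?_ ?_
  · intro u _
    rw [mem_filter, mem_range]
    exact ⟨ZMod.val_lt _, ZMod.val_coe_unit_coprime u⟩
  · intro u _ v _ h
    exact Units.ext (ZMod.val_injective c h)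
  · intro x hx
    rw [mem_filter, mem_range] at hx
    refine ⟨ZMod.unitOfCoprime x hx.2, mem_univ _, ?_⟩
    rw [ZMod.coe_unitOfCoprime, ZMod.val_natCast, Nat.mod_eq_of_lt hx.1]
  · intro u _
    rw [ZMod.natCast_zmod_val, ZMod.inv_coe_unit, Int.cast_one, one_mul]
    rw [ZMod.stdAddChar_apply, ZMod.toCircle_apply]

lemma S1_congr (m m' n : ℤ) (c : ℕ) (h : (m : ZMod c) = (m' : ZMod c)) :
    kl m n c = kl m' n c := by
  unfold kl
  rw [h]

lemma S1_real (c : ℕ) [NeZero c] (hc : Squarefree c) (b r : ℤ) :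
    ∃ s : ℝ, s ≠ 0 ∧ kl (b * r ^ 2) 1 c = s := by
  obtain ⟨s, hs⟩ := Complex.conj_eq_iff_real.1 (Kloo.K_conj c ((b * r ^ 2 : ℤ) : ZMod c))
  refine ⟨s, ?_, by rw [S1_kl, hs]⟩
  rintro rfl
  exact Kloo.K_ne_zero c hc _ (by rw [hs]; simp)

lemma S1_sg {c : ℕ} {b r : ℤ} {s : ℝ} (h : kl (b * r ^ 2) 1 c = s) :
    sg c b r = if 0 < s then 1 else -1 := by
  unfold sg
  rw [h, Complex.ofReal_re]

/-- Row S1 (signs). `kl a 1 c = Kloo.F a c 1 = Kloo.K c a` (copy `kloosterman_eq` in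
`Pool/Agent/Results/MP_6ea630_nt/TwoPrimes.lean`), `Kloo.K_conj` (real), `Kloo.K_ne_zero` (squarefree modulus),
`Kloo.K_mul` (twisted multiplicativity). -/
theorem sg_or (c : ℕ) (b r : ℤ) : sg c b r = 1 ∨ sg c b r = -1 := by
  unfold sg
  split_ifs
  · exact Or.inl rfl
  · exact Or.inr rfl

theorem sg_congr (c : ℕ) (b r r' : ℤ) (h : (r : ZMod c) = (r' : ZMod c)) : sg c b r = sg c b r' := by
  unfold sg
  rw [S1_congr (b * r ^ 2) (b * r' ^ 2) 1 c (by push_cast; rw [h])]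

/-- depends on `b` only modulo `c` -/
theorem sg_congr' (c : ℕ) (b b' r : ℤ) (h : (b : ZMod c) = (b' : ZMod c)) : sg c b r = sg c b' r := by
  unfold sg
  rw [S1_congr (b * r ^ 2) (b' * r ^ 2) 1 c (by push_cast; rw [h])]

theorem sg_neg (c : ℕ) (b r : ℤ) : sg c b (-r) = sg c b r := by
  unfold sg
  rw [neg_sq]

/-- positive value of the Kloosterman sum -/
theorem sg_pos_iff (c : ℕ) (hc : Squarefree c) (b r : ℤ) :
    sg c b r = 1 ↔ ∃ s : ℝ, 0 < s ∧ kl (b * r ^ 2) 1 c = s := by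
  have : NeZero c := ⟨hc.ne_zero⟩
  obtain ⟨s, hs0, hs⟩ := S1_real c hc b r
  rw [S1_sg hs]
  constructor
  · intro h
    refine ⟨s, ?_, hs⟩
    by_contra h1
    rw [if_neg h1] at h
    norm_num at h
  · rintro ⟨s', hs', h⟩
    have h1 : s = s' := by
      rw [hs] at h
      exact_mod_cast h
    rw [h1, if_pos hs']

/-- negative value of the Kloosterman sum -/
theorem sg_neg_iff (c : ℕ) (hc : Squarefree c) (b r : ℤ) :
    sg c b r = -1 ↔ ∃ s : ℝ, s < 0 ∧ kl (b * r ^ 2) 1 c = s := by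
  have : NeZero c := ⟨hc.ne_zero⟩
  obtain ⟨s, hs0, hs⟩ := S1_real c hc b r
  rw [S1_sg hs]
  constructor
  · intro h
    refine ⟨s, ?_, hs⟩
    by_contra h1
    rw [if_pos (lt_of_le_of_ne (not_lt.1 h1) (Ne.symm hs0))] at h
    norm_num at h
  · rintro ⟨s', hs', h⟩
    have h1 : s = s' := by
      rw [hs] at h
      exact_mod_cast h
    rw [h1, if_neg (not_lt.2 hs'.le)]

/-- twisted multiplicativity: `φ(j/c + x/c') = φ(j/c) φ(x/c')` -/
theorem sg_mul (b : ℤ) (c c' : ℕ) (h : c.Coprime c') (hc : Squarefree c) (hc' : Squarefree c')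
    (r j x : ℤ) (h1 : (r : ZMod c) = (j : ZMod c) * (c' : ZMod c))
    (h2 : (r : ZMod c') = (x : ZMod c') * (c : ZMod c')) :
    sg (c * c') b r = sg c b j * sg c' b x := by
  have i1 : NeZero c := ⟨hc.ne_zero⟩
  have i2 : NeZero c' := ⟨hc'.ne_zero⟩
  have i3 : NeZero (c * c') := ⟨mul_ne_zero hc.ne_zero hc'.ne_zero⟩
  obtain ⟨s, hs0, hs⟩ := S1_real c hc b j
  obtain ⟨t, ht0, ht⟩ := S1_real c' hc' b x
  have hmul : kl (b * r ^ 2) 1 (c * c') = ((s * t : ℝ) : ℂ) := by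
    rw [Complex.ofReal_mul, ← hs, ← ht, S1_kl, S1_kl, S1_kl, Kloo.K_mul h]
    have e1 : ((c' : ZMod c)) * (c' : ZMod c)⁻¹ = 1 := Kloo.cop_mul_inv h.symm
    have e2 : ((c : ZMod c')) * (c : ZMod c')⁻¹ = 1 := Kloo.cop_mul_inv h
    congr 2
    · rw [map_intCast]
      push_cast
      rw [h1]
      linear_combination ((b : ZMod c) * (j : ZMod c) ^ 2 *
        ((c' : ZMod c) * (c' : ZMod c)⁻¹ + 1)) * e1
    · rw [map_intCast]
      push_cast
      rw [h2]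
      linear_combination ((b : ZMod c') * (x : ZMod c') ^ 2 *
        ((c : ZMod c') * (c : ZMod c')⁻¹ + 1)) * e2
  rw [S1_sg hmul, S1_sg hs, S1_sg ht]
  rcases lt_or_gt_of_ne hs0 with hs1 | hs1 <;> rcases lt_or_gt_of_ne ht0 with ht1 | ht1
  · rw [if_pos (mul_pos_of_neg_of_neg hs1 ht1), if_neg (not_lt.2 hs1.le),
      if_neg (not_lt.2 ht1.le)]
    norm_num
  · rw [if_neg (not_lt.2 (mul_neg_of_neg_of_pos hs1 ht1).le), if_neg (not_lt.2 hs1.le),
      if_pos ht1]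
    norm_num
  · rw [if_neg (not_lt.2 (mul_neg_of_pos_of_neg hs1 ht1).le), if_pos hs1,
      if_neg (not_lt.2 ht1.le)]
    norm_num
  · rw [if_pos (mul_pos hs1 ht1), if_pos hs1, if_pos ht1]
    norm_num

end CS68
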