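import Pool.Agent.LibCS68.S1
import Pool.Agent.LibCS68.A1
import Pool.Agent.LibKloosterman.Negative

set_option autoImplicit false
open Finset

namespace CS68

private lemma S2a_kl (a : ℤ) (c : ℕ) [NeZero c] : kl a 1 c = Kloo.K c (a : ZMod c) := by
  unfold kl Kloo.K
  symm
  refine sum_bij (fun (u : (ZMod c)ˣ) _ => (u : ZMod c).val) ?_ ?_ ?_ ?_
  · intro u _
    rw [mem_filter, mem_range]
    exact ⟨ZMod.val_lt _, ZMod.val_coe_unit_coprime u⟩
  · intro u _ v _ h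
    exact Units.ext (ZMod.val_injective c h)
  · intro x hx
    rw [mem_filter, mem_range] at hx
    refine ⟨ZMod.unitOfCoprime x hx.2, mem_univ _, ?_⟩
    rw [ZMod.coe_unitOfCoprime, ZMod.val_natCast, Nat.mod_eq_of_lt hx.1]
  · intro u _
    rw [ZMod.natCast_zmod_val, ZMod.inv_coe_unit, Int.cast_one, one_mul]
    rw [ZMod.stdAddChar_apply, ZMod.toCircle_apply]

section

open Kloo

variable {d : ℕ} [hd : Fact d.Prime]

/-- the formula `Kloo.T_eq` without the hypothesis on `1 - k ^ 2 / (4 α)` -/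
private lemma S2a_T (h3 : d % 4 = 3) (α k : ZMod d) (hα : α ≠ 0) :
    ∑ u : (ZMod d)ˣ, K d (α * (u : ZMod d) ^ 2) * ZMod.stdAddChar (k * (u : ZMod d)) =
      1 - chi d α * chi d (1 - k ^ 2 * (4 * α)⁻¹) * d := by
  by_cases hm : 1 - k ^ 2 * (4 * α)⁻¹ ≠ 0
  · exact T_eq h3 α k hα hm
  push Not at hm
  have h0 : K d (α * (0 : ZMod d) ^ 2) * ZMod.stdAddChar (k * (0 : ZMod d)) = -1 := by
    unfold K
    simp only [ne_eq, OfNat.ofNat_ne_zero, not_false_eq_true, zero_pow, mul_zero, zero_mul,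
      zero_add, AddChar.map_zero_eq_one, mul_one]
    have h1 := sum_units_eq (d := d) (fun x => (ZMod.stdAddChar (1 * x) : ℂ))
    rw [sum_psi_zero 1 one_ne_zero] at h1
    simp only [mul_zero, AddChar.map_zero_eq_one, one_mul] at h1
    have h2 : ∑ u : (ZMod d)ˣ, (ZMod.stdAddChar (((u⁻¹ : (ZMod d)ˣ)) : ZMod d) : ℂ) =
        ∑ u : (ZMod d)ˣ, (ZMod.stdAddChar (u : ZMod d) : ℂ) :=
      Fintype.sum_equiv (Equiv.inv _) _ _ fun u => rfl
    rw [h2]
    linear_combination -h1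
  have h1 := sum_units_eq (d := d)
    (fun u => K d (α * u ^ 2) * ZMod.stdAddChar (k * u))
  rw [h0] at h1
  have h2 : ∑ u : ZMod d, K d (α * u ^ 2) * ZMod.stdAddChar (k * u) = 0 := by
    have e1 : ∑ u : ZMod d, K d (α * u ^ 2) * ZMod.stdAddChar (k * u) =
        ∑ x : (ZMod d)ˣ, ZMod.stdAddChar (((x⁻¹ : (ZMod d)ˣ)) : ZMod d) *
          ∑ u : ZMod d, (ZMod.stdAddChar (α * (x : ZMod d) * u ^ 2 + k * u) : ℂ) := by
      unfold K
      simp_rw [sum_mul, mul_sum]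
      rw [sum_comm]
      refine sum_congr rfl fun x _ => sum_congr rfl fun u _ => ?_
      rw [← AddChar.map_add_eq_mul, ← AddChar.map_add_eq_mul]
      congr 1; ring
    rw [e1]
    have e2 : ∀ x : (ZMod d)ˣ, ZMod.stdAddChar (((x⁻¹ : (ZMod d)ˣ)) : ZMod d) *
          ∑ u : ZMod d, (ZMod.stdAddChar (α * (x : ZMod d) * u ^ 2 + k * u) : ℂ) =
        (chi d α * gs d) * chi d (((x⁻¹ : (ZMod d)ˣ)) : ZMod d) := by
      intro x
      rw [sum_psi_quad h3 (α * (x : ZMod d)) k (mul_ne_zero hα x.ne_zero)]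
      have e3 : chi d (α * (x : ZMod d)) = chi d α * chi d (((x⁻¹ : (ZMod d)ˣ)) : ZMod d) := by
        rw [map_mul]
        congr 1
        have e4 := chi_mul_self (x : ZMod d) x.ne_zero
        have e5 : chi d (x : ZMod d) * chi d (((x⁻¹ : (ZMod d)ˣ)) : ZMod d) = 1 := by
          rw [← map_mul, Units.mul_inv, map_one]
        have e6 : chi d (x : ZMod d) ≠ 0 := by
          intro h; rw [h, zero_mul] at e4; exact zero_ne_one e4
        exact mul_left_cancel₀ e6 (e4.trans e5.symm)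
      rw [e3]
      have e4 : (1 : ℂ) = ZMod.stdAddChar (((x⁻¹ : (ZMod d)ˣ)) : ZMod d) *
            ZMod.stdAddChar (-(k ^ 2 * (4 * (α * (x : ZMod d)))⁻¹)) := by
        rw [← AddChar.map_add_eq_mul]
        have e5 : (((x⁻¹ : (ZMod d)ˣ)) : ZMod d) + -(k ^ 2 * (4 * (α * (x : ZMod d)))⁻¹) = 0 := by
          have e6 : (((x⁻¹ : (ZMod d)ˣ)) : ZMod d) + -(k ^ 2 * (4 * (α * (x : ZMod d)))⁻¹) =
              (1 - k ^ 2 * (4 * α)⁻¹) * (((x⁻¹ : (ZMod d)ˣ)) : ZMod d) := by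
            rw [Units.val_inv_eq_inv_val, mul_inv, mul_inv, mul_inv]
            ring
          rw [e6, hm, zero_mul]
        rw [e5, AddChar.map_zero_eq_one]
      linear_combination (-(chi d α * gs d * chi d (((x⁻¹ : (ZMod d)ˣ)) : ZMod d))) * e4
    rw [sum_congr rfl fun x _ => e2 x, ← mul_sum]
    have e5 : ∑ x : (ZMod d)ˣ, chi d (((x⁻¹ : (ZMod d)ˣ)) : ZMod d) = 0 := by
      have e6 := MulChar.sum_eq_zero_of_ne_one (chi_ne_one h3)
      rw [sum_units_eq, MulChar.map_zero, zero_add] at e6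
      rw [← e6]
      exact Fintype.sum_equiv (Equiv.inv _) _ _ fun u => rfl
    rw [e5, mul_zero]
  rw [h2] at h1
  rw [hm, MulChar.map_zero]
  linear_combination -h1

private lemma S2a_chi (h3 : d % 4 = 3) (a k : ZMod d) (ha : a ≠ 0) :
    chi d a * chi d (1 - k ^ 2 * (4 * a)⁻¹) = - chi d (k ^ 2 - 4 * a) := by
  have h2 : (2 : ZMod d) ≠ 0 := by
    intro h
    have : ((2 : ℕ) : ZMod d) = 0 := by exact_mod_cast h
    rw [ZMod.natCast_eq_zero_iff] at this
    have := Nat.le_of_dvd (by norm_num) this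
    have := hd.out.two_le
    omega
  have h4 : (4 : ZMod d) ≠ 0 := by
    have : (4 : ZMod d) = 2 * 2 := by norm_num
    rw [this]; exact mul_ne_zero h2 h2
  have e1 : k ^ 2 - 4 * a = (-1) * ((2 * 2) * (a * (1 - k ^ 2 * (4 * a)⁻¹))) := by
    field_simp
    ring
  rw [e1, map_mul, map_mul, map_mul, map_mul, chi_neg_one h3, chi_mul_self 2 h2]
  ring

end

/-- Row S2a (Gauss sums; see `T_eq` in `Pool/Agent/LibKloosterman/Negative.lean`, which treats `d % 4 = 3`). The value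
is `1 + d χ(n^2 - 4b)` (`χ` quadratic). -/
theorem sum_kl (d : ℕ) [Fact d.Prime] (h3 : d % 4 = 3) (b : ℤ) (hb : ¬ (d : ℤ) ∣ b) (n : ℤ) :
    ∑ j ∈ U d, kl (b * (j : ℤ) ^ 2) 1 d * e ((n : ℝ) * ((j : ℝ) / d)) =
      1 + d * (quadraticChar (ZMod d) ((n : ZMod d) ^ 2 - 4 * b) : ℂ) := by
  classical
  have hd : d.Prime := Fact.out
  have hα : ((b : ℤ) : ZMod d) ≠ 0 := by
    intro h
    exact hb ((ZMod.intCast_zmod_eq_zero_iff_dvd b d).1 h)
  have h1 : ∑ j ∈ U d, kl (b * (j : ℤ) ^ 2) 1 d * e ((n : ℝ) * ((j : ℝ) / d)) =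
      ∑ u : (ZMod d)ˣ, Kloo.K d ((b : ZMod d) * (u : ZMod d) ^ 2) *
        ZMod.stdAddChar ((n : ZMod d) * (u : ZMod d)) := by
    symm
    unfold U
    refine sum_bij (fun (u : (ZMod d)ˣ) _ => (u : ZMod d).val) ?_ ?_ ?_ ?_
    · intro u _
      rw [mem_filter, mem_range]
      exact ⟨ZMod.val_lt _, ZMod.val_coe_unit_coprime u⟩
    · intro u _ v _ h
      exact Units.ext (ZMod.val_injective d h)
    · intro x hx
      rw [mem_filter, mem_range] at hx
      refine ⟨ZMod.unitOfCoprime x hx.2, mem_univ _, ?_⟩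
      rw [ZMod.coe_unitOfCoprime, ZMod.val_natCast, Nat.mod_eq_of_lt hx.1]
    · intro u _
      rw [S2a_kl]
      have e1 : ((b * (((u : ZMod d).val : ℕ) : ℤ) ^ 2 : ℤ) : ZMod d) =
          (b : ZMod d) * (u : ZMod d) ^ 2 := by
        push_cast
        rw [ZMod.natCast_zmod_val]
      rw [e1]
      congr 1
      have e2 : (n : ZMod d) * (u : ZMod d) =
          ((n * (((u : ZMod d).val : ℕ) : ℤ) : ℤ) : ZMod d) := by
        push_cast
        rw [ZMod.natCast_zmod_val]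
      rw [e2, ZMod.stdAddChar_coe]
      unfold e
      congr 1
      push_cast
      ring
  rw [h1, S2a_T h3 _ _ hα, S2a_chi h3 _ _ hα, Kloo.chi_apply]
  ring

end CS68
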