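import Pool.Agent.LibCS68.S2a

set_option autoImplicit false
open Finset

namespace CS68

theorem S2b_two (d : ℕ) [Fact d.Prime] (h3 : d % 4 = 3) (h7 : 3 < d) :
    (2 : ZMod d) ≠ 0 ∧ (15 : ZMod d) ≠ 0 := by
  have hp : d.Prime := Fact.out
  constructor
  · intro h
    have h1 : ((2 : ℕ) : ZMod d) = 0 := by exact_mod_cast h
    rw [ZMod.natCast_eq_zero_iff] at h1
    have := Nat.le_of_dvd (by norm_num) h1
    omega
  · intro h
    have h1 : ((3 * 5 : ℕ) : ZMod d) = 0 := by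
      have h2 : ((3 * 5 : ℕ) : ZMod d) = (15 : ZMod d) := by
        push_cast
        norm_num
      rw [h2, h]
    rw [ZMod.natCast_eq_zero_iff] at h1
    rcases (Nat.Prime.dvd_mul hp).1 h1 with h2 | h2
    · have := Nat.le_of_dvd (by norm_num) h2
      omega
    · have h4 := (Nat.prime_dvd_prime_iff_eq hp Nat.prime_five).1 h2
      omega

theorem S2b_exists (d : ℕ) [Fact d.Prime] (h3 : d % 4 = 3) (h7 : 3 < d) (β : ZMod d) :
    ∃ n m : ZMod d, n ≠ 0 ∧ m ≠ 0 ∧ n ^ 2 - 4 * β = m ^ 2 := by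
  obtain ⟨h2, h15⟩ := S2b_two d h3 h7
  obtain ⟨t, ht0, ht⟩ : ∃ t : ZMod d, t ≠ 0 ∧ 16 * β ^ 2 - t ^ 4 ≠ 0 := by
    by_cases h : 16 * β ^ 2 - (1 : ZMod d) ^ 4 = 0
    · refine ⟨2, h2, fun h4 => h15 ?_⟩
      linear_combination h - h4
    · exact ⟨1, one_ne_zero, h⟩
  have h5 : (4 * β + t ^ 2) * (4 * β - t ^ 2) ≠ 0 := by
    intro h
    apply ht
    linear_combination h
  have h6 := left_ne_zero_of_mul h5
  have h7' := right_ne_zero_of_mul h5
  refine ⟨(4 * β + t ^ 2) / (2 * t), (4 * β - t ^ 2) / (2 * t),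
    div_ne_zero h6 (mul_ne_zero h2 ht0), div_ne_zero h7' (mul_ne_zero h2 ht0), ?_⟩
  field_simp
  ring

theorem S2b_re_lt (t : ℝ) (ht : ∀ n : ℤ, t ≠ n) : (e t).re < 1 := by
  have hn := norm_e t
  by_contra hcon
  push Not at hcon
  have h3 : (e t).re ≤ 1 := by
    have := Complex.re_le_norm (e t)
    rwa [hn] at this
  have h4 : (e t).re = 1 := le_antisymm h3 hcon
  have h5 : (e t).im = 0 := by
    have h2 := Complex.sq_norm (e t)
    rw [hn, Complex.normSq_apply, h4] at h2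
    nlinarith
  have h6 : e t = 1 := Complex.ext (by rw [h4]; simp) (by rw [h5]; simp)
  unfold e at h6
  obtain ⟨n, hn'⟩ := Complex.exp_eq_one_iff.1 h6
  apply ht n
  have hpi : (2 * Real.pi * Complex.I : ℂ) ≠ 0 := Complex.two_pi_I_ne_zero
  have h7 : ((t : ℝ) : ℂ) = ((n : ℝ) : ℂ) := by
    apply mul_left_cancel₀ hpi
    rw [hn']
    push_cast
    ring
  exact_mod_cast h7

theorem S2b_re_le (t : ℝ) : (e t).re ≤ 1 := by
  have := Complex.re_le_norm (e t)
  rwa [norm_e t] at this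

/-- Row S2b. The sign is not constant on `U d`. If all signs are equal then `|∑_j kl e(nj/d)| < |∑_j kl|` for every
`n ≠ 0` mod `d` (strict triangle inequality). All positive: `∑ kl = 1 + d χ(-4b) > 0`, so `χ(-4b) = 1`, and there is
`n ≠ 0` with `χ(n^2 - 4b) = 1` (`d ≥ 7`; contradiction); all negative: `χ(-4b) = -1` and there is `n ≠ 0` with
`χ(n^2 - 4b) = -1`. Existence of `n`: `∑_n χ(n^2 - 4b) = -1` (or: `n^2 - 4b = 4b t`, ...); counting shows at least
`(d - 3)/2 ≥ 2` values `n` of each sign. -/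
theorem sg_not_const (d : ℕ) [Fact d.Prime] (h3 : d % 4 = 3) (h7 : 3 < d) (b : ℤ) (hb : ¬ (d : ℤ) ∣ b) :
    ∃ j₁ ∈ U d, ∃ j₂ ∈ U d, sg d b j₁ = 1 ∧ sg d b j₂ = -1 := by
  have hp : d.Prime := Fact.out
  have hsq : Squarefree d := hp.prime.squarefree
  set s : ℕ → ℝ := fun j => (kl (b * (j : ℤ) ^ 2) 1 d).re with hs
  have hreal : ∀ j : ℕ, kl (b * (j : ℤ) ^ 2) 1 d = ((s j : ℝ) : ℂ) := by
    intro j
    rcases sg_or d b j with h | h
    · obtain ⟨r, -, hr⟩ := (sg_pos_iff d hsq b j).1 h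
      rw [hs]
      simp only
      rw [hr, Complex.ofReal_re]
    · obtain ⟨r, -, hr⟩ := (sg_neg_iff d hsq b j).1 h
      rw [hs]
      simp only
      rw [hr, Complex.ofReal_re]
  have hpos : ∀ j : ℕ, sg d b j = 1 → 0 < s j := by
    intro j h
    obtain ⟨r, hr0, hr⟩ := (sg_pos_iff d hsq b j).1 h
    rw [hs]
    simp only
    rw [hr, Complex.ofReal_re]
    exact hr0
  have hneg : ∀ j : ℕ, sg d b j = -1 → s j < 0 := by
    intro j h
    obtain ⟨r, hr0, hr⟩ := (sg_neg_iff d hsq b j).1 h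
    rw [hs]
    simp only
    rw [hr, Complex.ofReal_re]
    exact hr0
  have hsum : ∀ n : ℤ, ∑ j ∈ U d, s j * (e ((n : ℝ) * ((j : ℝ) / d))).re =
      1 + d * (quadraticChar (ZMod d) ((n : ZMod d) ^ 2 - 4 * b) : ℝ) := by
    intro n
    have h := congrArg Complex.re (sum_kl d h3 b hb n)
    rw [Complex.re_sum] at h
    have h1 : ((1 : ℂ) + d * (quadraticChar (ZMod d) ((n : ZMod d) ^ 2 - 4 * b) : ℂ)).re =
        1 + d * (quadraticChar (ZMod d) ((n : ZMod d) ^ 2 - 4 * b) : ℝ) := by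
      have h2 : ((1 : ℂ) + d * (quadraticChar (ZMod d) ((n : ZMod d) ^ 2 - 4 * b) : ℂ)) =
          ((1 + d * (quadraticChar (ZMod d) ((n : ZMod d) ^ 2 - 4 * b) : ℝ) : ℝ) : ℂ) := by
        push_cast
        rfl
      rw [h2, Complex.ofReal_re]
    rw [h1] at h
    rw [← h]
    refine Finset.sum_congr rfl fun j _ => ?_
    rw [hreal j, Complex.re_ofReal_mul]
  have hsum0 : ∑ j ∈ U d, s j =
      1 + d * (quadraticChar (ZMod d) (-(4 * (b : ZMod d))) : ℝ) := by
    have h := hsum 0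
    have h1 : ((0 : ℤ) : ZMod d) ^ 2 - 4 * (b : ZMod d) = -(4 * (b : ZMod d)) := by
      rw [Int.cast_zero]
      ring
    rw [h1] at h
    rw [← h]
    refine Finset.sum_congr rfl fun j _ => ?_
    have h2 : e (((0 : ℤ) : ℝ) * ((j : ℝ) / d)) = 1 := by
      unfold e
      simp
    rw [h2, Complex.one_re, mul_one]
  obtain ⟨n₀, m, hn0, hm0, hnm⟩ := S2b_exists d h3 h7 (b : ZMod d)
  have hn : (((n₀.val : ℕ) : ℤ) : ZMod d) = n₀ := by
    rw [Int.cast_natCast, ZMod.natCast_zmod_val]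
  have hsumn : ∑ j ∈ U d, s j * (e ((((n₀.val : ℕ) : ℤ) : ℝ) * ((j : ℝ) / d))).re = 1 + d := by
    rw [hsum, hn, hnm, quadraticChar_sq_one' hm0]
    simp
  have hd0 : (3 : ℝ) < d := by exact_mod_cast h7
  have hb4 : -(4 * (b : ZMod d)) ≠ 0 := by
    have h2 := (S2b_two d h3 h7).1
    have h4 : (4 : ZMod d) = 2 * 2 := by norm_num
    rw [neg_ne_zero, h4]
    refine mul_ne_zero (mul_ne_zero h2 h2) fun h => hb ?_
    exact (ZMod.intCast_zmod_eq_zero_iff_dvd b d).1 h
  have h1U : 1 ∈ U d := by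
    rw [U, mem_filter, mem_range]
    exact ⟨by omega, Nat.coprime_one_left d⟩
  by_contra hcon
  push Not at hcon
  by_cases hall : ∃ j₁ ∈ U d, sg d b j₁ = 1
  · -- all positive
    obtain ⟨j₁, hj₁, hsg⟩ := hall
    have hp' : ∀ j ∈ U d, 0 < s j := by
      intro j hj
      refine hpos j ?_
      rcases sg_or d b j with h | h
      · exact h
      · exact absurd h (hcon j₁ hj₁ j hj hsg)
    have h0 : 0 < ∑ j ∈ U d, s j := Finset.sum_pos hp' ⟨1, h1U⟩
    rcases quadraticChar_dichotomy hb4 with hχ | hχ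
    · rw [hχ] at hsum0
      have h5 : ∑ j ∈ U d, s j *
          (1 - (e ((((n₀.val : ℕ) : ℤ) : ℝ) * ((j : ℝ) / d))).re) = 0 := by
        simp_rw [mul_sub, mul_one]
        rw [sum_sub_distrib, hsumn, hsum0]
        simp
      have h6 : 0 < ∑ j ∈ U d, s j *
          (1 - (e ((((n₀.val : ℕ) : ℤ) : ℝ) * ((j : ℝ) / d))).re) := by
        refine Finset.sum_pos (fun j hj => mul_pos (hp' j hj) ?_) ⟨1, h1U⟩
        have hlt := S2b_re_lt ((((n₀.val : ℕ) : ℤ) : ℝ) * ((j : ℝ) / d)) (by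
          intro k hk
          have hd1 : (d : ℝ) ≠ 0 := by linarith
          have h8 : (((n₀.val : ℕ) : ℤ) : ℝ) * (j : ℝ) = (k : ℝ) * d := by
            rw [← hk]
            field_simp
          have h9 : ((n₀.val : ℕ) : ℤ) * (j : ℤ) = k * (d : ℤ) := by exact_mod_cast h8
          have h10 : (d : ℤ) ∣ ((n₀.val : ℕ) : ℤ) * (j : ℤ) := ⟨k, by rw [h9, mul_comm]⟩
          have h11 : d ∣ n₀.val * j := by exact_mod_cast h10
          rw [U, mem_filter] at hj
          rcases (Nat.Prime.dvd_mul hp).1 h11 with h12 | h12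
          · have h13 := (ZMod.natCast_eq_zero_iff n₀.val d).2 h12
            rw [ZMod.natCast_zmod_val] at h13
            exact hn0 h13
          · have h13 := Nat.dvd_gcd h12 (dvd_refl d)
            have h14 : j.gcd d = 1 := hj.2
            rw [h14] at h13
            exact hp.one_lt.ne' (Nat.dvd_one.1 h13))
        linarith
      linarith
    · rw [hχ] at hsum0
      push_cast at hsum0
      linarith
  · -- all negative
    push Not at hall
    have hn' : ∀ j ∈ U d, s j < 0 := by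
      intro j hj
      refine hneg j ?_
      rcases sg_or d b j with h | h
      · exact absurd h (hall j hj)
      · exact h
    have h0 : ∑ j ∈ U d, s j < 0 := Finset.sum_neg hn' ⟨1, h1U⟩
    have h5 : ∑ j ∈ U d, s j * (e ((((n₀.val : ℕ) : ℤ) : ℝ) * ((j : ℝ) / d))).re ≤
        ∑ j ∈ U d, -s j := by
      refine Finset.sum_le_sum fun j hj => ?_
      have h6 := Complex.abs_re_le_norm (e ((((n₀.val : ℕ) : ℤ) : ℝ) * ((j : ℝ) / d)))
      rw [norm_e, abs_le] at h6
      have h7 := hn' j hj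
      nlinarith [h6.1]
    rw [Finset.sum_neg_distrib, hsumn] at h5
    rcases quadraticChar_dichotomy hb4 with hχ | hχ
    · rw [hχ] at hsum0
      push_cast at hsum0
      linarith
    · rw [hχ] at hsum0
      push_cast at hsum0
      linarith

end CS68
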